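import Mathlib
import Pool.Agent.Q279.PM.Stm

set_option autoImplicit false

namespace Pool.Agent.Q279.PM.JSLOPE

open Set Pool.Agent.Q279.PM

theorem lastBelow (g : ℝ → ℝ) (a p C : ℝ) (hap : a ≤ p) (hg : ContinuousOn g (Icc a p))
    (ha : g a ≤ C) : ∃ α ∈ Icc a p, g α ≤ C ∧ ∀ x ∈ Ioc α p, C < g x := by
  have hc : IsClosed (Icc a p ∩ g ⁻¹' Iic C) := hg.preimage_isClosed_of_isClosed isClosed_Icc isClosed_Iic
  have hk : IsCompact (Icc a p ∩ g ⁻¹' Iic C) := isCompact_Icc.of_isClosed_subset hc inter_subset_left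
  obtain ⟨α, hα⟩ := hk.exists_isGreatest ⟨a, ⟨le_rfl, hap⟩, ha⟩
  refine ⟨α, hα.1.1, hα.1.2, fun x hx => ?_⟩
  by_contra hcon
  rw [not_lt] at hcon
  have h1 : x ∈ Icc a p ∩ g ⁻¹' Iic C := ⟨⟨hα.1.1.1.trans hx.1.le, hx.2⟩, hcon⟩
  exact absurd (hα.2 h1) (not_le.2 hx.1)

theorem firstBelow (g : ℝ → ℝ) (p b C : ℝ) (hpb : p ≤ b) (hg : ContinuousOn g (Icc p b))
    (hb : g b ≤ C) : ∃ β ∈ Icc p b, g β ≤ C ∧ ∀ x ∈ Ico p β, C < g x := by
  have hc : IsClosed (Icc p b ∩ g ⁻¹' Iic C) := hg.preimage_isClosed_of_isClosed isClosed_Icc isClosed_Iic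
  have hk : IsCompact (Icc p b ∩ g ⁻¹' Iic C) := isCompact_Icc.of_isClosed_subset hc inter_subset_left
  obtain ⟨β, hβ⟩ := hk.exists_isLeast ⟨b, ⟨hpb, le_rfl⟩, hb⟩
  refine ⟨β, hβ.1.1, hβ.1.2, fun x hx => ?_⟩
  by_contra hcon
  rw [not_lt] at hcon
  have h1 : x ∈ Icc p b ∩ g ⁻¹' Iic C := ⟨⟨hx.1, hx.2.le.trans hβ.1.1.2⟩, hcon⟩
  exact absurd (hβ.2 h1) (not_le.2 hx.2)

variable {s t : ℝ} {K q q1 : ℝ → ℝ} {lam d : ℝ} {w w1 : ℝ → ℝ}

theorem cw (hS : Sol s t K q lam d w w1) : ContinuousOn w (Icc s t) :=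
  fun x hx => (hS.dw x hx).continuousWithinAt

theorem cw1 (hS : Sol s t K q lam d w w1) : ContinuousOn w1 (Icc s t) :=
  fun x hx => (hS.dw1 x hx).continuousWithinAt

theorem df (hD : Dat s t K q q1) (hS : Sol s t K q lam d w w1) (x : ℝ) (hx : x ∈ Icc s t) :
    HasDerivWithinAt (fun y => q y - w y) (q1 x - w1 x) (Icc s t) x :=
  (hD.dq x).hasDerivWithinAt.sub (hS.dw x hx)

theorem cf (hD : Dat s t K q q1) (hS : Sol s t K q lam d w w1) :
    ContinuousOn (fun y => q y - w y) (Icc s t) :=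
  fun x hx => (df hD hS x hx).continuousWithinAt

theorem rho_nonneg (hD : Dat s t K q q1) (hS : Sol s t K q lam d w w1) (x : ℝ)
    (hx : x ∈ Icc s t) : 0 ≤ K x * q x ^ (lam - 2) * w x := by
  have h1 := hD.K_pos x
  have h2 := hS.pos x hx
  have h3 : 0 < q x ^ (lam - 2) := Real.rpow_pos_of_pos (hD.q_pos x) _
  positivity

/-- on an interval where `q - w ≥ 0` the slope is antitone -/
theorem anti (hD : Dat s t K q q1) (hd : 0 < d) (hS : Sol s t K q lam d w w1) (a b : ℝ)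
    (ha : s ≤ a) (hb : b ≤ t) (hf : ∀ x ∈ Icc a b, 0 ≤ q x - w x) : AntitoneOn w1 (Icc a b) := by
  have hsub : Icc a b ⊆ Icc s t := Icc_subset_Icc ha hb
  refine antitoneOn_of_hasDerivWithinAt_nonpos (convex_Icc a b) ((cw1 hS).mono hsub)
    (fun x hx => (hS.dw1 x (hsub (interior_subset hx))).mono (interior_subset.trans hsub))
    (fun x hx => ?_)
  have h1 := rho_nonneg hD hS x (hsub (interior_subset hx))
  have h2 := hf x (interior_subset hx)
  rw [neg_div]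
  exact neg_nonpos.2 (div_nonneg (mul_nonneg h1 h2) hd.le)

/-- on an interval where `q - w ≤ 0` the slope is monotone -/
theorem mono (hD : Dat s t K q q1) (hd : 0 < d) (hS : Sol s t K q lam d w w1) (a b : ℝ)
    (ha : s ≤ a) (hb : b ≤ t) (hf : ∀ x ∈ Icc a b, q x - w x ≤ 0) : MonotoneOn w1 (Icc a b) := by
  have hsub : Icc a b ⊆ Icc s t := Icc_subset_Icc ha hb
  refine monotoneOn_of_hasDerivWithinAt_nonneg (convex_Icc a b) ((cw1 hS).mono hsub)
    (fun x hx => (hS.dw1 x (hsub (interior_subset hx))).mono (interior_subset.trans hsub))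
    (fun x hx => ?_)
  have h1 := rho_nonneg hD hS x (hsub (interior_subset hx))
  have h2 := hf x (interior_subset hx)
  apply div_nonneg _ hd.le
  rw [neg_nonneg]
  exact mul_nonpos_of_nonneg_of_nonpos h1 h2

/-- `q - w` is antitone where `q1 ≤ w1` -/
theorem fanti (hD : Dat s t K q q1) (hS : Sol s t K q lam d w w1) (a b : ℝ)
    (ha : s ≤ a) (hb : b ≤ t) (h : ∀ x ∈ Ioo a b, q1 x ≤ w1 x) :
    AntitoneOn (fun y => q y - w y) (Icc a b) := by
  have hsub : Icc a b ⊆ Icc s t := Icc_subset_Icc ha hb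
  refine antitoneOn_of_hasDerivWithinAt_nonpos (convex_Icc a b) ((cf hD hS).mono hsub)
    (fun x hx => (df hD hS x (hsub (interior_subset hx))).mono (interior_subset.trans hsub))
    (fun x hx => ?_)
  rw [interior_Icc] at hx
  have := h x hx
  linarith

/-- `q - w` is monotone where `w1 ≤ q1` -/
theorem fmono (hD : Dat s t K q q1) (hS : Sol s t K q lam d w w1) (a b : ℝ)
    (ha : s ≤ a) (hb : b ≤ t) (h : ∀ x ∈ Ioo a b, w1 x ≤ q1 x) :
    MonotoneOn (fun y => q y - w y) (Icc a b) := by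
  have hsub : Icc a b ⊆ Icc s t := Icc_subset_Icc ha hb
  refine monotoneOn_of_hasDerivWithinAt_nonneg (convex_Icc a b) ((cf hD hS).mono hsub)
    (fun x hx => (df hD hS x (hsub (interior_subset hx))).mono (interior_subset.trans hsub))
    (fun x hx => ?_)
  rw [interior_Icc] at hx
  have := h x hx
  linarith

/-- upper bound at a point with `q ≤ w`, from the right -/
theorem upR (hD : Dat s t K q q1) (hd : 0 < d) (hS : Sol s t K q lam d w w1) (p C : ℝ)
    (hp : p ∈ Icc s t) (hC : 0 ≤ C) (hq : ∀ x ∈ Icc p t, q1 x ≤ C) (hf : q p - w p ≤ 0) :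
    w1 p ≤ C := by
  by_contra hcon
  rw [not_le] at hcon
  obtain ⟨β, hβ, hβC, hβx⟩ := firstBelow w1 p t C hp.2 ((cw1 hS).mono (Icc_subset_Icc hp.1 le_rfl))
    (by rw [hS.right]; exact hC)
  have h1 := fanti hD hS p β hp.1 hβ.2 (fun x hx =>
    (hq x ⟨hx.1.le, hx.2.le.trans hβ.2⟩).trans (hβx x ⟨hx.1.le, hx.2⟩).le)
  have h2 : ∀ x ∈ Icc p β, q x - w x ≤ 0 := fun x hx =>
    (h1 (left_mem_Icc.2 hβ.1) hx hx.1).trans hf
  have h3 := mono hD hd hS p β hp.1 hβ.2 h2 (left_mem_Icc.2 hβ.1) (right_mem_Icc.2 hβ.1) hβ.1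
  linarith

theorem main : Pool.Agent.Q279.PM.Slope := by
  intro s t K q q1 lam d w w1 A C hD hd hS hA hC hq p hp
  constructor
  · -- lower bound
    by_contra hcon
    rw [not_le] at hcon
    rcases le_total (q p - w p) 0 with hf | hf
    · -- from the left
      obtain ⟨α, hα, hαC, hαx⟩ := lastBelow (fun x => -w1 x) s p A hp.1
        ((cw1 hS).neg.mono (Icc_subset_Icc le_rfl hp.2)) (by rw [hS.left]; simpa using hA)
      have h1 := fmono hD hS α p hα.1 hp.2 (fun x hx => by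
        have e1 := hαx x ⟨hx.1, hx.2.le⟩
        have e2 := (hq x ⟨hα.1.trans hx.1.le, hx.2.le.trans hp.2⟩).1
        linarith)
      have h2 : ∀ x ∈ Icc α p, q x - w x ≤ 0 := fun x hx =>
        (h1 hx (right_mem_Icc.2 hα.2) hx.2).trans hf
      have h3 := mono hD hd hS α p hα.1 hp.2 h2 (left_mem_Icc.2 hα.2) (right_mem_Icc.2 hα.2) hα.2
      linarith
    · -- from the right
      obtain ⟨β, hβ, hβC, hβx⟩ := firstBelow (fun x => -w1 x) p t A hp.2
        ((cw1 hS).neg.mono (Icc_subset_Icc hp.1 le_rfl)) (by rw [hS.right]; simpa using hA)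
      have h1 := fmono hD hS p β hp.1 hβ.2 (fun x hx => by
        have e1 := hβx x ⟨hx.1.le, hx.2⟩
        have e2 := (hq x ⟨hp.1.trans hx.1.le, hx.2.le.trans hβ.2⟩).1
        linarith)
      have h2 : ∀ x ∈ Icc p β, 0 ≤ q x - w x := fun x hx =>
        hf.trans (h1 (left_mem_Icc.2 hβ.1) hx hx.1)
      have h3 := anti hD hd hS p β hp.1 hβ.2 h2 (left_mem_Icc.2 hβ.1) (right_mem_Icc.2 hβ.1) hβ.1
      linarith
  · -- upper bound
    rcases le_total (q p - w p) 0 with hf | hf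
    · exact upR hD hd hS p C hp hC (fun x hx => (hq x ⟨hp.1.trans hx.1, hx.2⟩).2) hf
    · by_contra hcon
      rw [not_le] at hcon
      obtain ⟨α, hα, hαC, hαx⟩ := lastBelow w1 s p C hp.1 ((cw1 hS).mono (Icc_subset_Icc le_rfl hp.2))
        (by rw [hS.left]; exact hC)
      have h1 := fanti hD hS α p hα.1 hp.2 (fun x hx =>
        (hq x ⟨hα.1.trans hx.1.le, hx.2.le.trans hp.2⟩).2.trans (hαx x ⟨hx.1, hx.2.le⟩).le)
      have h2 : ∀ x ∈ Icc α p, 0 ≤ q x - w x := fun x hx =>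
        hf.trans (h1 hx (right_mem_Icc.2 hα.2) hx.2)
      have h3 := anti hD hd hS α p hα.1 hp.2 h2 (left_mem_Icc.2 hα.2) (right_mem_Icc.2 hα.2) hα.2
      linarith

end Pool.Agent.Q279.PM.JSLOPE
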