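import Mathlib
import Pool.Agent.Q279.PM.Stm
import Pool.Agent.Q279.PM.J.SLOPE

set_option autoImplicit false

namespace Pool.Agent.Q279.PM.JASC

open Set Pool.Agent.Q279.PM Pool.Agent.Q279.PM.JSLOPE

theorem main : Pool.Agent.Q279.PM.Ascent := by
  intro s t K q q1 lam d w w1 z0 z H hD hd hS hz0 hz hzt hH hq hqz p hp
  have hz0p : z0 ≤ p := hz.le.trans hp.1
  have hps : p ∈ Icc s t := ⟨hz0.trans hz0p, hp.2⟩
  rcases le_total (q p - w p) 0 with hf | hf
  · exact upR hD hd hS p H hps hH (fun x hx => hq x ⟨hz0p.trans hx.1, hx.2⟩) hf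
  by_contra hcon
  rw [not_le] at hcon
  by_cases hex : ∃ y ∈ Icc z0 p, w1 y ≤ H
  · obtain ⟨y, hy, hyH⟩ := hex
    obtain ⟨α, hα, hαC, hαx⟩ := lastBelow w1 y p H hy.2
      ((cw1 hS).mono (Icc_subset_Icc (hz0.trans hy.1) hps.2)) hyH
    have hsα : s ≤ α := hz0.trans (hy.1.trans hα.1)
    have h1 := fanti hD hS α p hsα hps.2 (fun x hx =>
      (hq x ⟨(hy.1.trans hα.1).trans hx.1.le, hx.2.le.trans hps.2⟩).trans (hαx x ⟨hx.1, hx.2.le⟩).le)
    have h2 : ∀ x ∈ Icc α p, 0 ≤ q x - w x := fun x hx =>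
      hf.trans (h1 hx (right_mem_Icc.2 hα.2) hx.2)
    have h3 := anti hD hd hS α p hsα hps.2 h2 (left_mem_Icc.2 hα.2) (right_mem_Icc.2 hα.2) hα.2
    linarith
  · push Not at hex
    have h1 := fanti hD hS z0 p hz0 hps.2 (fun x hx =>
      (hq x ⟨hx.1.le, hx.2.le.trans hps.2⟩).trans (hex x ⟨hx.1.le, hx.2.le⟩).le)
    have h2 : 0 ≤ q z - w z :=
      hf.trans (h1 ⟨hz.le, hp.1⟩ (right_mem_Icc.2 hz0p) hp.1)
    -- `w - H x` is monotone on `[z0, z]`
    have hsub : Icc z0 z ⊆ Icc s t := Icc_subset_Icc hz0 hzt.le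
    have h3 : MonotoneOn (fun x => w x - H * x) (Icc z0 z) := by
      have hdw : ∀ x ∈ Icc s t, HasDerivWithinAt (fun y => w y - H * y) (w1 x - H) (Icc s t) x := by
        intro x hx
        have h6 : HasDerivWithinAt (fun y : ℝ => H * y) H (Icc s t) x := by
          have := ((hasDerivAt_id x).const_mul H).hasDerivWithinAt (s := Icc s t)
          rw [mul_one] at this
          exact this
        exact (hS.dw x hx).sub h6
      refine monotoneOn_of_hasDerivWithinAt_nonneg (convex_Icc z0 z)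
        (fun x hx => ((hdw x (hsub hx)).continuousWithinAt).mono hsub)
        (fun x hx => (hdw x (hsub (interior_subset hx))).mono (interior_subset.trans hsub))
        (fun x hx => ?_)
      have hx' := interior_subset hx
      have := hex x ⟨hx'.1, hx'.2.trans hp.1⟩
      linarith
    have h4 := h3 (left_mem_Icc.2 hz.le) (right_mem_Icc.2 hz.le) hz.le
    have h5 := hS.pos z0 (hsub (left_mem_Icc.2 hz.le))
    simp only at h4
    nlinarith

end Pool.Agent.Q279.PM.JASC
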