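import Pool.Agent.Q279.PM.Stm

/-!
# Job BD: the derivatives of the step are bounded
-/

namespace Pool.Agent.Q279.PM.JBD

open Set MeasureTheory intervalIntegral Filter Topology

lemma B_smooth : ContDiff ℝ (⊤ : ℕ∞) B := Real.smoothTransition.contDiff

lemma dB_smooth : ContDiff ℝ (⊤ : ℕ∞) (deriv B) := (contDiff_infty_iff_deriv.1 B_smooth).2

lemma ddB_smooth : ContDiff ℝ (⊤ : ℕ∞) (deriv (deriv B)) :=
  (contDiff_infty_iff_deriv.1 dB_smooth).2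

lemma dddB_smooth : ContDiff ℝ (⊤ : ℕ∞) (deriv (deriv (deriv B))) :=
  (contDiff_infty_iff_deriv.1 ddB_smooth).2

/-- A function which is locally constant off `[0,1]`. -/
def LC (f : ℝ → ℝ) : Prop :=
  (∃ c, ∀ x, x < 0 → f x = c) ∧ (∃ c, ∀ x, 1 < x → f x = c)

lemma deriv_zero {f : ℝ → ℝ} (h : LC f) :
    (∀ x, x < 0 → deriv f x = 0) ∧ (∀ x, 1 < x → deriv f x = 0) := by
  obtain ⟨⟨c, hc⟩, ⟨c', hc'⟩⟩ := h
  constructor
  · intro x hx
    have : f =ᶠ[𝓝 x] fun _ => c := by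
      filter_upwards [Iio_mem_nhds hx] with y hy using hc y hy
    rw [this.deriv_eq]; simp
  · intro x hx
    have : f =ᶠ[𝓝 x] fun _ => c' := by
      filter_upwards [Ioi_mem_nhds hx] with y hy using hc' y hy
    rw [this.deriv_eq]; simp

lemma LC_deriv {f : ℝ → ℝ} (h : LC f) : LC (deriv f) :=
  ⟨⟨0, (deriv_zero h).1⟩, ⟨0, (deriv_zero h).2⟩⟩

lemma LC_B : LC B :=
  ⟨⟨0, fun _ hx => Real.smoothTransition.zero_of_nonpos hx.le⟩,
    ⟨1, fun _ hx => Real.smoothTransition.one_of_one_le hx.le⟩⟩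

lemma bdd {f : ℝ → ℝ} (hf : Continuous f) (h0 : ∀ x, x < 0 → f x = 0)
    (h1 : ∀ x, 1 < x → f x = 0) : ∃ C, 0 ≤ C ∧ ∀ x, |f x| ≤ C := by
  obtain ⟨C, hC⟩ := (isCompact_Icc (a := (0:ℝ)) (b := 1)).exists_bound_of_continuousOn
    hf.continuousOn
  refine ⟨max C 0, le_max_right _ _, fun x => ?_⟩
  rcases lt_or_ge x 0 with hx | hx
  · rw [h0 x hx]; simp
  rcases lt_or_ge 1 x with hx1 | hx1
  · rw [h1 x hx1]; simp
  · exact le_trans (by simpa [Real.norm_eq_abs] using hC x ⟨hx, hx1⟩) (le_max_left _ _)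

theorem main : Pool.Agent.Q279.PM.ExBd := by
  have z1 := deriv_zero LC_B
  have z2 := deriv_zero (LC_deriv LC_B)
  have z3 := deriv_zero (LC_deriv (LC_deriv LC_B))
  obtain ⟨C1, p1, h1⟩ := bdd dB_smooth.continuous z1.1 z1.2
  obtain ⟨C2, p2, h2⟩ := bdd ddB_smooth.continuous z2.1 z2.2
  obtain ⟨C3, p3, h3⟩ := bdd dddB_smooth.continuous z3.1 z3.2
  refine ⟨1 + C1 + C2 + C3, by linarith, fun x => ⟨?_, ?_, ?_⟩⟩
  · linarith [h1 x]
  · linarith [h2 x]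
  · linarith [h3 x]

end Pool.Agent.Q279.PM.JBD
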