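import Pool.Agent.Q279.PM.Stm

set_option autoImplicit false

open Set MeasureTheory intervalIntegral Filter Topology
open Pool.Agent.Q279.PM

namespace Pool.Agent.Q279.PM.JBas298

theorem q_cont {s t : ℝ} {K q q1 : ℝ → ℝ} (hD : Dat s t K q q1) : Continuous q :=
  continuous_iff_continuousAt.mpr fun x => (hD.dq x).continuousAt

theorem qpow_cont {s t : ℝ} {K q q1 : ℝ → ℝ} (hD : Dat s t K q q1) (a : ℝ) :
    Continuous (fun y => q y ^ a) :=
  (q_cont hD).rpow_const fun x => Or.inl (hD.q_pos x).ne'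

theorem Kq_cont {s t : ℝ} {K q q1 : ℝ → ℝ} (hD : Dat s t K q q1) (a : ℝ) :
    Continuous (fun y => K y * q y ^ a) := hD.K_cont.mul (qpow_cont hD a)

theorem w_contOn {s t : ℝ} {K q : ℝ → ℝ} {lam d : ℝ} {w w1 : ℝ → ℝ}
    (hS : Sol s t K q lam d w w1) : ContinuousOn w (Icc s t) :=
  fun x hx => (hS.dw x hx).continuousWithinAt

theorem w1_contOn {s t : ℝ} {K q : ℝ → ℝ} {lam d : ℝ} {w w1 : ℝ → ℝ}
    (hS : Sol s t K q lam d w w1) : ContinuousOn w1 (Icc s t) :=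
  fun x hx => (hS.dw1 x hx).continuousWithinAt

theorem qpow_two {s t : ℝ} {K q q1 : ℝ → ℝ} (hD : Dat s t K q q1) (lam : ℝ) (x : ℝ) :
    q x ^ lam = q x ^ (lam - 2) * q x ^ 2 := by
  have h := Real.rpow_add (hD.q_pos x) (lam - 2) 2
  rw [sub_add_cancel] at h
  rw [h]
  norm_num

end Pool.Agent.Q279.PM.JBas298
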