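import Pool.Agent.Q279.PM.Stm

/-!
# Job PM-CHOICE: the choice of the parameters
-/

set_option autoImplicit false

namespace Pool.Agent.Q279.PM.JCHOICE

open Pool.Agent.Q279.PM

theorem main : Pool.Agent.Q279.PM.Choice := by
  intro b β hb hβ hβ1
  have hb1 : 1 ≤ b := hb.1
  have hb0 : 0 < b := by linarith
  obtain ⟨D, hD⟩ : ∃ D : ℝ, D = β / (40000 * b ^ 2) := ⟨_, rfl⟩
  obtain ⟨c, hc⟩ : ∃ c : ℝ, c = (β / (240 * b)) ^ 2 := ⟨_, rfl⟩
  have hD0 : 0 < D := by rw [hD]; positivity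
  have hc0 : 0 < c := by rw [hc]; positivity
  have hc1 : c ≤ 1 := by
    rw [hc]
    have h1 : β / (240 * b) ≤ 1 := by
      rw [div_le_one (by positivity)]
      linarith
    exact pow_le_one₀ (by positivity) h1
  obtain ⟨R0, hR0⟩ : ∃ n : ℕ, ((1 : ℝ) / 2) ^ n < D / 256 := exists_pow_lt_of_lt_one (by positivity) (by norm_num)
  obtain ⟨R, hR⟩ : ∃ R : ℕ, R = max 4 R0 := ⟨_, rfl⟩
  have hR4 : 4 ≤ R := by rw [hR]; exact le_max_left _ _
  have hRR : R0 ≤ R := by rw [hR]; exact le_max_right _ _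
  have hRD : ((1 : ℝ) / 2) ^ R ≤ D / 256 :=
    (pow_le_pow_of_le_one (by norm_num) (by norm_num) hRR).trans hR0.le
  have hR16 : ((1 : ℝ) / 2) ^ R ≤ 1 / 16 := by
    have := pow_le_pow_of_le_one (a := (1 : ℝ) / 2) (by norm_num) (by norm_num) hR4
    norm_num at this ⊢
    exact this
  have hRr : (4 : ℝ) ≤ R := by exact_mod_cast hR4
  obtain ⟨A, hA⟩ : ∃ A : ℝ, A = 1600 * b + 960 * R / D := ⟨_, rfl⟩
  have hAb : 1600 * b ≤ A := by
    rw [hA]
    have : 0 ≤ 960 * R / D := by positivity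
    linarith
  have hAR : 120 * (R / A) ≤ D / 8 := by
    have hA0 : 0 < A := by linarith
    have h1 : 960 * R / D ≤ A := by rw [hA]; linarith
    rw [div_le_iff₀ hD0] at h1
    rw [mul_div_assoc', div_le_iff₀ hA0]
    linarith
  have hA0 : 0 < A := by linarith
  obtain ⟨ε, hε⟩ : ∃ ε : ℝ, ε = min (1 / 4) (D / 80) := ⟨_, rfl⟩
  have hε0 : 0 < ε := by rw [hε]; exact lt_min (by norm_num) (by positivity)
  have hε1 : ε ≤ 1 / 4 := by rw [hε]; exact min_le_left _ _
  have hε2 : 10 * ε ≤ D / 8 := by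
    have : ε ≤ D / 80 := by rw [hε]; exact min_le_right _ _
    linarith
  obtain ⟨E, hE⟩ : ∃ E : ℝ, E = 16 * 4 ^ R * A ^ 2 / (100 * b * ε * c) := ⟨_, rfl⟩
  have hE0 : 0 < E := by rw [hE]; positivity
  obtain ⟨N, hN⟩ : ∃ N : ℕ, N = ⌈4 + R + 4 * A + A / β + 1640 * R / c + 48 * E / D + 192 * b * E⌉₊ := ⟨_, rfl⟩
  have hNr : 4 + R + 4 * A + A / β + 1640 * R / c + 48 * E / D + 192 * b * E ≤ (N : ℝ) := by
    rw [hN]; exact Nat.le_ceil _
  have p1 : 0 ≤ A / β := by positivity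
  have p2 : 0 ≤ 1640 * R / c := by positivity
  have p3 : 0 ≤ 48 * E / D := by positivity
  have p4 : 0 ≤ 192 * b * E := by positivity
  have n1 : (4 : ℝ) ≤ N := by linarith
  have n2 : (R : ℝ) ≤ N := by linarith
  have n3 : 4 * A ≤ N := by linarith
  have n4 : A / β ≤ N := by linarith
  have n5 : 1640 * R / c ≤ N := by linarith
  have n6 : 48 * E / D ≤ N := by linarith
  have n7 : 192 * b * E ≤ N := by linarith
  have hN0 : (0 : ℝ) < N := by linarith
  have hN4 : 4 ≤ N := by exact_mod_cast n1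
  have hNne : N ≠ 0 := by omega
  obtain ⟨m, hm⟩ : ∃ m : ℝ, m = A / N := ⟨_, rfl⟩
  have hm0 : 0 < m := by rw [hm]; positivity
  -- powers
  have q1 : ((4 : ℝ) ^ N) ^ ((R : ℝ) / N) = 4 ^ R := by
    rw [← Real.rpow_natCast 4 N, ← Real.rpow_mul (by norm_num), mul_div_cancel₀ _ hN0.ne', Real.rpow_natCast]
  have q2 : ((2 : ℝ) ^ N) ^ (-((R : ℝ) / N)) = (1 / 2) ^ R := by
    rw [Real.rpow_neg (by positivity), ← Real.rpow_natCast 2 N, ← Real.rpow_mul (by norm_num),
      mul_div_cancel₀ _ hN0.ne', Real.rpow_natCast, one_div, inv_pow]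
  have q3 : ((2 : ℝ) ^ N) ^ (-((1 : ℝ) / N)) = 1 / 2 := by
    rw [Real.rpow_neg (by positivity), ← Real.rpow_natCast 2 N, ← Real.rpow_mul (by norm_num),
      mul_one_div_cancel hN0.ne', Real.rpow_one, one_div]
  have q4 : ((4 : ℝ) ^ N) ^ (-((1 : ℝ) / N)) = 1 / 4 := by
    rw [Real.rpow_neg (by positivity), ← Real.rpow_natCast 4 N, ← Real.rpow_mul (by norm_num),
      mul_one_div_cancel hN0.ne', Real.rpow_one, one_div]
  have q5 : Real.log ((4 : ℝ) ^ N) = N * Real.log 4 := Real.log_pow _ _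
  have hl4 : Real.log 4 ≤ 2 := by
    rw [Real.log_le_iff_le_exp (by norm_num)]
    have h1 := Real.add_one_le_exp (1 : ℝ)
    have h2 : Real.exp 2 = Real.exp 1 * Real.exp 1 := by rw [← Real.exp_add]; norm_num
    rw [h2]
    nlinarith
  have hl40 : 0 < Real.log 4 := Real.log_pos (by norm_num)
  obtain ⟨G, hG⟩ : ∃ G : ℝ, G = 16 * 4 ^ R * (1 + N * Real.log 4) := ⟨_, rfl⟩
  have hG1 : 1 ≤ G := by
    rw [hG]
    have h1 : (1 : ℝ) ≤ 4 ^ R := one_le_pow₀ (by norm_num)
    have h2 : 1 ≤ 1 + N * Real.log 4 := by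
      have : 0 < N * Real.log 4 := by positivity
      linarith
    nlinarith
  have hG0 : 0 < G := by linarith
  let p : Par := { m := m, eta := ε * m, QA := 4 ^ N, QB := 2 ^ N, ga := G / (ε * m * c), d1 := m / (6400 * b ^ 2), l1 := 1 / N }
  have he1 : p.e1 b = m ^ 2 * G / (100 * b * ε * c) := by
    show 64 * b * (m / (6400 * b ^ 2)) * (G / (ε * m * c)) * m ^ 2 = _
    field_simp
    norm_num
  have he1le : p.e1 b ≤ 3 * E / N := by
    rw [he1, hm, hE, hG]
    have h1 : 1 + N * Real.log 4 ≤ 3 * N := by nlinarith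
    have h2 : (A / N) ^ 2 * (16 * 4 ^ R * (1 + N * Real.log 4)) / (100 * b * ε * c) ≤
        (A / N) ^ 2 * (16 * 4 ^ R * (3 * N)) / (100 * b * ε * c) := by
      apply div_le_div_of_nonneg_right _ (by positivity)
      apply mul_le_mul_of_nonneg_left _ (by positivity)
      exact mul_le_mul_of_nonneg_left h1 (by positivity)
    refine h2.trans (le_of_eq ?_)
    field_simp
  have he1a : 2 * p.e1 b ≤ D / 8 := by
    have h1 : 3 * E / N ≤ D / 16 := by
      rw [div_le_iff₀ hN0]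
      rw [div_le_iff₀ hD0] at n6
      linarith
    linarith
  have he1b : 64 * b * p.e1 b ≤ 1 := by
    have h1 : 64 * b * p.e1 b ≤ 64 * b * (3 * E / N) := mul_le_mul_of_nonneg_left he1le (by positivity)
    refine h1.trans ?_
    rw [mul_div_assoc', div_le_one hN0]
    linarith
  have hm1 : m ≤ 1 / 4 := by
    rw [hm, div_le_iff₀ hN0]
    linarith
  have hmβ : m ≤ β := by
    rw [hm, div_le_iff₀ hN0]
    rw [div_le_iff₀ hβ] at n4
    linarith
  refine ⟨p, R / N, ?_, ?_, ?_, ?_, ?_, ?_, ?_, ?_, ?_, ?_, ?_⟩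
  · exact
      { hb := hb
        m0 := hm0
        m1 := hm1
        eta0 := by show 0 < ε * m; positivity
        eta1 := by show ε * m ≤ m / 4; nlinarith
        QB0 := by
          show (16 : ℝ) ≤ 2 ^ N
          have := pow_le_pow_right₀ (a := (2 : ℝ)) (by norm_num) hN4
          norm_num at this ⊢
          exact this
        QA0 := by
          show 8 * (2 : ℝ) ^ N ≤ 4 ^ N
          have h1 : (4 : ℝ) ^ N = 2 ^ N * 2 ^ N := by rw [← mul_pow]; norm_num
          have h2 : (8 : ℝ) ≤ 2 ^ N := by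
            have := pow_le_pow_right₀ (a := (2 : ℝ)) (by norm_num) hN4
            norm_num at this
            linarith
          rw [h1]
          exact mul_le_mul_of_nonneg_right h2 (by positivity)
        ga0 := by
          show 1 ≤ G / (ε * m * c) * (ε * m)
          have : G / (ε * m * c) * (ε * m) = G / c := by field_simp
          rw [this, le_div_iff₀ hc0]
          linarith
        d10 := rfl
        l10 := by show 0 < 1 / (N : ℝ); positivity
        l11 := by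
          show 1 / (N : ℝ) ≤ 1
          rw [div_le_one hN0]
          linarith
        e10 := he1b }
  · show 1 / (N : ℝ) < R / N
    apply div_lt_div_of_pos_right _ hN0
    linarith
  · rw [div_le_one hN0]; exact n2
  · exact q3
  · exact q4
  · show 1600 * b * (1 / (N : ℝ)) ≤ m
    rw [hm, mul_one_div]
    exact div_le_div_of_nonneg_right hAb hN0.le
  · exact hmβ
  · show 16 * ((2 : ℝ) ^ N) ^ (-((R : ℝ) / N)) ≤ 1
    rw [q2]
    linarith
  · show 16 * ((4 : ℝ) ^ N) ^ ((R : ℝ) / N) * (1 + Real.log ((4 : ℝ) ^ N)) / (G / (ε * m * c) * (ε * m)) ≤ (β / (240 * b)) ^ 2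
    rw [q1, q5, ← hG, ← hc]
    apply le_of_eq
    field_simp
  · rw [← hc]
    rw [div_le_iff₀ hc0] at n5
    rw [mul_div_assoc', div_le_iff₀ hN0]
    linarith
  · show 32 * ((2 : ℝ) ^ N) ^ (-((R : ℝ) / N)) + 10 * (ε * m / m) + 2 * p.e1 b + 120 * (R / N / m) ≤ β / (40000 * b ^ 2)
    rw [q2, ← hD]
    have h1 : ε * m / m = ε := by field_simp
    have h2 : (R : ℝ) / N / m = R / A := by
      rw [hm]
      field_simp
    rw [h1, h2]
    linarith

end Pool.Agent.Q279.PM.JCHOICE
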