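import Pool.Agent.Q279.PM.Stm

/-!
# Job DER: bounds of the second and third derivative of the explicit solution
-/

namespace Pool.Agent.Q279.PM.JDER

open Set MeasureTheory intervalIntegral Filter Topology

noncomputable section

def B1 : ℝ → ℝ := deriv B
def B2 : ℝ → ℝ := deriv B1

lemma B_smooth : ContDiff ℝ (⊤ : ℕ∞) B := Real.smoothTransition.contDiff

lemma B1_smooth : ContDiff ℝ (⊤ : ℕ∞) B1 := (contDiff_infty_iff_deriv.1 B_smooth).2

lemma B2_smooth : ContDiff ℝ (⊤ : ℕ∞) B2 := (contDiff_infty_iff_deriv.1 B1_smooth).2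

lemma B_deriv (x : ℝ) : HasDerivAt B (B1 x) x :=
  ((contDiff_infty_iff_deriv.1 B_smooth).1 x).hasDerivAt

lemma B1_deriv (x : ℝ) : HasDerivAt B1 (B2 x) x :=
  ((contDiff_infty_iff_deriv.1 B1_smooth).1 x).hasDerivAt

lemma B_nonneg (x : ℝ) : 0 ≤ B x := Real.smoothTransition.nonneg x

lemma B_le_one (x : ℝ) : B x ≤ 1 := Real.smoothTransition.le_one x

lemma B_zero {x : ℝ} (hx : x ≤ 0) : B x = 0 := Real.smoothTransition.zero_of_nonpos hx

lemma B_one {x : ℝ} (hx : 1 ≤ x) : B x = 1 := Real.smoothTransition.one_of_one_le hx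

/-- A continuous function vanishing on an open half line vanishes at the end point. -/
lemma zero_left {f : ℝ → ℝ} (hf : Continuous f) {a : ℝ} (h : ∀ x, x < a → f x = 0) {x : ℝ}
    (hx : x ≤ a) : f x = 0 := by
  have hc : IsClosed {x | f x = 0} := isClosed_eq hf continuous_const
  have hs : Iio a ⊆ {x | f x = 0} := fun y hy => h y hy
  have := hc.closure_subset_iff.2 hs
  rw [closure_Iio] at this
  exact this hx

lemma zero_right {f : ℝ → ℝ} (hf : Continuous f) {a : ℝ} (h : ∀ x, a < x → f x = 0) {x : ℝ}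
    (hx : a ≤ x) : f x = 0 := by
  have hc : IsClosed {x | f x = 0} := isClosed_eq hf continuous_const
  have hs : Ioi a ⊆ {x | f x = 0} := fun y hy => h y hy
  have := hc.closure_subset_iff.2 hs
  rw [closure_Ioi] at this
  exact this hx

lemma B1_zero {x : ℝ} (hx : x ≤ 0) : B1 x = 0 := by
  refine zero_left B1_smooth.continuous (a := 0) (fun y hy => ?_) hx
  have : B =ᶠ[𝓝 y] fun _ => (0:ℝ) := by
    filter_upwards [Iio_mem_nhds hy] with u hu using B_zero (le_of_lt hu)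
  unfold B1
  rw [this.deriv_eq]; simp

lemma B1_one {x : ℝ} (hx : 1 ≤ x) : B1 x = 0 := by
  refine zero_right B1_smooth.continuous (a := 1) (fun y hy => ?_) hx
  have : B =ᶠ[𝓝 y] fun _ => (1:ℝ) := by
    filter_upwards [Ioi_mem_nhds hy] with u hu using B_one (le_of_lt hu)
  unfold B1
  rw [this.deriv_eq]; simp

lemma B2_zero {x : ℝ} (hx : x ≤ 0) : B2 x = 0 := by
  refine zero_left B2_smooth.continuous (a := 0) (fun y hy => ?_) hx
  have : B1 =ᶠ[𝓝 y] fun _ => (0:ℝ) := by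
    filter_upwards [Iio_mem_nhds hy] with u hu using B1_zero (le_of_lt hu)
  unfold B2
  rw [this.deriv_eq]; simp

lemma B2_one {x : ℝ} (hx : 1 ≤ x) : B2 x = 0 := by
  refine zero_right B2_smooth.continuous (a := 1) (fun y hy => ?_) hx
  have : B1 =ᶠ[𝓝 y] fun _ => (0:ℝ) := by
    filter_upwards [Ioi_mem_nhds hy] with u hu using B1_one (le_of_lt hu)
  unfold B2
  rw [this.deriv_eq]; simp

def bump1 (x : ℝ) : ℝ := 2 * B1 (2 * x + 2) * B (-(2 * x)) - 2 * B (2 * x + 2) * B1 (-(2 * x))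

def bump2 (x : ℝ) : ℝ :=
  4 * B2 (2 * x + 2) * B (-(2 * x)) - 8 * B1 (2 * x + 2) * B1 (-(2 * x)) +
    4 * B (2 * x + 2) * B2 (-(2 * x))

lemma lin1 (x : ℝ) : HasDerivAt (fun x : ℝ => 2 * x + 2) 2 x := by
  simpa using ((hasDerivAt_id x).const_mul 2).add_const 2

lemma lin2 (x : ℝ) : HasDerivAt (fun x : ℝ => -(2 * x)) (-2) x := by
  have h := (hasDerivAt_id x).const_mul (-2 : ℝ)
  have e : (fun x : ℝ => -(2 * x)) = fun y => (-2 : ℝ) * id y := by
    funext y
    simp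
  rw [e]
  exact h.congr_deriv (by norm_num)

lemma bump_deriv (x : ℝ) : HasDerivAt bump (bump1 x) x := by
  have h1 : HasDerivAt (fun x : ℝ => B (2 * x + 2)) (B1 (2 * x + 2) * 2) x :=
    (B_deriv (2 * x + 2)).comp x (lin1 x)
  have h2 : HasDerivAt (fun x : ℝ => B (-(2 * x))) (B1 (-(2 * x)) * (-2)) x :=
    (B_deriv (-(2 * x))).comp x (lin2 x)
  have h := h1.mul h2
  refine h.congr_deriv ?_
  unfold bump1
  ring

lemma bump1_deriv (x : ℝ) : HasDerivAt bump1 (bump2 x) x := by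
  have h1 : HasDerivAt (fun x : ℝ => B (2 * x + 2)) (B1 (2 * x + 2) * 2) x :=
    (B_deriv (2 * x + 2)).comp x (lin1 x)
  have h2 : HasDerivAt (fun x : ℝ => B (-(2 * x))) (B1 (-(2 * x)) * (-2)) x :=
    (B_deriv (-(2 * x))).comp x (lin2 x)
  have h3 : HasDerivAt (fun x : ℝ => B1 (2 * x + 2)) (B2 (2 * x + 2) * 2) x :=
    (B1_deriv (2 * x + 2)).comp x (lin1 x)
  have h4 : HasDerivAt (fun x : ℝ => B1 (-(2 * x))) (B2 (-(2 * x)) * (-2)) x :=
    (B1_deriv (-(2 * x))).comp x (lin2 x)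
  have h := ((h3.const_mul 2).mul h2).sub ((h1.const_mul 2).mul h4)
  refine h.congr_deriv ?_
  unfold bump2
  ring

lemma bump1_abs {b : ℝ} (hb : BdOK b) (x : ℝ) : |bump1 x| ≤ 4 * b := by
  have hb1 := hb.1
  have h1 := (hb.2 (2 * x + 2)).1
  have h2 := (hb.2 (-(2 * x))).1
  have a1 : |B1 (2 * x + 2) * B (-(2 * x))| ≤ b * 1 := by
    rw [abs_mul]
    exact mul_le_mul h1 (by rw [abs_of_nonneg (B_nonneg _)]; exact B_le_one _) (abs_nonneg _)
      (by linarith)
  have a2 : |B (2 * x + 2) * B1 (-(2 * x))| ≤ 1 * b := by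
    rw [abs_mul]
    exact mul_le_mul (by rw [abs_of_nonneg (B_nonneg _)]; exact B_le_one _) h2 (abs_nonneg _)
      (by linarith)
  rw [abs_le] at a1 a2 ⊢
  unfold bump1
  constructor <;> linarith [a1.1, a1.2, a2.1, a2.2]

lemma bump2_abs {b : ℝ} (hb : BdOK b) (x : ℝ) : |bump2 x| ≤ 16 * b ^ 2 := by
  have hb1 := hb.1
  have h1 := (hb.2 (2 * x + 2)).1
  have h2 := (hb.2 (-(2 * x))).1
  have h3 := (hb.2 (2 * x + 2)).2.1
  have h4 := (hb.2 (-(2 * x))).2.1
  have a1 : |B2 (2 * x + 2) * B (-(2 * x))| ≤ b * 1 := by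
    rw [abs_mul]
    exact mul_le_mul h3 (by rw [abs_of_nonneg (B_nonneg _)]; exact B_le_one _) (abs_nonneg _)
      (by linarith)
  have a2 : |B (2 * x + 2) * B2 (-(2 * x))| ≤ 1 * b := by
    rw [abs_mul]
    exact mul_le_mul (by rw [abs_of_nonneg (B_nonneg _)]; exact B_le_one _) h4 (abs_nonneg _)
      (by linarith)
  have a3 : |B1 (2 * x + 2) * B1 (-(2 * x))| ≤ b * b := by
    rw [abs_mul]
    exact mul_le_mul h1 h2 (abs_nonneg _) (by linarith)
  have hbb : b ≤ b ^ 2 := by nlinarith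
  rw [abs_le] at a1 a2 a3 ⊢
  unfold bump2
  constructor <;> nlinarith [a1.1, a1.2, a2.1, a2.2, a3.1, a3.2]

lemma bump1_zero {x : ℝ} (hx : 0 ≤ x) : bump1 x = 0 := by
  unfold bump1
  rw [B_zero (by linarith : -(2 * x) ≤ 0), B1_zero (by linarith : -(2 * x) ≤ 0)]
  ring

lemma bump2_zero {x : ℝ} (hx : 0 ≤ x) : bump2 x = 0 := by
  unfold bump2
  rw [B_zero (by linarith : -(2 * x) ≤ 0), B1_zero (by linarith : -(2 * x) ≤ 0),
    B2_zero (by linarith : -(2 * x) ≤ 0)]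
  ring

variable (p : Par)

def W2 (x : ℝ) : ℝ :=
  bump1 x + p.eta * B1 x - (p.m + p.eta) * (B1 ((x - p.y1) / p.h) * (1 / p.h)) +
    p.m * (B1 ((x - p.y2) / p.a) * (1 / p.a))

def W3 (x : ℝ) : ℝ :=
  bump2 x + p.eta * B2 x - (p.m + p.eta) * (B2 ((x - p.y1) / p.h) * (1 / p.h) * (1 / p.h)) +
    p.m * (B2 ((x - p.y2) / p.a) * (1 / p.a) * (1 / p.a))

lemma lin3 (y h x : ℝ) : HasDerivAt (fun x : ℝ => (x - y) / h) (1 / h) x := by
  simpa using ((hasDerivAt_id x).sub_const y).div_const h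

lemma w1_deriv (x : ℝ) : HasDerivAt p.w1 (W2 p x) x := by
  have h1 := bump_deriv x
  have h2 := (B_deriv x).const_mul p.eta
  have h3 : HasDerivAt (fun x : ℝ => B ((x - p.y1) / p.h)) (B1 ((x - p.y1) / p.h) * (1 / p.h)) x :=
    (B_deriv ((x - p.y1) / p.h)).comp x (lin3 p.y1 p.h x)
  have h4 : HasDerivAt (fun x : ℝ => B ((x - p.y2) / p.a)) (B1 ((x - p.y2) / p.a) * (1 / p.a)) x :=
    (B_deriv ((x - p.y2) / p.a)).comp x (lin3 p.y2 p.a x)
  exact ((h1.add h2).sub (h3.const_mul (p.m + p.eta))).add (h4.const_mul p.m)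

lemma W2_deriv (x : ℝ) : HasDerivAt (W2 p) (W3 p x) x := by
  have h1 := bump1_deriv x
  have h2 := (B1_deriv x).const_mul p.eta
  have h3 : HasDerivAt (fun x : ℝ => B1 ((x - p.y1) / p.h))
      (B2 ((x - p.y1) / p.h) * (1 / p.h)) x :=
    (B1_deriv ((x - p.y1) / p.h)).comp x (lin3 p.y1 p.h x)
  have h4 : HasDerivAt (fun x : ℝ => B1 ((x - p.y2) / p.a))
      (B2 ((x - p.y2) / p.a) * (1 / p.a)) x :=
    (B1_deriv ((x - p.y2) / p.a)).comp x (lin3 p.y2 p.a x)
  exact ((h1.add h2).sub ((h3.mul_const (1 / p.h)).const_mul (p.m + p.eta))).add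
    ((h4.mul_const (1 / p.a)).const_mul p.m)

lemma w2_eq : p.w2 = W2 p := by
  funext x
  exact (w1_deriv p x).deriv

lemma w3_eq : p.w3 = W3 p := by
  funext x
  unfold Par.w3
  rw [w2_eq]
  exact (W2_deriv p x).deriv

theorem main : Pool.Agent.Q279.PM.DerF := by
  intro p b hOK hR
  have hb := hOK.hb
  have hb1 : 1 ≤ b := hb.1
  have hm := hOK.m0
  have hm1 := hOK.m1
  have he := hOK.eta0
  have he1 := hOK.eta1
  have hQB : 0 < p.QB := by linarith [hOK.QB0]
  have hQA : 0 < p.QA := by linarith [hOK.QA0, hOK.QB0]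
  have hh : 0 < p.h := by unfold Par.h; positivity
  have ha : 0 < p.a := by unfold Par.a; positivity
  have hz := hR.hz
  have hzy := hR.hzy
  have hy2 := hR.hy2
  have hL := hR.hL
  have e2 : ∀ x, p.w2 x = W2 p x := fun x => by rw [w2_eq]
  have e3 : ∀ x, p.w3 x = W3 p x := fun x => by rw [w3_eq]
  have argh_neg : ∀ x, x ≤ p.y1 → (x - p.y1) / p.h ≤ 0 := fun x hx =>
    div_nonpos_of_nonpos_of_nonneg (by linarith) hh.le
  have arga_neg : ∀ x, x ≤ p.y2 → (x - p.y2) / p.a ≤ 0 := fun x hx =>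
    div_nonpos_of_nonpos_of_nonneg (by linarith) ha.le
  have argh_one : ∀ x, p.y1 + p.h ≤ x → 1 ≤ (x - p.y1) / p.h := fun x hx => by
    rw [le_div_iff₀ hh]; linarith
  have bB1 : ∀ x, |B1 x| ≤ b := fun x => (hb.2 x).1
  have bB2 : ∀ x, |B2 x| ≤ b := fun x => (hb.2 x).2.1
  -- values on the pieces
  have v2a : ∀ x ≤ 1, W2 p x = bump1 x + p.eta * B1 x := fun x hx => by
    unfold W2
    rw [B1_zero (argh_neg x (by linarith)), B1_zero (arga_neg x (by linarith))]
    ring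
  have v3a : ∀ x ≤ 1, W3 p x = bump2 x + p.eta * B2 x := fun x hx => by
    unfold W3
    rw [B2_zero (argh_neg x (by linarith)), B2_zero (arga_neg x (by linarith))]
    ring
  have v2e : ∀ x, 1 ≤ x → x ≤ p.y2 →
      W2 p x = -((p.m + p.eta) * (B1 ((x - p.y1) / p.h) * (1 / p.h))) := fun x hx hx2 => by
    unfold W2
    rw [bump1_zero (by linarith), B1_one hx, B1_zero (arga_neg x hx2)]
    ring
  have v3e : ∀ x, 1 ≤ x → x ≤ p.y2 →
      W3 p x = -((p.m + p.eta) * (B2 ((x - p.y1) / p.h) * (1 / p.h) * (1 / p.h))) :=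
    fun x hx hx2 => by
      unfold W3
      rw [bump2_zero (by linarith), B2_one hx, B2_zero (arga_neg x hx2)]
      ring
  have v2g : ∀ x, p.y2 ≤ x → W2 p x = p.m * (B1 ((x - p.y2) / p.a) * (1 / p.a)) :=
    fun x hx => by
      unfold W2
      rw [bump1_zero (by linarith), B1_one (by linarith), B1_one (argh_one x (by linarith))]
      ring
  have v3g : ∀ x, p.y2 ≤ x → W3 p x = p.m * (B2 ((x - p.y2) / p.a) * (1 / p.a) * (1 / p.a)) :=
    fun x hx => by
      unfold W3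
      rw [bump2_zero (by linarith), B2_one (by linarith), B2_one (argh_one x (by linarith))]
      ring
  have v2d : ∀ x, 1 ≤ x → x ≤ p.y1 → W2 p x = 0 := fun x hx hx2 => by
    rw [v2e x hx (by linarith), B1_zero (argh_neg x hx2)]; ring
  have v3d : ∀ x, 1 ≤ x → x ≤ p.y1 → W3 p x = 0 := fun x hx hx2 => by
    rw [v3e x hx (by linarith), B2_zero (argh_neg x hx2)]; ring
  have v2f : ∀ x, p.y1 + p.h ≤ x → x ≤ p.y2 → W2 p x = 0 := fun x hx hx2 => by
    rw [v2e x (by linarith) hx2, B1_one (argh_one x hx)]; ring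
  have v3f : ∀ x, p.y1 + p.h ≤ x → x ≤ p.y2 → W3 p x = 0 := fun x hx hx2 => by
    rw [v3e x (by linarith) hx2, B2_one (argh_one x hx)]; ring
  have be : ∀ x, 1 ≤ x → x ≤ p.y2 → |W2 p x| ≤ (p.m + p.eta) * b / p.h := fun x hx hx2 => by
    rw [v2e x hx hx2, abs_neg, abs_mul, abs_mul, abs_of_pos (by linarith : 0 < p.m + p.eta),
      abs_of_pos (by positivity : 0 < 1 / p.h)]
    have := bB1 ((x - p.y1) / p.h)
    calc (p.m + p.eta) * (|B1 ((x - p.y1) / p.h)| * (1 / p.h))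
        ≤ (p.m + p.eta) * (b * (1 / p.h)) := by gcongr
      _ = (p.m + p.eta) * b / p.h := by ring
  have be3 : ∀ x, 1 ≤ x → x ≤ p.y2 → |W3 p x| ≤ (p.m + p.eta) * b / p.h ^ 2 :=
    fun x hx hx2 => by
      rw [v3e x hx hx2, abs_neg, abs_mul, abs_mul, abs_mul,
        abs_of_pos (by linarith : 0 < p.m + p.eta), abs_of_pos (by positivity : 0 < 1 / p.h)]
      have := bB2 ((x - p.y1) / p.h)
      calc (p.m + p.eta) * (|B2 ((x - p.y1) / p.h)| * (1 / p.h) * (1 / p.h))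
          ≤ (p.m + p.eta) * (b * (1 / p.h) * (1 / p.h)) := by gcongr
        _ = (p.m + p.eta) * b / p.h ^ 2 := by ring
  have bg : ∀ x, p.y2 ≤ x → |W2 p x| ≤ p.m * b / p.a := fun x hx => by
    rw [v2g x hx, abs_mul, abs_mul, abs_of_pos hm, abs_of_pos (by positivity : 0 < 1 / p.a)]
    have := bB1 ((x - p.y2) / p.a)
    calc p.m * (|B1 ((x - p.y2) / p.a)| * (1 / p.a))
        ≤ p.m * (b * (1 / p.a)) := by gcongr
      _ = p.m * b / p.a := by ring
  have bg3 : ∀ x, p.y2 ≤ x → |W3 p x| ≤ p.m * b / p.a ^ 2 := fun x hx => by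
    rw [v3g x hx, abs_mul, abs_mul, abs_mul, abs_of_pos hm,
      abs_of_pos (by positivity : 0 < 1 / p.a)]
    have := bB2 ((x - p.y2) / p.a)
    calc p.m * (|B2 ((x - p.y2) / p.a)| * (1 / p.a) * (1 / p.a))
        ≤ p.m * (b * (1 / p.a) * (1 / p.a)) := by gcongr
      _ = p.m * b / p.a ^ 2 := by ring
  have hhe : p.h = p.QA / (2 * p.m) := rfl
  have hae : p.a = p.QB / p.m := rfl
  have wpos : ∀ x, 0 ≤ p.w x := fun x => by linarith [hR.one_le x]
  refine ⟨?_, ?_, ?_, ?_, ?_, ?_, ?_, ?_, ?_⟩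
  · intro x hx
    rw [e2, v2a x hx]
    have h1 := abs_le.1 (bump1_abs hb x)
    have h2 := abs_le.1 (bB1 x)
    rw [abs_le]
    constructor <;> nlinarith [h1.1, h1.2, h2.1, h2.2]
  · intro x hx
    rw [e3, v3a x hx]
    have h1 := abs_le.1 (bump2_abs hb x)
    have h2 := abs_le.1 (bB2 x)
    have hbb : b ≤ b ^ 2 := by nlinarith
    have h3 : |p.eta * B2 x| ≤ b ^ 2 := by
      rw [abs_mul, abs_of_pos he]
      calc p.eta * |B2 x| ≤ 1 * b := mul_le_mul (by linarith) (bB2 x) (abs_nonneg _) one_pos.le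
        _ ≤ b ^ 2 := by linarith
    have h3' := abs_le.1 h3
    rw [abs_le]
    constructor <;> linarith [h1.1, h1.2, h3'.1, h3'.2]
  · intro x hx
    rw [e2]; exact v2d x hx.1 hx.2
  · intro x hx
    rw [e3]; exact v3d x hx.1 hx.2
  · intro x hx
    rw [e2]; exact be x (by linarith [hx.1]) (by linarith [hx.2])
  · intro x hx
    rw [e2]; exact v2f x hx.1 hx.2
  · intro x hx
    rw [e2]; exact bg x hx.1
  · intro x hx
    rw [e2]
    rcases le_total x p.y1 with c1 | c1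
    · rw [v2d x hx c1]; simp only [abs_zero, mul_zero]; positivity
    rcases le_total x (p.y1 + p.h) with c2 | c2
    · have hw := (hR.w_e x ⟨c1, c2⟩).2
      calc p.w x * |W2 p x| ≤ (2 * p.QA) * ((p.m + p.eta) * b / p.h) :=
            mul_le_mul hw (be x hx (by linarith)) (abs_nonneg _) (by positivity)
        _ = 4 * p.m * (p.m + p.eta) * b := by
            rw [hhe]; field_simp; ring
        _ ≤ 4 * p.m * (p.m + p.m / 4) * b := by gcongr
        _ ≤ 8 * b * p.m ^ 2 := by nlinarith [mul_pos (mul_pos hm hm) (by linarith : 0 < b)]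
    rcases le_total x p.y2 with c3 | c3
    · rw [v2f x c2 c3]; simp only [abs_zero, mul_zero]; positivity
    · have hw := (hR.w_g x c3).2
      calc p.w x * |W2 p x| ≤ (2 * p.QB) * (p.m * b / p.a) :=
            mul_le_mul hw (bg x c3) (abs_nonneg _) (by positivity)
        _ = 2 * b * p.m ^ 2 := by
            rw [hae]; field_simp
        _ ≤ 8 * b * p.m ^ 2 := by nlinarith [mul_pos (mul_pos hm hm) (by linarith : 0 < b)]
  · intro x hx
    rw [e3]
    rcases le_total x p.y1 with c1 | c1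
    · rw [v3d x hx c1]; simp only [abs_zero, mul_zero]; positivity
    rcases le_total x (p.y1 + p.h) with c2 | c2
    · have hw := (hR.w_e x ⟨c1, c2⟩).2
      have hw2 : p.w x ^ 2 ≤ (2 * p.QA) ^ 2 := pow_le_pow_left₀ (wpos x) hw 2
      calc p.w x ^ 2 * |W3 p x| ≤ (2 * p.QA) ^ 2 * ((p.m + p.eta) * b / p.h ^ 2) :=
            mul_le_mul hw2 (be3 x hx (by linarith)) (abs_nonneg _) (by positivity)
        _ = 16 * p.m ^ 2 * (p.m + p.eta) * b := by
            rw [hhe]; field_simp; ring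
        _ ≤ 16 * p.m ^ 2 * (p.m + p.m / 4) * b := by gcongr
        _ ≤ 32 * b * p.m ^ 3 := by nlinarith [mul_pos (pow_pos hm 3) (by linarith : 0 < b)]
    rcases le_total x p.y2 with c3 | c3
    · rw [v3f x c2 c3]; simp only [abs_zero, mul_zero]; positivity
    · have hw := (hR.w_g x c3).2
      have hw2 : p.w x ^ 2 ≤ (2 * p.QB) ^ 2 := pow_le_pow_left₀ (wpos x) hw 2
      calc p.w x ^ 2 * |W3 p x| ≤ (2 * p.QB) ^ 2 * (p.m * b / p.a ^ 2) :=
            mul_le_mul hw2 (bg3 x c3) (abs_nonneg _) (by positivity)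
        _ = 4 * b * p.m ^ 3 := by
            rw [hae]; field_simp; ring
        _ ≤ 32 * b * p.m ^ 3 := by nlinarith [mul_pos (pow_pos hm 3) (by linarith : 0 < b)]

end

end Pool.Agent.Q279.PM.JDER
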