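import Pool.Agent.Q279.PM.Stm

/-!
# Job EXPL: the explicit function is a solution
-/

namespace Pool.Agent.Q279.PM.JEXPL

open Set MeasureTheory intervalIntegral

theorem main : Pool.Agent.Q279.PM.Expl := by
  intro p b hOK hR _ hQ
  have hb1 : 1 ≤ b := hOK.hb.1
  have hd1 : 0 < p.d1 := by
    rw [hOK.d10]
    have := hOK.m0
    positivity
  have hw : ∀ x, 0 < p.w x := fun x => lt_of_lt_of_le one_pos (hR.one_le x)
  have hq : ∀ x, 0 < p.q x := fun x => by
    have := hQ.q_lo x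
    have := hw x
    linarith
  have key : ∀ x, -(p.K x * p.q x ^ (p.l1 - 2) * p.w x * (p.q x - p.w x)) / p.d1 = p.w2 x := by
    intro x
    have hth : 0 < p.th x := hQ.th_pos x
    have h1 : p.K x * p.q x ^ (p.l1 - 2) = p.th x / p.w x ^ 2 := by
      unfold Par.K
      have h2 : p.q x ^ (2 - p.l1) * p.q x ^ (p.l1 - 2) = 1 := by
        rw [← Real.rpow_add (hq x)]
        simp
      calc p.q x ^ (2 - p.l1) * p.th x / p.w x ^ 2 * p.q x ^ (p.l1 - 2)
          = (p.q x ^ (2 - p.l1) * p.q x ^ (p.l1 - 2)) * p.th x / p.w x ^ 2 := by ring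
        _ = p.th x / p.w x ^ 2 := by rw [h2, one_mul]
    have h3 : p.q x - p.w x = -(p.w x * (p.d1 * p.w2 x / p.th x)) := by
      unfold Par.q
      ring
    rw [h1, h3]
    have hw' := (hw x).ne'
    have hth' := hth.ne'
    have hd' := hd1.ne'
    field_simp
  refine ⟨fun x _ => hw x, fun x _ => (hR.dw x).hasDerivWithinAt, fun x _ => ?_, ?_, ?_⟩
  · rw [key x]
    exact (hR.dw1 x).hasDerivWithinAt
  · exact hR.w1_a (-3) (by norm_num)
  · exact hR.w1_h p.L le_rfl

end Pool.Agent.Q279.PM.JEXPL
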