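import Pool.Agent.Q279.PM.Stm
import Pool.Agent.Q279.PM.J.Bas298

set_option autoImplicit false

open Set MeasureTheory intervalIntegral Filter Topology
open Pool.Agent.Q279.PM

namespace Pool.Agent.Q279.PM.JFLUX

open Pool.Agent.Q279.PM.JBas298

/-- The slope at `z` is nonnegative. -/
theorem sign {s t : ℝ} {K q q1 : ℝ → ℝ} {lam d : ℝ} {w w1 : ℝ → ℝ} {z : ℝ}
    (hD : Dat s t K q q1) (hd : 0 < d) (hS : Sol s t K q lam d w w1) (hz : z ∈ Icc s t)
    (hl : ∀ x ∈ Icc s z, q x ≤ q z) (hr : ∀ x ∈ Icc z t, q z ≤ q x) : 0 ≤ w1 z := by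
  by_contra hneg
  push Not at hneg
  have hw := w_contOn hS
  have hw1 := w1_contOn hS
  have hρ : ∀ x ∈ Icc s t, 0 < K x * q x ^ (lam - 2) * w x := fun x hx =>
    mul_pos (mul_pos (hD.K_pos x) (Real.rpow_pos_of_pos (hD.q_pos x) _)) (hS.pos x hx)
  rcases le_or_gt (w z) (q z) with hc | hc
  · -- go to the right
    have hsub : Icc z t ⊆ Icc s t := Icc_subset_Icc_left hz.1
    have hcomp : IsCompact (Icc z t ∩ w1 ⁻¹' Ici 0) :=
      isCompact_Icc.of_isClosed_subset
        ((hw1.mono hsub).preimage_isClosed_of_isClosed isClosed_Icc isClosed_Ici) inter_subset_left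
    have hne : (Icc z t ∩ w1 ⁻¹' Ici 0).Nonempty :=
      ⟨t, right_mem_Icc.mpr hz.2, by rw [mem_preimage, mem_Ici, hS.right]⟩
    obtain ⟨y, ⟨⟨hzy, hyt⟩, hy0⟩, hymin⟩ := hcomp.exists_isLeast hne
    rw [mem_preimage, mem_Ici] at hy0
    have hlt : ∀ x ∈ Ico z y, w1 x < 0 := by
      intro x hx
      by_contra hcon
      push Not at hcon
      have := hymin ⟨⟨hx.1, hx.2.le.trans hyt⟩, hcon⟩
      exact absurd hx.2 (not_lt.mpr this)
    have hsub2 : Icc z y ⊆ Icc s t := Icc_subset_Icc hz.1 hyt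
    have hanti : AntitoneOn w (Icc z y) := by
      refine antitoneOn_of_hasDerivWithinAt_nonpos (convex_Icc z y) (hw.mono hsub2) (f' := w1) ?_ ?_
      · intro x hx
        rw [interior_Icc] at hx ⊢
        exact (hS.dw x (hsub2 (Ioo_subset_Icc_self hx))).mono
          (Ioo_subset_Icc_self.trans hsub2)
      · intro x hx
        rw [interior_Icc] at hx
        exact (hlt x ⟨hx.1.le, hx.2⟩).le
    have hanti1 : AntitoneOn w1 (Icc z y) := by
      refine antitoneOn_of_hasDerivWithinAt_nonpos (convex_Icc z y) (hw1.mono hsub2)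
        (f' := fun x => -(K x * q x ^ (lam - 2) * w x * (q x - w x)) / d) ?_ ?_
      · intro x hx
        rw [interior_Icc] at hx ⊢
        exact (hS.dw1 x (hsub2 (Ioo_subset_Icc_self hx))).mono
          (Ioo_subset_Icc_self.trans hsub2)
      · intro x hx
        rw [interior_Icc] at hx
        have hxI : x ∈ Icc z y := Ioo_subset_Icc_self hx
        have h1 : w x ≤ w z := hanti (left_mem_Icc.mpr hzy) hxI hxI.1
        have h2 : q z ≤ q x := hr x ⟨hxI.1, hxI.2.trans hyt⟩
        have h3 : 0 ≤ K x * q x ^ (lam - 2) * w x * (q x - w x) :=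
          mul_nonneg (hρ x (hsub2 hxI)).le (by linarith)
        exact div_nonpos_of_nonpos_of_nonneg (by linarith) hd.le
    have h4 : w1 y ≤ w1 z := hanti1 (left_mem_Icc.mpr hzy) (right_mem_Icc.mpr hzy) hzy
    linarith
  · have hsub : Icc s z ⊆ Icc s t := Icc_subset_Icc_right hz.2
    have hcomp : IsCompact (Icc s z ∩ w1 ⁻¹' Ici 0) :=
      isCompact_Icc.of_isClosed_subset
        ((hw1.mono hsub).preimage_isClosed_of_isClosed isClosed_Icc isClosed_Ici) inter_subset_left
    have hne : (Icc s z ∩ w1 ⁻¹' Ici 0).Nonempty :=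
      ⟨s, left_mem_Icc.mpr hz.1, by rw [mem_preimage, mem_Ici, hS.left]⟩
    obtain ⟨y, ⟨⟨hsy, hyz⟩, hy0⟩, hymax⟩ := hcomp.exists_isGreatest hne
    rw [mem_preimage, mem_Ici] at hy0
    have hlt : ∀ x ∈ Ioc y z, w1 x < 0 := by
      intro x hx
      by_contra hcon
      push Not at hcon
      have := hymax ⟨⟨hsy.trans hx.1.le, hx.2⟩, hcon⟩
      exact absurd hx.1 (not_lt.mpr this)
    have hsub2 : Icc y z ⊆ Icc s t := Icc_subset_Icc hsy hz.2
    have hanti : AntitoneOn w (Icc y z) := by
      refine antitoneOn_of_hasDerivWithinAt_nonpos (convex_Icc y z) (hw.mono hsub2) (f' := w1) ?_ ?_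
      · intro x hx
        rw [interior_Icc] at hx ⊢
        exact (hS.dw x (hsub2 (Ioo_subset_Icc_self hx))).mono
          (Ioo_subset_Icc_self.trans hsub2)
      · intro x hx
        rw [interior_Icc] at hx
        exact (hlt x ⟨hx.1, hx.2.le⟩).le
    have hmono1 : MonotoneOn w1 (Icc y z) := by
      refine monotoneOn_of_hasDerivWithinAt_nonneg (convex_Icc y z) (hw1.mono hsub2)
        (f' := fun x => -(K x * q x ^ (lam - 2) * w x * (q x - w x)) / d) ?_ ?_
      · intro x hx
        rw [interior_Icc] at hx ⊢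
        exact (hS.dw1 x (hsub2 (Ioo_subset_Icc_self hx))).mono
          (Ioo_subset_Icc_self.trans hsub2)
      · intro x hx
        rw [interior_Icc] at hx
        have hxI : x ∈ Icc y z := Ioo_subset_Icc_self hx
        have h1 : w z ≤ w x := hanti hxI (right_mem_Icc.mpr hyz) hxI.2
        have h2 : q x ≤ q z := hl x ⟨hsy.trans hxI.1, hxI.2⟩
        have h3 : 0 ≤ K x * q x ^ (lam - 2) * w x * (w x - q x) :=
          mul_nonneg (hρ x (hsub2 hxI)).le (by linarith)
        refine div_nonneg ?_ hd.le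
        linarith
    have h4 : w1 y ≤ w1 z := hmono1 (left_mem_Icc.mpr hyz) (right_mem_Icc.mpr hyz) hyz
    linarith

theorem main : Pool.Agent.Q279.PM.Flux := by
  intro s t K q q1 lam d w w1 z hD hd hS hz hl hr
  have hw1 := w1_contOn hS
  have hcont := Kq_cont hD lam
  have hint : ∀ a b : ℝ, IntervalIntegrable (fun y => K y * q y ^ lam) volume a b := fun a b =>
    hcont.intervalIntegrable a b
  have hnn : ∀ y, 0 ≤ K y * q y ^ lam := fun y =>
    (mul_pos (hD.K_pos y) (Real.rpow_pos_of_pos (hD.q_pos y) _)).le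
  have hI : ∀ a b : ℝ, a ≤ b → 0 ≤ ∫ y in a..b, K y * q y ^ lam := fun a b hab =>
    intervalIntegral.integral_nonneg hab fun y _ => hnn y
  have hadd : ∀ a b c : ℝ, (∫ y in a..b, K y * q y ^ lam) + (∫ y in b..c, K y * q y ^ lam)
      = ∫ y in a..c, K y * q y ^ lam := fun a b c =>
    intervalIntegral.integral_add_adjacent_intervals (hint a b) (hint b c)
  have hmono : MonotoneOn (fun x => d * w1 x + 1 / 4 * ∫ y in s..x, K y * q y ^ lam)
      (Icc s t) := by
    refine monotoneOn_of_hasDerivWithinAt_nonneg (convex_Icc s t) ?_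
      (f' := fun x => d * (-(K x * q x ^ (lam - 2) * w x * (q x - w x)) / d)
        + 1 / 4 * (K x * q x ^ lam)) ?_ ?_
    · refine (continuousOn_const.mul hw1).add (continuousOn_const.mul ?_)
      exact (continuous_iff_continuousAt.mpr fun x =>
        (hcont.integral_hasStrictDerivAt s x).hasDerivAt.continuousAt).continuousOn
    · intro x hx
      rw [interior_Icc] at hx ⊢
      refine (((hS.dw1 x (Ioo_subset_Icc_self hx)).mono Ioo_subset_Icc_self).const_mul d).add ?_
      exact ((hcont.integral_hasStrictDerivAt s x).hasDerivAt.hasDerivWithinAt).const_mul _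
    · intro x hx
      have hK := hD.K_pos x
      have hq := Real.rpow_pos_of_pos (hD.q_pos x) (lam - 2)
      have e1 : d * (-(K x * q x ^ (lam - 2) * w x * (q x - w x)) / d) + 1 / 4 * (K x * q x ^ lam)
          = K x * q x ^ (lam - 2) * (q x / 2 - w x) ^ 2 := by
        rw [qpow_two hD lam x, mul_div_cancel₀ _ hd.ne']
        ring
      rw [e1]
      positivity
  have hs : s ∈ Icc s t := left_mem_Icc.mpr hD.lt.le
  have ht : t ∈ Icc s t := right_mem_Icc.mpr hD.lt.le
  have h0 := sign hD hd hS hz hl hr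
  constructor
  · intro x hx
    have hxI : x ∈ Icc s t := ⟨hz.1.trans hx.1, hx.2⟩
    have h1 := hmono hxI ht hx.2
    have h2 := hmono hz hxI hx.1
    simp only [hS.right, mul_zero, zero_add] at h1
    have h3 := hadd s x t
    have h4 := hadd s z x
    have h5 := hadd z x t
    have h6 := hI z x hx.1
    have h7 := hI x t hx.2
    have h8 : d * |w1 x| = |d * w1 x| := by rw [abs_mul, abs_of_pos hd]
    have h9 : 0 ≤ d * w1 z := mul_nonneg hd.le h0
    have h2' : d * w1 z + 1 / 4 * ∫ y in s..z, K y * q y ^ lam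
        ≤ d * w1 x + 1 / 4 * ∫ y in s..x, K y * q y ^ lam := h2
    rw [h8, abs_le]
    constructor <;> linarith
  · intro x hx
    have h1 := hmono hx ht hx.2
    have h2 := hmono hs hx hx.1
    simp only [hS.right, hS.left, mul_zero, zero_add, intervalIntegral.integral_same] at h1 h2
    have h3 := hadd s x t
    have h6 := hI s x hx.1
    have h7 := hI x t hx.2
    have h8 : d * |w1 x| = |d * w1 x| := by rw [abs_mul, abs_of_pos hd]
    rw [h8, abs_le]
    constructor <;> linarith

end Pool.Agent.Q279.PM.JFLUX
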