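import Pool.Agent.Q279.PM.Stm

/-!
# Project PM, job PM-GAIN: the total population of the explicit solution
-/

set_option autoImplicit false

namespace Pool.Agent.Q279.PM.JGAIN

open Set MeasureTheory intervalIntegral Pool.Agent.Q279.PM

/-- a power with a small exponent is close to one -/
theorem rpow_near {c l : ℝ} (h1 : 1 / 4 ≤ c) (h2 : c ≤ 4) (hl0 : 0 < l) (hl : l ≤ 1 / 2) :
    |c ^ (-l) - 1| ≤ 5 * l := by
  have hc : 0 < c := by linarith
  have h4 : Real.log 4 ≤ 2 := by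
    have h := Real.log_two_lt_d9
    have e : Real.log 4 = 2 * Real.log 2 := by
      rw [show (4 : ℝ) = 2 ^ 2 by norm_num, Real.log_pow]
      norm_num
    rw [e]
    linarith
  have hlog : |Real.log c| ≤ 2 := by
    rw [abs_le]
    constructor
    · have h := Real.log_le_log (by norm_num : (0 : ℝ) < 1 / 4) h1
      rw [one_div, Real.log_inv] at h
      linarith
    · exact (Real.log_le_log hc h2).trans h4
  have e : c ^ (-l) = Real.exp (-(l * Real.log c)) := by
    rw [Real.rpow_def_of_pos hc]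
    congr 1
    ring
  have hab : |-(l * Real.log c)| ≤ l * 2 := by
    rw [abs_neg, abs_mul, abs_of_pos hl0]
    exact mul_le_mul_of_nonneg_left hlog hl0.le
  rw [e]
  refine (Real.abs_exp_sub_one_le (hab.trans (by linarith))).trans ?_
  linarith

section
variable {p : Par} {b : ℝ}

/-- the integrand -/
theorem integrand (hQ : p.Qf b) (hR : p.Reg) (x : ℝ) :
    p.K x / p.q x * p.w x - p.K x =
      p.d1 * (p.w2 x * p.q x ^ (-p.l1) * (1 - p.d1 * p.w2 x / p.th x)) := by
  have hw : 0 < p.w x := lt_of_lt_of_le one_pos (hR.one_le x)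
  have hth := hQ.th_pos x
  have hq0 : 0 < p.q x := lt_of_lt_of_le (by positivity) (hQ.q_lo x)
  have hq : p.q x = p.w x * (1 - p.d1 * p.w2 x / p.th x) := rfl
  have hr : 1 - p.d1 * p.w2 x / p.th x = p.q x / p.w x := by
    rw [hq, mul_div_cancel_left₀ _ hw.ne']
  have hK : p.K x = p.q x ^ (-p.l1) * p.q x ^ 2 * p.th x / (p.w x) ^ 2 := by
    unfold Par.K
    have e : p.q x ^ (2 - p.l1) = p.q x ^ (-p.l1) * p.q x ^ 2 := by
      rw [show (2 : ℝ) - p.l1 = -p.l1 + 2 by ring, Real.rpow_add hq0]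
      norm_num
    rw [e]
  have hwq : p.w x - p.q x = p.w x * (p.d1 * p.w2 x / p.th x) := by
    rw [hq]; ring
  have h1 : p.K x / p.q x * p.w x - p.K x = p.K x / p.q x * (p.w x - p.q x) := by
    field_simp
  rw [h1, hwq, hr, hK]
  field_simp

theorem cont_w2 (hR : p.Reg) : Continuous p.w2 := by
  have : ContDiff ℝ 1 p.w1 := hR.smooth.of_le (by simp)
  exact this.continuous_deriv (by simp)

theorem cont_w (hR : p.Reg) : Continuous p.w :=
  continuous_iff_continuousAt.2 fun x => (hR.dw x).continuousAt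

theorem cont_G (hQ : p.Qf b) (hR : p.Reg) :
    Continuous (fun x => p.K x / p.q x * p.w x - p.K x) := by
  have hq : ∀ x, p.q x ≠ 0 := fun x => by
    have := hQ.q_lo x
    have := hR.one_le x
    intro h
    linarith
  exact ((hQ.K_s.continuous.div hQ.q_s.continuous hq).mul (cont_w hR)).sub hQ.K_s.continuous

theorem piece (hQ : p.Qf b) (hR : p.Reg) (hd : 0 < p.d1) {s t κ δ W ρ Cq : ℝ} (hst : s ≤ t)
    (h1 : ∀ x ∈ Icc s t, |p.q x ^ (-p.l1) - κ| ≤ δ)
    (h2 : ∀ x ∈ Icc s t, |p.w2 x| ≤ W)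
    (h3 : ∀ x ∈ Icc s t, |p.d1 * p.w2 x / p.th x| ≤ ρ)
    (h4 : ∀ x ∈ Icc s t, p.q x ^ (-p.l1) ≤ Cq) :
    p.d1 * (κ * (p.w1 t - p.w1 s) - (δ + ρ * Cq) * W * (t - s)) ≤
      ∫ x in s..t, (p.K x / p.q x * p.w x - p.K x) := by
  have hw2c := cont_w2 hR
  have hI : ∫ x in s..t, p.w2 x = p.w1 t - p.w1 s :=
    integral_eq_sub_of_hasDerivAt (fun x _ => hR.dw1 x) (hw2c.intervalIntegrable _ _)
  have hL : ∫ x in s..t, p.d1 * (κ * p.w2 x - (δ + ρ * Cq) * W) =
      p.d1 * (κ * (p.w1 t - p.w1 s) - (δ + ρ * Cq) * W * (t - s)) := by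
    have i1 : IntervalIntegrable (fun x => κ * p.w2 x) volume s t :=
      (continuous_const.mul hw2c).intervalIntegrable _ _
    have i2 : IntervalIntegrable (fun _ : ℝ => (δ + ρ * Cq) * W) volume s t :=
      continuous_const.intervalIntegrable _ _
    rw [intervalIntegral.integral_const_mul, intervalIntegral.integral_sub i1 i2,
      intervalIntegral.integral_const_mul, hI, intervalIntegral.integral_const, smul_eq_mul]
    ring
  rw [← hL]
  refine integral_mono_on hst ?_ ((cont_G hQ hR).intervalIntegrable _ _) ?_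
  · exact (continuous_const.mul ((continuous_const.mul hw2c).sub
      continuous_const)).intervalIntegrable _ _
  · intro x hx
    rw [integrand hQ hR]
    refine mul_le_mul_of_nonneg_left ?_ hd.le
    have hq0 : 0 < p.q x := lt_of_lt_of_le (by
      have := hR.one_le x
      linarith) (hQ.q_lo x)
    have hQp : 0 ≤ p.q x ^ (-p.l1) := Real.rpow_nonneg hq0.le _
    have a1 := h1 x hx
    have a2 := h2 x hx
    have a3 := h3 x hx
    have a4 := h4 x hx
    set Qx := p.q x ^ (-p.l1) with hQx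
    set r := p.d1 * p.w2 x / p.th x with hr
    have b1 : |p.w2 x * (Qx - κ)| ≤ W * δ := by
      rw [abs_mul]
      exact mul_le_mul a2 a1 (abs_nonneg _) ((abs_nonneg _).trans a2)
    have b2 : |p.w2 x * (r * Qx)| ≤ W * (ρ * Cq) := by
      rw [abs_mul, abs_mul, abs_of_nonneg hQp]
      refine mul_le_mul a2 ?_ (by positivity) ((abs_nonneg _).trans a2)
      exact mul_le_mul a3 a4 hQp ((abs_nonneg _).trans a3)
    have c1 := (abs_le.1 b1).1
    have c2 := (abs_le.1 b2).2
    nlinarith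

/-- JOB PM-GAIN. -/
theorem main : Pool.Agent.Q279.PM.Gain := by
  intro p b hO hR hD hQ hQB hQA hl
  have hb1 : 1 ≤ b := hO.hb.1
  have hb0 : 0 < b := by linarith
  have hm0 := hO.m0
  have hm1 := hO.m1
  have heta0 := hO.eta0
  have heta1 := hO.eta1
  have hQB0 : 0 < p.QB := by linarith [hO.QB0]
  have hQA0 : 0 < p.QA := by linarith [hO.QB0, hO.QA0]
  have hd : 0 < p.d1 := by rw [hO.d10]; positivity
  have hl0 := hO.l10
  have hlb : p.l1 * b ≤ p.m / 1600 := by linarith
  have hll : p.l1 ≤ p.l1 * b := by nlinarith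
  have hl2 : p.l1 ≤ 1 / 6400 := by linarith
  have hlh : p.l1 ≤ 1 / 2 := by linarith
  have hh0 : 0 < p.h := by unfold Par.h; positivity
  have ha0 : 0 < p.a := by unfold Par.a; positivity
  have hy1 : (1 : ℝ) ≤ p.y1 := by linarith [hR.hz, hR.hzy]
  have hLa : p.L = p.y2 + p.a := rfl
  -- the size of e1
  have he0 : 0 ≤ p.e1 b := by
    have h := hQ.rat2 1 le_rfl
    have := (abs_nonneg _).trans h
    linarith
  have he1 : b * p.e1 b ≤ 1 / 64 := by linarith [hO.e10]
  -- first piece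
  have hA := piece hQ hR hd (s := -3) (t := 1) (κ := 1) (δ := 5 * p.l1) (W := 5 * b)
    (ρ := 5 * b * p.d1) (Cq := 2) (by norm_num)
    (fun x hx => by
      have h1 := hQ.q_lo x
      have h2 := hQ.q_hi x
      have h3 := hR.one_le x
      have h4 := hR.w_b x hx.2
      exact rpow_near (by linarith) (by linarith) hl0 hlh)
    (fun x hx => hD.w2_a x hx.2)
    (fun x hx => by
      rw [hQ.th_a x hx.2, div_one, abs_mul, abs_of_pos hd]
      have := mul_le_mul_of_nonneg_left (hD.w2_a x hx.2) hd.le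
      linarith)
    (fun x hx => by
      have h1 := hQ.q_lo x
      have h2 := hQ.q_hi x
      have h3 := hR.one_le x
      have h4 := hR.w_b x hx.2
      have h5 := (abs_le.1 (rpow_near (c := p.q x) (by linarith) (by linarith) hl0 hlh)).2
      linarith)
  -- third piece
  have hQc : ∀ {S κ : ℝ}, 0 < S → S ^ (-p.l1) = κ → 0 ≤ κ → ∀ x, 1 / 4 * S ≤ p.q x →
      p.q x ≤ 4 * S → |p.q x ^ (-p.l1) - κ| ≤ κ * (5 * p.l1) := by
    intro S κ hS hSκ hκ x hx1 hx2
    have h1 := rpow_near (c := p.q x / S) (by rw [le_div_iff₀ hS]; exact hx1)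
      (by rw [div_le_iff₀ hS]; exact hx2) hl0 hlh
    have hq0 : 0 < p.q x := lt_of_lt_of_le (by positivity) hx1
    have h2 : p.q x ^ (-p.l1) = κ * (p.q x / S) ^ (-p.l1) := by
      rw [← hSκ, ← Real.mul_rpow hS.le (by positivity), mul_div_cancel₀ _ hS.ne']
    rw [h2, show κ * (p.q x / S) ^ (-p.l1) - κ = κ * ((p.q x / S) ^ (-p.l1) - 1) by ring,
      abs_mul, abs_of_nonneg hκ]
    exact mul_le_mul_of_nonneg_left h1 hκ
  have hq1 : ∀ x, 2 ≤ p.q x → p.q x ^ (-p.l1) ≤ 1 := fun x hx =>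
    Real.rpow_le_one_of_one_le_of_nonpos (by linarith) (by linarith)
  have hC := piece hQ hR hd (s := p.y1) (t := p.y1 + p.h) (κ := 1 / 4)
    (δ := 1 / 4 * (5 * p.l1)) (W := (p.m + p.eta) * b / p.h)
    (ρ := p.e1 b / 8) (Cq := 1) (by linarith)
    (fun x hx => by
      have h1 := hQ.q_lo x
      have h2 := hQ.q_hi x
      obtain ⟨h3, h4⟩ := hR.w_e x hx
      exact hQc hQA0 hQA (by norm_num) x (by linarith) (by linarith))
    (fun x hx => hD.w2_e x hx)
    (fun x hx => hQ.rat2 x (hy1.trans hx.1))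
    (fun x hx => by
      have h1 := hQ.q_lo x
      obtain ⟨h3, h4⟩ := hR.w_e x hx
      refine hq1 x ?_
      linarith [hO.QB0, hO.QA0])
  have hE := piece hQ hR hd (s := p.y2) (t := p.L) (κ := 1 / 2)
    (δ := 1 / 2 * (5 * p.l1)) (W := p.m * b / p.a)
    (ρ := p.e1 b / 8) (Cq := 1) hR.hL.le
    (fun x hx => by
      have h1 := hQ.q_lo x
      have h2 := hQ.q_hi x
      obtain ⟨h3, h4⟩ := hR.w_g x hx.1
      exact hQc hQB0 hQB (by norm_num) x (by linarith) (by linarith))
    (fun x hx => hD.w2_g x hx)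
    (fun x hx => hQ.rat2 x (by linarith [hx.1, hR.hy, hR.hy2]))
    (fun x hx => by
      have h1 := hQ.q_lo x
      obtain ⟨h3, h4⟩ := hR.w_g x hx.1
      refine hq1 x ?_
      linarith [hO.QB0])
  -- the pieces without curvature
  have hzero : ∀ {s t : ℝ}, s ≤ t → (∀ x ∈ Icc s t, p.w2 x = 0) →
      ∫ x in s..t, (p.K x / p.q x * p.w x - p.K x) = 0 := by
    intro s t hst h
    rw [intervalIntegral.integral_congr (g := fun _ => (0 : ℝ))]
    · simp
    · intro x hx
      rw [uIcc_of_le hst] at hx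
      simp only []
      rw [integrand hQ hR, h x hx]
      ring
  have hB := hzero hy1 hD.w2_d
  have hD' := hzero hR.hy2.le hD.w2_f
  -- the values of the slope
  have v1 : p.w1 1 = p.eta := hR.w1_d 1 ⟨le_rfl, hy1⟩
  have v2 : p.w1 (-3) = 0 := hR.w1_a (-3) (by norm_num)
  have v3 : p.w1 p.y1 = p.eta := hR.w1_d p.y1 ⟨hy1, le_rfl⟩
  have v4 : p.w1 (p.y1 + p.h) = -p.m := hR.w1_f _ ⟨le_rfl, hR.hy2.le⟩
  have v5 : p.w1 p.y2 = -p.m := hR.w1_f _ ⟨hR.hy2.le, le_rfl⟩
  have v6 : p.w1 p.L = 0 := hR.w1_h _ le_rfl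
  rw [v1, v2] at hA
  rw [v3, v4] at hC
  rw [v5, v6] at hE
  -- the total
  have hcG := cont_G hQ hR
  have hK : IntervalIntegrable p.K volume (-3) p.L := hQ.K_s.continuous.intervalIntegrable _ _
  have hKw : IntervalIntegrable (fun x => p.K x / p.q x * p.w x) volume (-3) p.L := by
    have h1 := hcG.add hQ.K_s.continuous
    have h2 : (fun x => p.K x / p.q x * p.w x - p.K x + p.K x) =
        fun x => p.K x / p.q x * p.w x := by
      funext x; ring
    have h3 : Continuous (fun x => p.K x / p.q x * p.w x) := by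
      rw [← h2]; exact h1
    exact h3.intervalIntegrable _ _
  rw [← intervalIntegral.integral_sub hKw hK]
  have hsplit : ∫ x in (-3 : ℝ)..p.L, (p.K x / p.q x * p.w x - p.K x) =
      (∫ x in (-3 : ℝ)..1, (p.K x / p.q x * p.w x - p.K x)) +
      (∫ x in (1 : ℝ)..p.y1, (p.K x / p.q x * p.w x - p.K x)) +
      (∫ x in (p.y1)..(p.y1 + p.h), (p.K x / p.q x * p.w x - p.K x)) +
      (∫ x in (p.y1 + p.h)..p.y2, (p.K x / p.q x * p.w x - p.K x)) +
      (∫ x in (p.y2)..p.L, (p.K x / p.q x * p.w x - p.K x)) := by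
    rw [integral_add_adjacent_intervals (hcG.intervalIntegrable _ _) (hcG.intervalIntegrable _ _),
      integral_add_adjacent_intervals (hcG.intervalIntegrable _ _) (hcG.intervalIntegrable _ _),
      integral_add_adjacent_intervals (hcG.intervalIntegrable _ _) (hcG.intervalIntegrable _ _),
      integral_add_adjacent_intervals (hcG.intervalIntegrable _ _) (hcG.intervalIntegrable _ _)]
  rw [hsplit, hB, hD']
  have w1 : (p.m + p.eta) * b / p.h * (p.y1 + p.h - p.y1) = (p.m + p.eta) * b := by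
    rw [show p.y1 + p.h - p.y1 = p.h by ring, div_mul_cancel₀ _ hh0.ne']
  have w2 : p.m * b / p.a * (p.L - p.y2) = p.m * b := by
    rw [hLa, show p.y2 + p.a - p.y2 = p.a by ring, div_mul_cancel₀ _ ha0.ne']
  rw [mul_assoc, w1] at hC
  rw [mul_assoc, w2] at hE
  have hd2 : b ^ 2 * p.d1 = p.m / 6400 := by
    rw [hO.d10]
    field_simp
  have t1 : p.d1 * (p.m / 8) ≤ p.d1 * (1 * (p.eta - 0) - (5 * p.l1 + 5 * b * p.d1 * 2) * (5 * b) *
      (1 - -3)) + p.d1 * (1 / 4 * (-p.m - p.eta) - (1 / 4 * (5 * p.l1) + p.e1 b / 8 * 1) *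
      ((p.m + p.eta) * b)) + p.d1 * (1 / 2 * (0 - -p.m) - (1 / 2 * (5 * p.l1) +
      p.e1 b / 8 * 1) * (p.m * b)) := by
    rw [← mul_add, ← mul_add]
    refine mul_le_mul_of_nonneg_left ?_ hd.le
    have q1 : (5 * p.l1 + 5 * b * p.d1 * 2) * (5 * b) * (1 - -3) =
        100 * (p.l1 * b) + 200 * (b ^ 2 * p.d1) := by ring
    have q2 : (1 / 4 * (5 * p.l1) + p.e1 b / 8 * 1) * ((p.m + p.eta) * b) =
        (5 / 4 * (p.l1 * b) + 1 / 8 * (b * p.e1 b)) * (p.m + p.eta) := by ring
    have q3 : (1 / 2 * (5 * p.l1) + p.e1 b / 8 * 1) * (p.m * b) =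
        (5 / 2 * (p.l1 * b) + 1 / 8 * (b * p.e1 b)) * p.m := by ring
    rw [q1, q2, q3, hd2]
    have q4 : (5 / 4 * (p.l1 * b) + 1 / 8 * (b * p.e1 b)) * (p.m + p.eta) ≤
        1 / 100 * (2 * p.m) := by
      refine mul_le_mul ?_ (by linarith) (by linarith) (by norm_num)
      linarith
    have q5 : (5 / 2 * (p.l1 * b) + 1 / 8 * (b * p.e1 b)) * p.m ≤ 1 / 100 * p.m := by
      refine mul_le_mul_of_nonneg_right ?_ hm0.le
      linarith
    linarith
  have t2 : 0 ≤ p.d1 * p.m := by positivity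
  linarith

end

end Pool.Agent.Q279.PM.JGAIN
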