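import Pool.Agent.Q279.PM.Stm
import Pool.Agent.Q279.PM.J.Bas298

set_option autoImplicit false

open Set MeasureTheory intervalIntegral Filter Topology
open Pool.Agent.Q279.PM

namespace Pool.Agent.Q279.PM.JIDENT

open Pool.Agent.Q279.PM.JBas298

/-- Integration by parts against a power of `q`. -/
theorem parts {s t : ℝ} {K q q1 : ℝ → ℝ} {lam d : ℝ} {w w1 : ℝ → ℝ}
    (hD : Dat s t K q q1) (hS : Sol s t K q lam d w w1) :
    ∫ x in s..t, (-(K x * q x ^ (lam - 2) * w x * (q x - w x)) / d) * q x ^ (-lam)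
      = lam * ∫ x in s..t, w1 x * q1 x * q x ^ (-lam - 1) := by
  have hst := hD.lt.le
  have hw := w_contOn hS
  have hw1 := w1_contOn hS
  have hqc : ∀ a : ℝ, ContinuousOn (fun y => q y ^ a) (Icc s t) := fun a =>
    (qpow_cont hD a).continuousOn
  have hW : ContinuousOn (fun x => -(K x * q x ^ (lam - 2) * w x * (q x - w x)) / d) (Icc s t) :=
    ((((hD.K_cont.continuousOn.mul (hqc _)).mul hw).mul
      ((q_cont hD).continuousOn.sub hw)).neg).div_const d
  have hf1 : ContinuousOn (fun x => (-(K x * q x ^ (lam - 2) * w x * (q x - w x)) / d)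
      * q x ^ (-lam)) (Icc s t) := hW.mul (hqc _)
  have hf2 : ContinuousOn (fun x => w1 x * q1 x * q x ^ (-lam - 1)) (Icc s t) :=
    (hw1.mul hD.q1_cont.continuousOn).mul (hqc _)
  have hder : ∀ x ∈ Ioo s t, HasDerivAt (fun x => w1 x * q x ^ (-lam))
      ((-(K x * q x ^ (lam - 2) * w x * (q x - w x)) / d) * q x ^ (-lam)
        - lam * (w1 x * q1 x * q x ^ (-lam - 1))) x := by
    intro x hx
    have h1 : HasDerivAt w1 (-(K x * q x ^ (lam - 2) * w x * (q x - w x)) / d) x :=
      (hS.dw1 x (Ioo_subset_Icc_self hx)).hasDerivAt (Icc_mem_nhds hx.1 hx.2)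
    have h2 : HasDerivAt (fun y => q y ^ (-lam)) (q1 x * (-lam) * q x ^ (-lam - 1)) x :=
      (hD.dq x).rpow_const (Or.inl (hD.q_pos x).ne')
    refine (h1.mul h2).congr_deriv ?_
    ring
  have hf3 : ContinuousOn (fun x => lam * (w1 x * q1 x * q x ^ (-lam - 1))) (Icc s t) :=
    continuousOn_const.mul hf2
  have hftc := intervalIntegral.integral_eq_sub_of_hasDerivAt_of_le hst
    (f := fun x => w1 x * q x ^ (-lam)) (hw1.mul (hqc _)) hder
    ((hf1.sub hf3).intervalIntegrable_of_Icc hst)
  rw [intervalIntegral.integral_sub (hf1.intervalIntegrable_of_Icc hst)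
    (hf3.intervalIntegrable_of_Icc hst),
    intervalIntegral.integral_const_mul] at hftc
  simp only [hS.left, hS.right, zero_mul, sub_zero] at hftc
  linarith

theorem main : Pool.Agent.Q279.PM.Ident := by
  intro s t K q q1 lam d w w1 hD hd hS
  have hst := hD.lt.le
  have hw := w_contOn hS
  have hw1 := w1_contOn hS
  have hK : ContinuousOn K (Icc s t) := hD.K_cont.continuousOn
  have hq : ContinuousOn q (Icc s t) := (q_cont hD).continuousOn
  have hqne : ∀ x ∈ Icc s t, q x ≠ 0 := fun x _ => (hD.q_pos x).ne'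
  have hqc : ∀ a : ℝ, ContinuousOn (fun y => q y ^ a) (Icc s t) := fun a =>
    (qpow_cont hD a).continuousOn
  have hA : ContinuousOn (fun x => K x / q x * w x) (Icc s t) := (hK.div hq hqne).mul hw
  have hC : ContinuousOn (fun x => K x * (1 - w x / q x) ^ 2) (Icc s t) :=
    hK.mul ((continuousOn_const.sub (hw.div hq hqne)).pow 2)
  have hW : ContinuousOn (fun x => -(K x * q x ^ (lam - 2) * w x * (q x - w x)) / d) (Icc s t) :=
    ((((hK.mul (hqc _)).mul hw).mul (hq.sub hw)).neg).div_const d
  have hf1 : ContinuousOn (fun x => (-(K x * q x ^ (lam - 2) * w x * (q x - w x)) / d)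
      * q x ^ (-lam)) (Icc s t) := hW.mul (hqc _)
  have hp := parts hD hS
  have hpt : ∀ x ∈ Icc s t, K x / q x * w x - K x + K x * (1 - w x / q x) ^ 2
      = d * ((-(K x * q x ^ (lam - 2) * w x * (q x - w x)) / d) * q x ^ (-lam)) := by
    intro x hx
    have hqx := hD.q_pos x
    have e1 : q x ^ (lam - 2) * q x ^ (-lam) = (q x ^ 2)⁻¹ := by
      rw [← Real.rpow_add hqx, show lam - 2 + -lam = -(2 : ℝ) by ring, Real.rpow_neg hqx.le]
      norm_num
    have e2 : d * ((-(K x * q x ^ (lam - 2) * w x * (q x - w x)) / d) * q x ^ (-lam))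
        = -(K x * w x * (q x - w x)) * (q x ^ (lam - 2) * q x ^ (-lam)) := by
      field_simp
    rw [e2, e1]
    field_simp
    ring
  have h1 : ∫ x in s..t, (K x / q x * w x - K x + K x * (1 - w x / q x) ^ 2)
      = d * ∫ x in s..t, (-(K x * q x ^ (lam - 2) * w x * (q x - w x)) / d) * q x ^ (-lam) := by
    rw [← intervalIntegral.integral_const_mul]
    refine intervalIntegral.integral_congr fun x hx => ?_
    rw [uIcc_of_le hst] at hx
    exact hpt x hx
  have hAK : ContinuousOn (fun x => K x / q x * w x - K x) (Icc s t) := hA.sub hK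
  rw [intervalIntegral.integral_add (hAK.intervalIntegrable_of_Icc hst)
    (hC.intervalIntegrable_of_Icc hst), intervalIntegral.integral_sub
    (hA.intervalIntegrable_of_Icc hst) (hK.intervalIntegrable_of_Icc hst), hp] at h1
  linarith

end Pool.Agent.Q279.PM.JIDENT
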