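import Pool.Agent.Q279.PM.Stm

/-!
# Job PM-MASS: the mass of `K q^l2`
-/

set_option autoImplicit false

namespace Pool.Agent.Q279.PM.JMASS

open Set MeasureTheory intervalIntegral Pool.Agent.Q279.PM

section
variable {p : Par} {b l : ℝ}

theorem w_pos (hR : p.Reg) (x : ℝ) : 0 < p.w x := by
  have := hR.one_le x
  linarith

theorem q_pos (hR : p.Reg) (hQ : p.Qf b) (x : ℝ) : 0 < p.q x := by
  have h1 := hQ.q_lo x
  have h2 := w_pos hR x
  linarith

theorem w_cont (hR : p.Reg) : Continuous p.w :=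
  continuous_iff_continuousAt.2 (fun x => (hR.dw x).continuousAt)

theorem f_cont (hR : p.Reg) (hQ : p.Qf b) : Continuous (fun x => p.K x * p.q x ^ l) :=
  hQ.K_s.continuous.mul (hQ.q_s.continuous.rpow_const (fun x => Or.inl (q_pos hR hQ x).ne'))

/-- the bound of the integral by the maximum of the integrand -/
theorem int_le (f : ℝ → ℝ) (hf : Continuous f) (u v M : ℝ) (huv : u ≤ v) (h : ∀ x ∈ Icc u v, f x ≤ M) :
    ∫ x in u..v, f x ≤ M * (v - u) := by
  have h1 := intervalIntegral.integral_mono_on huv (hf.intervalIntegrable u v)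
    (continuous_const.intervalIntegrable u v : IntervalIntegrable (fun _ => M) volume u v) h
  rw [intervalIntegral.integral_const, smul_eq_mul, mul_comm] at h1
  exact h1

/-- the pointwise bound -/
theorem pt (hR : p.Reg) (hQ : p.Qf b) (hl : p.l1 ≤ l) (hl1 : l ≤ 1) (h0 : 0 < p.l1) (x : ℝ) :
    p.K x * p.q x ^ l ≤ 3 / 2 * p.w x ^ (l - p.l1) * p.th x := by
  have hq := q_pos hR hQ x
  have hw := w_pos hR x
  have hth := hQ.th_pos x
  have e1 : p.K x * p.q x ^ l = p.q x ^ (2 + (l - p.l1)) * p.th x / p.w x ^ 2 := by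
    unfold Par.K
    have : p.q x ^ (2 + (l - p.l1)) = p.q x ^ (2 - p.l1) * p.q x ^ l := by
      rw [← Real.rpow_add hq]
      congr 1
      ring
    rw [this]
    ring
  have h1 : p.q x ^ (2 + (l - p.l1)) ≤ (9 / 8 * p.w x) ^ (2 + (l - p.l1)) :=
    Real.rpow_le_rpow hq.le (hQ.q_hi x) (by linarith)
  rw [Real.mul_rpow (by norm_num) hw.le] at h1
  have h2 : (9 / 8 : ℝ) ^ (2 + (l - p.l1)) ≤ (9 / 8 : ℝ) ^ (3 : ℝ) :=
    Real.rpow_le_rpow_of_exponent_le (by norm_num) (by linarith)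
  have h3 : (9 / 8 : ℝ) ^ (3 : ℝ) ≤ 3 / 2 := by norm_num
  have h4 : p.w x ^ (2 + (l - p.l1)) = p.w x ^ 2 * p.w x ^ (l - p.l1) := by
    rw [Real.rpow_add hw]
    norm_num
  have h5 : 0 < p.w x ^ (l - p.l1) := Real.rpow_pos_of_pos hw _
  rw [e1, div_le_iff₀ (by positivity)]
  have h6 : p.q x ^ (2 + (l - p.l1)) ≤ 3 / 2 * (p.w x ^ 2 * p.w x ^ (l - p.l1)) := by
    rw [h4] at h1
    exact h1.trans (mul_le_mul_of_nonneg_right (h2.trans h3) (by positivity))
  calc p.q x ^ (2 + (l - p.l1)) * p.th x ≤ 3 / 2 * (p.w x ^ 2 * p.w x ^ (l - p.l1)) * p.th x :=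
        mul_le_mul_of_nonneg_right h6 hth.le
    _ = 3 / 2 * p.w x ^ (l - p.l1) * p.th x * p.w x ^ 2 := by ring

theorem mu_le (hR : p.Reg) (hl : p.l1 ≤ l) (hl1 : l ≤ 1) (h0 : 0 < p.l1) (x : ℝ) : p.w x ^ (l - p.l1) ≤ p.w x := by
  have := Real.rpow_le_rpow_of_exponent_le (hR.one_le x) (show l - p.l1 ≤ 1 by linarith)
  rwa [Real.rpow_one] at this

/-- the integral of the reciprocal of the solution -/
theorem inv_int (hO : p.OK b) (hR : p.Reg) : ∫ x in p.z..p.L, (p.w x)⁻¹ ≤ 2 / p.eta * (1 + Real.log p.QA) := by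
  have hm := hO.m0
  have hη := hO.eta0
  have hQB : 0 < p.QB := by linarith [hO.QB0]
  have hQA : 0 < p.QA := by linarith [hO.QA0]
  have hc : Continuous (fun x => (p.w x)⁻¹) := (w_cont hR).inv₀ (fun x => (w_pos hR x).ne')
  have ii : ∀ u v, IntervalIntegrable (fun x => (p.w x)⁻¹) volume u v := fun u v => hc.intervalIntegrable u v
  have hlogA : 0 ≤ Real.log p.QA := Real.log_nonneg (by linarith [hO.QA0, hO.QB0])
  -- exact integrals
  have ex : ∀ u v k : ℝ, u ≤ v → k ≠ 0 → (∀ x ∈ Icc u v, p.w1 x = k) →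
      ∫ x in u..v, (p.w x)⁻¹ = (Real.log (p.w v) - Real.log (p.w u)) / k := by
    intro u v k huv hk h
    have h1 : ∀ x ∈ uIcc u v, HasDerivAt (fun y => Real.log (p.w y) / k) ((p.w x)⁻¹) x := by
      intro x hx
      rw [uIcc_of_le huv] at hx
      have h2 := ((hR.dw x).log (w_pos hR x).ne').div_const k
      refine h2.congr_deriv ?_
      rw [h x hx]
      have := (w_pos hR x).ne'
      field_simp
    rw [intervalIntegral.integral_eq_sub_of_hasDerivAt h1 (ii u v)]
    ring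
  rw [← intervalIntegral.integral_add_adjacent_intervals (ii p.z p.y1) (ii p.y1 p.L),
    ← intervalIntegral.integral_add_adjacent_intervals (ii p.y1 (p.y1 + p.h)) (ii (p.y1 + p.h) p.L),
    ← intervalIntegral.integral_add_adjacent_intervals (ii (p.y1 + p.h) p.y2) (ii p.y2 p.L)]
  have i1 : ∫ x in p.z..p.y1, (p.w x)⁻¹ ≤ Real.log p.QA / p.eta := by
    rw [ex p.z p.y1 p.eta hR.hzy.le hη.ne' (fun x hx => hR.w1_d x ⟨by linarith [hx.1, hR.hz], hx.2⟩), hR.w_y1]
    apply div_le_div_of_nonneg_right _ hη.le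
    have := Real.log_nonneg (hR.one_le p.z)
    linarith
  have i2 : ∫ x in p.y1..(p.y1 + p.h), (p.w x)⁻¹ ≤ 1 / p.m := by
    have h1 := int_le (fun x => (p.w x)⁻¹) hc p.y1 (p.y1 + p.h) (p.QA / 2)⁻¹ hR.hy.le (by
      intro x hx
      exact inv_anti₀ (by positivity) (hR.w_e x hx).1)
    refine h1.trans (le_of_eq ?_)
    unfold Par.h
    field_simp
    ring
  have i3 : ∫ x in (p.y1 + p.h)..p.y2, (p.w x)⁻¹ ≤ Real.log p.QA / p.m := by
    rw [ex (p.y1 + p.h) p.y2 (-p.m) hR.hy2.le (by linarith) (fun x hx => hR.w1_f x hx)]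
    rw [div_neg, ← neg_div]
    apply div_le_div_of_nonneg_right _ hm.le
    have h1 := (hR.w_e (p.y1 + p.h) ⟨hR.hy.le, le_rfl⟩).2
    have h2 := (hR.w_g p.y2 le_rfl).1
    have h3 : Real.log (p.w (p.y1 + p.h)) ≤ Real.log (2 * p.QA) := Real.log_le_log (w_pos hR _) h1
    rw [Real.log_mul (by norm_num) hQA.ne'] at h3
    have h4 : Real.log 2 ≤ Real.log (p.w p.y2) := Real.log_le_log (by norm_num) (by linarith [hO.QB0])
    linarith
  have i4 : ∫ x in p.y2..p.L, (p.w x)⁻¹ ≤ 1 / p.m := by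
    have h1 := int_le (fun x => (p.w x)⁻¹) hc p.y2 p.L p.QB⁻¹ hR.hL.le (by
      intro x hx
      exact inv_anti₀ hQB (hR.w_g x hx.1).1)
    refine h1.trans (le_of_eq ?_)
    unfold Par.L Par.a
    field_simp
    ring
  have hmη : 1 / p.m ≤ 1 / 4 * (1 / p.eta) := by
    rw [div_le_iff₀ hm]
    have := hO.eta1
    have h1 : 1 / 4 * (1 / p.eta) * p.m = p.m / (4 * p.eta) := by field_simp
    rw [h1, le_div_iff₀ (by positivity)]
    linarith
  have h5 : Real.log p.QA / p.m ≤ 1 / 4 * (1 / p.eta) * Real.log p.QA := by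
    have := mul_le_mul_of_nonneg_right hmη hlogA
    calc Real.log p.QA / p.m = 1 / p.m * Real.log p.QA := by ring
      _ ≤ _ := this
  have h6 : 2 / p.eta * (1 + Real.log p.QA) = 2 * (1 / p.eta) + 2 * (1 / p.eta) * Real.log p.QA := by ring
  have h7 : Real.log p.QA / p.eta = 1 / p.eta * Real.log p.QA := by ring
  have h8 : 0 < 1 / p.eta := by positivity
  have h9 : 0 ≤ 1 / p.eta * Real.log p.QA := mul_nonneg h8.le hlogA
  rw [h6]
  rw [h7] at i1
  nlinarith

end

theorem main : Pool.Agent.Q279.PM.Mass := by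
  intro p b l hO hR hD hQ hl hl1
  have h0 := hO.l10
  have hm := hO.m0
  have hη := hO.eta0
  have hga : 0 < p.ga := by
    by_contra hc
    push Not at hc
    have h1 := hO.ga0
    nlinarith
  have hQA : 0 < p.QA := by linarith [hO.QA0, hO.QB0]
  have hQA1 : 1 ≤ p.QA := by linarith [hO.QA0, hO.QB0]
  have hc : Continuous (fun x => p.K x * p.q x ^ l) := f_cont hR hQ
  have hcw : Continuous (fun x => (p.w x)⁻¹) := (w_cont hR).inv₀ (fun x => (w_pos hR x).ne')
  have ii : ∀ u v, IntervalIntegrable (fun x => p.K x * p.q x ^ l) volume u v := fun u v => hc.intervalIntegrable u v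
  have hlogA : 0 ≤ Real.log p.QA := Real.log_nonneg hQA1
  have hX : 0 < p.QA ^ l := Real.rpow_pos_of_pos hQA _
  have hzL : p.z ≤ p.L := by linarith [hR.hzy, hR.hy, hR.hy2, hR.hL]
  have first : (∫ y in p.z..p.L, p.K y * p.q y ^ l) ≤ 16 * p.QA ^ l * (1 + Real.log p.QA) / (p.ga * p.eta) := by
    have h1 : ∫ y in p.z..p.L, p.K y * p.q y ^ l ≤ ∫ y in p.z..p.L, 3 * p.QA ^ l / p.ga * (p.w y)⁻¹ := by
      apply intervalIntegral.integral_mono_on hzL (ii _ _) ((continuous_const.mul hcw).intervalIntegrable _ _)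
      intro x hx
      have h2 := pt hR hQ hl hl1 h0 x
      have h3 := hQ.th_b x (hR.hz.le.trans hx.1)
      have hw := w_pos hR x
      have h4 : p.w x ^ (l - p.l1) ≤ 2 * p.QA ^ l := by
        have h5 : p.w x ^ (l - p.l1) ≤ (2 * p.QA) ^ (l - p.l1) := Real.rpow_le_rpow hw.le (hR.w_le x) (by linarith)
        have h6 : (2 * p.QA) ^ (l - p.l1) ≤ (2 * p.QA) ^ l := Real.rpow_le_rpow_of_exponent_le (by linarith) (by linarith)
        have h7 : (2 * p.QA) ^ l = 2 ^ l * p.QA ^ l := Real.mul_rpow (by norm_num) hQA.le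
        have h8 : (2 : ℝ) ^ l ≤ 2 := by
          have := Real.rpow_le_rpow_of_exponent_le (x := (2 : ℝ)) (by norm_num) hl1
          rwa [Real.rpow_one] at this
        have h9 := mul_le_mul_of_nonneg_right h8 hX.le
        linarith
      calc p.K x * p.q x ^ l ≤ 3 / 2 * p.w x ^ (l - p.l1) * p.th x := h2
        _ ≤ 3 / 2 * (2 * p.QA ^ l) * p.th x :=
            mul_le_mul_of_nonneg_right (mul_le_mul_of_nonneg_left h4 (by norm_num)) (hQ.th_pos x).le
        _ = 3 * p.QA ^ l / p.ga * (p.w x)⁻¹ := by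
            rw [h3]
            have := hw.ne'
            field_simp
    rw [intervalIntegral.integral_const_mul] at h1
    have h2 := mul_le_mul_of_nonneg_left (inv_int hO hR) (show 0 ≤ 3 * p.QA ^ l / p.ga by positivity)
    refine h1.trans (h2.trans ?_)
    have h3 : 3 * p.QA ^ l / p.ga * (2 / p.eta * (1 + Real.log p.QA)) = 6 * (p.QA ^ l * (1 + Real.log p.QA) / (p.ga * p.eta)) := by
      field_simp
      ring
    have h4 : 16 * p.QA ^ l * (1 + Real.log p.QA) / (p.ga * p.eta) = 16 * (p.QA ^ l * (1 + Real.log p.QA) / (p.ga * p.eta)) := by ring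
    rw [h3, h4]
    have h5 : 0 ≤ p.QA ^ l * (1 + Real.log p.QA) / (p.ga * p.eta) := by positivity
    linarith
  refine ⟨first, ?_⟩
  rw [← intervalIntegral.integral_add_adjacent_intervals (ii (-3) 1) (ii 1 p.L),
    ← intervalIntegral.integral_add_adjacent_intervals (ii 1 2) (ii 2 p.L),
    ← intervalIntegral.integral_add_adjacent_intervals (ii 2 p.z) (ii p.z p.L)]
  have i1 := int_le (fun x => p.K x * p.q x ^ l) hc (-3) 1 (9 / 2) (by norm_num) (by
    intro x hx
    have h2 := pt hR hQ hl hl1 h0 x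
    have h3 := mu_le hR hl hl1 h0 x
    have h4 := hR.w_b x hx.2
    rw [hQ.th_a x hx.2, mul_one] at h2
    show p.K x * p.q x ^ l ≤ 9 / 2
    linarith)
  have i2 := int_le (fun x => p.K x * p.q x ^ l) hc 1 2 6 (by norm_num) (by
    intro x hx
    have h2 := pt hR hQ hl hl1 h0 x
    have h3 := mu_le hR hl hl1 h0 x
    have hy1 : (2 : ℝ) ≤ p.y1 := by linarith [hR.hz, hR.hzy]
    have h4 := hR.w_d x ⟨hx.1, hx.2.trans hy1⟩
    have h5 := hR.w_d 1 ⟨le_rfl, by linarith⟩
    have h6 := hR.w_b 1 le_rfl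
    have h7 : p.eta * (x - 1) ≤ 1 := by
      have := hO.eta1
      have := hO.m1
      have := hx.1
      have := hx.2
      nlinarith
    have h8 : p.w x ≤ 4 := by linarith
    have h9 := hQ.th_le x
    have h10 := hQ.th_pos x
    have h11 : 0 < p.w x ^ (l - p.l1) := Real.rpow_pos_of_pos (w_pos hR x) _
    show p.K x * p.q x ^ l ≤ 6
    nlinarith)
  have i3 := int_le (fun x => p.K x * p.q x ^ l) hc 2 p.z (3 / 2 / p.ga) hR.hz.le (by
    intro x hx
    have h2 := pt hR hQ hl hl1 h0 x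
    have h3 := mu_le hR hl hl1 h0 x
    have hw := w_pos hR x
    rw [hQ.th_b x hx.1] at h2
    have h4 : p.w x ^ (l - p.l1) * (1 / (p.ga * p.w x)) ≤ 1 / p.ga := by
      rw [mul_one_div, div_le_div_iff₀ (by positivity) hga]
      nlinarith
    show p.K x * p.q x ^ l ≤ 3 / 2 / p.ga
    calc p.K x * p.q x ^ l ≤ 3 / 2 * p.w x ^ (l - p.l1) * (1 / (p.ga * p.w x)) := h2
      _ = 3 / 2 * (p.w x ^ (l - p.l1) * (1 / (p.ga * p.w x))) := by ring
      _ ≤ 3 / 2 * (1 / p.ga) := mul_le_mul_of_nonneg_left h4 (by norm_num)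
      _ = 3 / 2 / p.ga := by ring)
  have i3' : 3 / 2 / p.ga * (p.z - 2) ≤ 3 / 2 := by
    have h1 : 3 / 2 / p.ga * (p.z - 2) = 3 / 2 / (p.ga * p.eta) := by
      unfold Par.z
      field_simp
      ring
    rw [h1, div_le_iff₀ (by positivity)]
    have := hO.ga0
    linarith
  norm_num at i1 i2
  linarith

end Pool.Agent.Q279.PM.JMASS
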