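import Pool.Agent.Q279.PM.Stm

/-!
# Job NUM: elementary facts on the constants
-/

namespace Pool.Agent.Q279.PM.JNUM

open Set MeasureTheory intervalIntegral

lemma B_cont : Continuous B := Real.smoothTransition.continuous

lemma B_nonneg (x : ℝ) : 0 ≤ B x := Real.smoothTransition.nonneg x

lemma B_le_one (x : ℝ) : B x ≤ 1 := Real.smoothTransition.le_one x

lemma bump_cont : Continuous bump := by
  unfold bump
  exact (B_cont.comp (by fun_prop)).mul (B_cont.comp (by fun_prop))

lemma bump_nonneg (x : ℝ) : 0 ≤ bump x := mul_nonneg (B_nonneg _) (B_nonneg _)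

lemma bump_le_one (x : ℝ) : bump x ≤ 1 := by
  unfold bump
  have h1 := B_nonneg (2 * x + 2)
  have h2 := B_le_one (2 * x + 2)
  have h3 := B_nonneg (-(2 * x))
  have h4 := B_le_one (-(2 * x))
  nlinarith

lemma bump_pos {x : ℝ} (h1 : -1 < x) (h2 : x < 0) : 0 < bump x := by
  unfold bump B
  exact mul_pos (Real.smoothTransition.pos_of_pos (by linarith))
    (Real.smoothTransition.pos_of_pos (by linarith))

theorem main : Pool.Agent.Q279.PM.Num := by
  have hb1 : 0 ≤ b1 := by
    unfold b1
    exact intervalIntegral.integral_nonneg (by norm_num) (fun x _ => B_nonneg x)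
  have hb1' : b1 ≤ 1 := by
    have := intervalIntegral.integral_mono_on (μ := volume) (a := (0:ℝ)) (b := 1) (f := B)
      (g := fun _ => (1:ℝ)) (by norm_num) (B_cont.intervalIntegrable _ _)
      (continuous_const.intervalIntegrable _ _) (fun x _ => B_le_one x)
    simpa [b1] using this
  have hBt : 0 < Bt :=
    intervalIntegral.intervalIntegral_pos_of_pos_on (bump_cont.intervalIntegrable _ _)
      (fun x hx => bump_pos hx.1 hx.2) (by norm_num)
  have hBt' : Bt ≤ 1 := by
    have := intervalIntegral.integral_mono_on (μ := volume) (a := (-1:ℝ)) (b := 0) (f := bump)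
      (g := fun _ => (1:ℝ)) (by norm_num) (bump_cont.intervalIntegrable _ _)
      (continuous_const.intervalIntegrable _ _) (fun x _ => bump_le_one x)
    simpa [Bt] using this
  have hbe : 0 < beta := by
    unfold beta
    exact intervalIntegral.intervalIntegral_pos_of_pos_on (f := fun x => bump x ^ 2)
      ((bump_cont.pow 2).intervalIntegrable _ _)
      (fun x hx => pow_pos (bump_pos hx.1 hx.2) 2) (by norm_num)
  have hbe' : beta ≤ 1 := by
    have := intervalIntegral.integral_mono_on (μ := volume) (a := (-1:ℝ)) (b := 0) (f := fun x => bump x ^ 2)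
      (g := fun _ => (1:ℝ)) (by norm_num) ((bump_cont.pow 2).intervalIntegrable _ _)
      (continuous_const.intervalIntegrable _ _)
      (fun x _ => pow_le_one₀ (bump_nonneg x) (bump_le_one x))
    simpa [beta] using this
  exact ⟨hb1, hb1', hBt, hBt', hbe, hbe'⟩

end Pool.Agent.Q279.PM.JNUM
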