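import Pool.Agent.Q279.PM.J.DER
import Pool.Agent.Q279.PM.J.NUM

/-!
# Job PHI: the test function in the window
-/

namespace Pool.Agent.Q279.PM.JPHI

open Set MeasureTheory intervalIntegral Filter Topology
open Pool.Agent.Q279.PM.JDER (bump1 bump2 bump_deriv bump1_deriv bump1_abs B_zero)
open Pool.Agent.Q279.PM.JNUM (bump_cont bump_nonneg bump_le_one)

noncomputable section

lemma bump_left {x : ℝ} (hx : x ≤ -1) : bump x = 0 := by
  unfold bump
  rw [B_zero (by linarith : 2 * x + 2 ≤ 0), zero_mul]

lemma bump_right {x : ℝ} (hx : 0 ≤ x) : bump x = 0 := by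
  unfold bump
  rw [B_zero (by linarith : -(2 * x) ≤ 0), mul_zero]

lemma bump1_cont : Continuous bump1 :=
  continuous_iff_continuousAt.2 fun x => (bump1_deriv x).continuousAt

lemma phi1_cont : Continuous phi1 := by
  unfold phi1
  exact (bump_cont.comp (by fun_prop)).sub bump_cont

lemma phi_deriv (x : ℝ) : HasDerivAt phi (phi1 x) x :=
  phi1_cont.integral_hasStrictDerivAt (-3) x |>.hasDerivAt

lemma phi1_deriv (x : ℝ) : HasDerivAt phi1 (bump1 (x + 1) - bump1 x) x := by
  have h1 : HasDerivAt (fun x : ℝ => bump (x + 1)) (bump1 (x + 1)) x := by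
    have := (bump_deriv (x + 1)).comp_add_const x 1
    exact this
  exact h1.sub (bump_deriv x)

lemma phi2_eq : phi2 = fun x => bump1 (x + 1) - bump1 x := by
  funext x
  exact (phi1_deriv x).deriv

lemma phi2_cont : Continuous phi2 := by
  rw [phi2_eq]
  exact (bump1_cont.comp (by fun_prop)).sub bump1_cont

lemma int_zero {a c : ℝ} (h : ∀ x ∈ uIcc a c, bump x = 0) : ∫ t in a..c, bump t = 0 := by
  rw [intervalIntegral.integral_congr (g := fun _ => (0:ℝ)) h]
  simp

lemma phi_eq (x : ℝ) : phi x = ∫ t in x..(x + 1), bump t := by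
  unfold phi
  have i1 : ∀ a c : ℝ, IntervalIntegrable bump volume a c := fun a c =>
    bump_cont.intervalIntegrable a c
  have i2 : ∀ a c : ℝ, IntervalIntegrable (fun t => bump (t + 1)) volume a c := fun a c =>
    (bump_cont.comp (by fun_prop : Continuous fun t : ℝ => t + 1)).intervalIntegrable a c
  rw [intervalIntegral.integral_sub (i2 _ _) (i1 _ _),
    intervalIntegral.integral_comp_add_right (fun t => bump t) 1]
  have h1 : ∫ t in (-3 : ℝ)..(-3 + 1), bump t = 0 := by
    refine int_zero fun t ht => bump_left ?_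
    rw [uIcc_of_le (by norm_num)] at ht
    linarith [ht.2]
  have h2 := intervalIntegral.integral_add_adjacent_intervals (i1 (-3) (-3 + 1))
    (i1 (-3 + 1) (x + 1))
  have h3 := intervalIntegral.integral_add_adjacent_intervals (i1 (-3) x) (i1 x (x + 1))
  linarith

lemma phi_bd (x : ℝ) : |phi x| ≤ 1 := by
  rw [phi_eq]
  have h0 : 0 ≤ ∫ t in x..(x + 1), bump t :=
    intervalIntegral.integral_nonneg (by linarith) (fun t _ => bump_nonneg t)
  have h1 : ∫ t in x..(x + 1), bump t ≤ ∫ t in x..(x + 1), (1 : ℝ) :=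
    intervalIntegral.integral_mono_on (by linarith) (bump_cont.intervalIntegrable _ _)
      (continuous_const.intervalIntegrable _ _) (fun t _ => bump_le_one t)
  simp only [intervalIntegral.integral_const, smul_eq_mul, mul_one] at h1
  rw [abs_of_nonneg h0]
  linarith

theorem main : Pool.Agent.Q279.PM.PhiF := by
  intro p b hOK hR hD hQ
  have hb := hOK.hb
  have hb1 : 1 ≤ b := hb.1
  have hm := hOK.m0
  have hd1 : 0 < p.d1 := by rw [hOK.d10]; positivity
  have hphi2 : ∀ x, |phi2 x| ≤ 8 * b := fun x => by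
    rw [phi2_eq]
    have h1 := abs_le.1 (bump1_abs hb (x + 1))
    have h2 := abs_le.1 (bump1_abs hb x)
    rw [abs_le]
    constructor <;> linarith [h1.1, h1.2, h2.1, h2.2]
  have hp1a : phi1 (-2) = 0 := by
    unfold phi1
    rw [bump_left (by norm_num : (-2 : ℝ) + 1 ≤ -1), bump_left (by norm_num : (-2 : ℝ) ≤ -1)]
    norm_num
  have hp1b : phi1 0 = 0 := by
    unfold phi1
    rw [bump_right (by norm_num : (0 : ℝ) ≤ 0 + 1), bump_right (le_refl (0 : ℝ))]
    norm_num
  refine ⟨phi_deriv, fun x => ?_, phi2_cont, ?_, ?_, hp1a, hp1b,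
    fun x _ => ⟨phi_bd x, hphi2 x⟩, ?_⟩
  · rw [phi2_eq]; exact phi1_deriv x
  · rw [phi_eq]
    refine int_zero fun t ht => bump_left ?_
    rw [uIcc_of_le (by norm_num)] at ht
    linarith [ht.2]
  · rw [phi_eq]
    refine int_zero fun t ht => bump_right ?_
    rw [uIcc_of_le (by norm_num)] at ht
    linarith [ht.1]
  · -- the main estimate
    have hwc : Continuous p.w := continuous_iff_continuousAt.2 fun x => (hR.dw x).continuousAt
    have hw1c : Continuous p.w1 := hR.smooth.continuous
    have hw2c : Continuous p.w2 := continuous_iff_continuousAt.2 fun x => (hR.dw2 x).continuousAt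
    have hq : ∀ x ∈ uIcc (-2 : ℝ) 0, p.q x * phi2 x =
        p.w x * phi2 x - p.d1 * (p.w x * p.w2 x * phi2 x) := by
      intro x hx
      rw [uIcc_of_le (by norm_num)] at hx
      unfold Par.q
      rw [hQ.th_a x (by linarith [hx.2])]
      ring
    have hphi2' : ∀ x, HasDerivAt phi1 (phi2 x) x := fun x => by
      rw [phi2_eq]; exact phi1_deriv x
    have e1 : ∫ x in (-2 : ℝ)..0, p.w x * phi2 x =
        p.w 0 * phi1 0 - p.w (-2) * phi1 (-2) - ∫ x in (-2 : ℝ)..0, p.w1 x * phi1 x :=
      intervalIntegral.integral_mul_deriv_eq_deriv_mul (fun x _ => hR.dw x)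
        (fun x _ => hphi2' x) (hw1c.intervalIntegrable _ _) (phi2_cont.intervalIntegrable _ _)
    have e2 : ∫ x in (-2 : ℝ)..0, p.w1 x * phi1 x = -∫ x in (-2 : ℝ)..0, bump x ^ 2 := by
      rw [← intervalIntegral.integral_neg]
      refine intervalIntegral.integral_congr fun x hx => ?_
      rw [uIcc_of_le (by norm_num)] at hx
      show p.w1 x * phi1 x = -(bump x ^ 2)
      rw [hR.w1_b x hx.2]
      unfold phi1
      rcases le_total x (-1) with h | h
      · rw [bump_left h]; ring
      · rw [bump_right (by linarith : 0 ≤ x + 1)]; ring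
    have e3 : ∫ x in (-2 : ℝ)..0, bump x ^ 2 = beta := by
      have i1 : ∀ a c : ℝ, IntervalIntegrable (fun x => bump x ^ 2) volume a c := fun a c =>
        (bump_cont.pow 2).intervalIntegrable a c
      rw [← intervalIntegral.integral_add_adjacent_intervals (i1 (-2) (-1)) (i1 (-1) 0)]
      have : ∫ x in (-2 : ℝ)..(-1), bump x ^ 2 = 0 := by
        rw [intervalIntegral.integral_congr (g := fun _ => (0:ℝ))]
        · simp
        · intro x hx
          rw [uIcc_of_le (by norm_num)] at hx
          show bump x ^ 2 = 0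
          rw [bump_left hx.2]; ring
      rw [this, zero_add]
      rfl
    have e4 : |∫ x in (-2 : ℝ)..0, p.w x * p.w2 x * phi2 x| ≤ 80 * b ^ 2 * |0 - (-2 : ℝ)| := by
      have := intervalIntegral.norm_integral_le_of_norm_le_const (a := (-2 : ℝ)) (b := 0)
        (f := fun x => p.w x * p.w2 x * phi2 x) (C := 80 * b ^ 2) ?_
      · simpa [Real.norm_eq_abs] using this
      · intro x hx
        rw [uIoc_of_le (by norm_num)] at hx
        rw [Real.norm_eq_abs, abs_mul, abs_mul]
        have a1 : |p.w x| ≤ 2 := by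
          rw [abs_of_nonneg (by linarith [hR.one_le x])]
          exact hR.w_0 x hx.2
        have a2 : |p.w2 x| ≤ 5 * b := hD.w2_a x (by linarith [hx.2])
        calc |p.w x| * |p.w2 x| * |phi2 x| ≤ 2 * (5 * b) * (8 * b) :=
              mul_le_mul (mul_le_mul a1 a2 (abs_nonneg _) (by norm_num)) (hphi2 x)
                (abs_nonneg _) (by positivity)
          _ = 80 * b ^ 2 := by ring
    have e5 : ∫ x in (-2 : ℝ)..0, p.q x * phi2 x =
        beta - p.d1 * ∫ x in (-2 : ℝ)..0, p.w x * p.w2 x * phi2 x := by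
      have i1 : IntervalIntegrable (fun x => p.w x * phi2 x) volume (-2) 0 :=
        (hwc.mul phi2_cont).intervalIntegrable _ _
      have i2 : IntervalIntegrable (fun x => p.d1 * (p.w x * p.w2 x * phi2 x)) volume (-2) 0 :=
        (continuous_const.mul ((hwc.mul hw2c).mul phi2_cont)).intervalIntegrable _ _
      rw [intervalIntegral.integral_congr hq, intervalIntegral.integral_sub i1 i2,
        intervalIntegral.integral_const_mul, e1, e2, e3, hp1a, hp1b]
      ring
    have e6 : |p.d1 * ∫ x in (-2 : ℝ)..0, p.w x * p.w2 x * phi2 x| ≤ p.m / 40 := by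
      rw [abs_mul, abs_of_pos hd1]
      have h2 : |0 - (-2 : ℝ)| = 2 := by norm_num
      rw [h2] at e4
      calc p.d1 * |∫ x in (-2 : ℝ)..0, p.w x * p.w2 x * phi2 x| ≤ p.d1 * (80 * b ^ 2 * 2) := by
            gcongr
        _ = p.m / 40 := by
            rw [hOK.d10]
            field_simp
            norm_num
    rw [e5]
    have h1 := le_abs_self (beta - p.d1 * ∫ x in (-2 : ℝ)..0, p.w x * p.w2 x * phi2 x)
    have h2 := (abs_le.1 e6).2
    linarith

end

end Pool.Agent.Q279.PM.JPHI
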