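import Pool.Agent.Q279.PM.J.NUM

/-!
# Job QF (helper182): facts on the weight, the ratio and the carrying capacity
-/

set_option autoImplicit false

namespace Pool.Agent.Q279.PM.JQF

open Set Filter Topology Pool.Agent.Q279.PM

lemma B_nonneg (x : ℝ) : 0 ≤ B x := Real.smoothTransition.nonneg x

lemma B_le_one (x : ℝ) : B x ≤ 1 := Real.smoothTransition.le_one x

lemma B_zero {x : ℝ} (h : x ≤ 0) : B x = 0 := Real.smoothTransition.zero_of_nonpos h

lemma B_one {x : ℝ} (h : 1 ≤ x) : B x = 1 := Real.smoothTransition.one_of_one_le h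

lemma B_smooth : ContDiff ℝ (⊤ : ℕ∞) B := Real.smoothTransition.contDiff

/-- Derivatives on an interval. -/
lemma deriv_eq {S : Set ℝ} (hS : UniqueDiffOn ℝ S) {f g : ℝ → ℝ} {f' g' x : ℝ} (hx : x ∈ S)
    (hf : HasDerivAt f f' x) (hg : HasDerivAt g g' x) (h : ∀ y ∈ S, f y = g y) : f' = g' := by
  have h1 : HasDerivWithinAt g f' S x :=
    (hf.hasDerivWithinAt (s := S)).congr (fun y hy => (h y hy).symm) (h x hx).symm
  exact (hS x hx).eq_deriv S h1 hg.hasDerivWithinAt

theorem main : QfF := by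
  intro p b ok reg der
  obtain ⟨hb1, hb1', hBt, hBt', -, -⟩ := JNUM.main
  have hb := ok.hb.1
  have m0 := ok.m0
  have m1 := ok.m1
  have e0 := ok.eta0
  have e1' := ok.eta1
  have QB0 := ok.QB0
  have QA0 := ok.QA0
  have ga0 := ok.ga0
  have l0 := ok.l10
  have l1 := ok.l11
  have hd : p.d1 = p.m / (6400 * b ^ 2) := ok.d10
  have hb0 : 0 < b := by linarith
  have d0 : 0 < p.d1 := by
    rw [hd]
    positivity
  have eta16 : p.eta ≤ 1 / 16 := by linarith
  have ga16 : 16 ≤ p.ga := by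
    by_contra hcon
    push Not at hcon
    have : p.ga * p.eta < 1 := by
      rcases le_or_gt p.ga 0 with h | h
      · have := mul_nonpos_of_nonpos_of_nonneg h e0.le
        linarith
      · calc p.ga * p.eta ≤ p.ga * (1 / 16) := mul_le_mul_of_nonneg_left eta16 h.le
          _ < 1 := by linarith
    linarith
  have ga00 : 0 < p.ga := by linarith
  have he : p.e1 b = 64 * b * p.d1 * p.ga * p.m ^ 2 := rfl
  have he0 : 0 < p.e1 b := by
    rw [he]
    positivity
  have he1 : p.e1 b ≤ 1 / 64 := by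
    have h1 := ok.e10
    have h2 : p.e1 b ≤ b * p.e1 b := le_mul_of_one_le_left he0.le hb
    linarith
  -- d1 * b ^ 2
  have hdb : p.d1 * b ^ 2 = p.m / 6400 := by
    rw [hd]
    field_simp
  have hdb1 : p.d1 * b ≤ p.m / 6400 := by
    rw [← hdb]
    apply mul_le_mul_of_nonneg_left _ d0.le
    nlinarith
  have w1' := reg.one_le
  have w0 : ∀ x, 0 < p.w x := fun x => by linarith [w1' x]
  have gaw : ∀ x, 1 ≤ p.ga * p.w x := fun x => by nlinarith [w1' x]
  -- th
  have th_pos : ∀ x, 0 < p.th x := by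
    intro x
    unfold Par.th
    have h1 := B_nonneg (x - 1)
    have h2 := B_le_one (x - 1)
    have h3 : 0 < p.ga * p.w x := by linarith [gaw x]
    rcases h1.eq_or_lt with h | h
    · rw [← h]
      simp
    · have : 0 < B (x - 1) / (p.ga * p.w x) := by positivity
      linarith
  have th_le : ∀ x, p.th x ≤ 1 := by
    intro x
    unfold Par.th
    have h1 := B_nonneg (x - 1)
    have : B (x - 1) / (p.ga * p.w x) ≤ B (x - 1) := div_le_self h1 (gaw x)
    linarith
  have th_a : ∀ x ≤ 1, p.th x = 1 := by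
    intro x hx
    unfold Par.th
    rw [B_zero (by linarith)]
    simp
  have th_b : ∀ x, 2 ≤ x → p.th x = 1 / (p.ga * p.w x) := by
    intro x hx
    unfold Par.th
    rw [B_one (by linarith)]
    simp
  have hzy := reg.hzy
  have hz := reg.hz
  have hy := reg.hy
  have hy2 := reg.hy2
  have hL := reg.hL
  -- the ratio
  have rat1 : ∀ x ≤ 1, |p.d1 * p.w2 x / p.th x| ≤ 1 / 1000 := by
    intro x hx
    rw [th_a x hx, div_one, abs_mul, abs_of_pos d0]
    calc p.d1 * |p.w2 x| ≤ p.d1 * (5 * b) := mul_le_mul_of_nonneg_left (der.w2_a x hx) d0.le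
      _ = 5 * (p.d1 * b) := by ring
      _ ≤ 5 * (p.m / 6400) := by linarith
      _ ≤ 1 / 1000 := by linarith
  have rat3 : ∀ x, 2 ≤ x → |p.d1 * p.w2 x / p.th x| ≤ p.e1 b / 8 := by
    intro x hx
    have h3 : 0 < p.ga * p.w x := by linarith [gaw x]
    have e : p.d1 * p.w2 x / p.th x = p.d1 * p.ga * (p.w x * p.w2 x) := by
      rw [th_b x hx]
      field_simp
    rw [e, abs_mul, abs_mul (p.w x), abs_of_pos (mul_pos d0 ga00), abs_of_pos (w0 x)]
    calc p.d1 * p.ga * (p.w x * |p.w2 x|) ≤ p.d1 * p.ga * (8 * b * p.m ^ 2) :=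
          mul_le_mul_of_nonneg_left (der.ww2 x (by linarith)) (mul_pos d0 ga00).le
      _ = p.e1 b / 8 := by rw [he]; ring
  have rat2 : ∀ x, 1 ≤ x → |p.d1 * p.w2 x / p.th x| ≤ p.e1 b / 8 := by
    intro x hx
    rcases le_or_gt x p.y1 with h | h
    · rw [der.w2_d x ⟨hx, h⟩]
      simp only [mul_zero, zero_div, abs_zero]
      positivity
    · exact rat3 x (by linarith)
  have rat : ∀ x, |p.d1 * p.w2 x / p.th x| ≤ p.e1 b / 8 + 1 / 1000 := by
    intro x
    rcases le_or_gt x 1 with h | h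
    · have := rat1 x h
      linarith
    · have := rat2 x h.le
      linarith
  have rat8 : ∀ x, |p.d1 * p.w2 x / p.th x| ≤ 1 / 8 := fun x => by linarith [rat x]
  have hq : ∀ x, p.q x = p.w x * (1 - p.d1 * p.w2 x / p.th x) := fun x => rfl
  have q_lo : ∀ x, 7 / 8 * p.w x ≤ p.q x := by
    intro x
    rw [hq]
    have h1 := (abs_le.1 (rat8 x)).2
    nlinarith [w0 x]
  have q_hi : ∀ x, p.q x ≤ 9 / 8 * p.w x := by
    intro x
    rw [hq]
    have h1 := (abs_le.1 (rat8 x)).1
    nlinarith [w0 x]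
  have q0 : ∀ x, 0 < p.q x := fun x => by
    have := q_lo x
    have := w0 x
    linarith
  have q_d : ∀ x ∈ Icc (1 : ℝ) p.y1, p.q x = p.w x := by
    intro x hx
    rw [hq, der.w2_d x hx]
    simp
  have q_f : ∀ x ∈ Icc (p.y1 + p.h) p.y2, p.q x = p.w x := by
    intro x hx
    rw [hq, der.w2_f x hx]
    simp
  -- smoothness
  have sw1 := reg.smooth
  have sw : ContDiff ℝ (⊤ : ℕ∞) p.w := by
    rw [contDiff_infty_iff_deriv]
    refine ⟨fun x => (reg.dw x).differentiableAt, ?_⟩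
    have : deriv p.w = p.w1 := funext fun x => (reg.dw x).deriv
    rw [this]
    exact sw1
  have sw2 : ContDiff ℝ (⊤ : ℕ∞) p.w2 := (contDiff_infty_iff_deriv.1 sw1).2
  have sth : ContDiff ℝ (⊤ : ℕ∞) p.th := by
    unfold Par.th
    have h1 : ContDiff ℝ (⊤ : ℕ∞) (fun x : ℝ => B (x - 1)) :=
      B_smooth.comp (contDiff_id.sub contDiff_const)
    refine (contDiff_const.sub h1).add (h1.div (contDiff_const.mul sw) fun x => ?_)
    have := gaw x
    intro hcon
    linarith
  have sq : ContDiff ℝ (⊤ : ℕ∞) p.q := by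
    unfold Par.q
    exact sw.mul (contDiff_const.sub ((contDiff_const.mul sw2).div sth fun x => (th_pos x).ne'))
  have sK : ContDiff ℝ (⊤ : ℕ∞) p.K := by
    unfold Par.K
    refine ((sq.rpow_const_of_ne fun x => (q0 x).ne').mul sth).div (sw.pow 2) fun x => ?_
    exact pow_ne_zero _ (w0 x).ne'
  have K_pos : ∀ x, 0 < p.K x := by
    intro x
    unfold Par.K
    have h1 := Real.rpow_pos_of_pos (q0 x) (2 - p.l1)
    have h2 := th_pos x
    have h3 := w0 x
    positivity
  -- the derivative of q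
  have dq : ∀ x, HasDerivAt p.q (p.q1 x) x := fun x =>
    ((sq.differentiable (by norm_cast)) x).hasDerivAt
  have w1lo : ∀ x ≤ 1, 0 ≤ p.w1 x ∧ p.w1 x ≤ 1 := by
    intro x hx
    rcases le_or_gt x 0 with h | h
    · rw [reg.w1_b x h]
      unfold bump
      have h1 := B_nonneg (2 * x + 2)
      have h2 := B_le_one (2 * x + 2)
      have h3 := B_nonneg (-(2 * x))
      have h4 := B_le_one (-(2 * x))
      exact ⟨mul_nonneg h1 h3, by nlinarith⟩
    · rw [reg.w1_c x ⟨h.le, hx⟩]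
      have h1 := B_nonneg x
      have h2 := B_le_one x
      exact ⟨mul_nonneg e0.le h1, by nlinarith⟩
  have w1hi : ∀ x, 1 ≤ x → -p.m ≤ p.w1 x ∧ p.w1 x ≤ p.eta := by
    intro x hx
    rcases le_or_gt x p.y1 with h | h
    · rw [reg.w1_d x ⟨hx, h⟩]
      constructor <;> linarith
    rcases le_or_gt x (p.y1 + p.h) with h2 | h2
    · rw [reg.w1_e x ⟨h.le, h2⟩]
      have h3 := B_nonneg ((x - p.y1) / p.h)
      have h4 := B_le_one ((x - p.y1) / p.h)
      constructor <;> nlinarith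
    rcases le_or_gt x p.y2 with h3 | h3
    · rw [reg.w1_f x ⟨h2.le, h3⟩]
      constructor <;> linarith
    rcases le_or_gt x p.L with h4 | h4
    · rw [reg.w1_g x ⟨h3.le, h4⟩]
      have h3 := B_nonneg ((x - p.y2) / p.a)
      have h4 := B_le_one ((x - p.y2) / p.a)
      constructor <;> nlinarith
    · rw [reg.w1_h x h4.le]
      constructor <;> linarith
  have q1_A : ∀ x ≤ 1, p.q1 x = p.w1 x * (1 - p.d1 * p.w2 x) - p.d1 * p.w x * p.w3 x := by
    intro x hx
    have h1 : HasDerivAt (fun y => p.w y * (1 - p.d1 * p.w2 y))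
        (p.w1 x * (1 - p.d1 * p.w2 x) + p.w x * (0 - p.d1 * p.w3 x)) x :=
      (reg.dw x).mul ((hasDerivAt_const x (1 : ℝ)).sub ((reg.dw2 x).const_mul p.d1))
    have h2 := deriv_eq (uniqueDiffOn_Iic (1 : ℝ)) (show x ∈ Iic 1 from hx) (dq x) h1
      (fun y hy => by
        rw [hq, th_a y hy, div_one])
    rw [h2]
    ring
  have q1_D : ∀ x ∈ Icc (1 : ℝ) p.y1, p.q1 x = p.eta := by
    intro x hx
    have h2 := deriv_eq (uniqueDiffOn_Icc (show (1 : ℝ) < p.y1 by linarith)) hx (dq x) (reg.dw x)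
      (fun y hy => q_d y hy)
    rw [h2, reg.w1_d x hx]
  have q1_F : ∀ x ∈ Icc (p.y1 + p.h) p.y2, p.q1 x = -p.m := by
    intro x hx
    have h2 := deriv_eq (uniqueDiffOn_Icc hy2) hx (dq x) (reg.dw x) (fun y hy => q_f y hy)
    rw [h2, reg.w1_f x hx]
  have q1_H : ∀ x, 2 ≤ x → p.q1 x = p.w1 x - p.d1 * p.ga *
      (2 * p.w1 x * (p.w x * p.w2 x) + p.w x ^ 2 * p.w3 x) := by
    intro x hx
    have h1 : HasDerivAt (fun y => p.w y - p.d1 * p.ga * (p.w y ^ 2 * p.w2 y))
        (p.w1 x - p.d1 * p.ga * ((2 : ℕ) * p.w x ^ (2 - 1) * p.w1 x * p.w2 x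
          + p.w x ^ 2 * p.w3 x)) x :=
      (reg.dw x).sub ((((reg.dw x).pow 2).mul (reg.dw2 x)).const_mul _)
    have h2 := deriv_eq (uniqueDiffOn_Ici (2 : ℝ)) (show x ∈ Ici 2 from hx) (dq x) h1
      (fun y hy => by
        have h3 : 0 < p.ga * p.w y := by linarith [gaw y]
        have h4 := w0 y
        rw [hq, th_b y hy]
        field_simp)
    rw [h2]
    push_cast
    ring
  have hdiff : ∀ x, 2 ≤ x → |p.q1 x - p.w1 x| ≤ p.e1 b * p.m := by
    intro x hx
    obtain ⟨k1, k2⟩ := w1hi x (by linarith)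
    have k3 : |p.w1 x| ≤ p.m := abs_le.2 ⟨k1, by linarith⟩
    have e : p.q1 x - p.w1 x = -(p.d1 * p.ga *
        (2 * p.w1 x * (p.w x * p.w2 x) + p.w x ^ 2 * p.w3 x)) := by
      rw [q1_H x hx]
      ring
    have g0 : 0 < p.d1 * p.ga := mul_pos d0 ga00
    rw [e, abs_neg, abs_mul, abs_of_pos g0]
    have h5 : |2 * p.w1 x * (p.w x * p.w2 x) + p.w x ^ 2 * p.w3 x|
        ≤ 2 * p.m * (8 * b * p.m ^ 2) + 32 * b * p.m ^ 3 := by
      refine (abs_add_le _ _).trans ?_
      rw [abs_mul, abs_mul, abs_two, abs_mul (p.w x), abs_of_pos (w0 x), abs_mul (p.w x ^ 2),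
        abs_of_pos (pow_pos (w0 x) 2)]
      apply add_le_add
      · exact mul_le_mul (by linarith) (der.ww2 x (by linarith))
          (mul_nonneg (w0 x).le (abs_nonneg _)) (by linarith)
      · exact der.ww3 x (by linarith)
    calc p.d1 * p.ga * |2 * p.w1 x * (p.w x * p.w2 x) + p.w x ^ 2 * p.w3 x|
        ≤ p.d1 * p.ga * (2 * p.m * (8 * b * p.m ^ 2) + 32 * b * p.m ^ 3) :=
          mul_le_mul_of_nonneg_left h5 g0.le
      _ = 3 / 4 * (p.e1 b * p.m) := by rw [he]; ring
      _ ≤ p.e1 b * p.m := by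
          have : 0 ≤ p.e1 b * p.m := by positivity
          linarith
  have hem : p.e1 b * p.m ≤ p.m / 64 := by nlinarith
  have hem0 : 0 ≤ p.e1 b * p.m := by positivity
  have q1_A2 : ∀ x ≤ 1, -(2 * p.m) ≤ p.q1 x ∧ p.q1 x ≤ 3 := by
    intro x hx
    obtain ⟨k1, k2⟩ := w1lo x hx
    have k3 := rat1 x hx
    rw [th_a x hx, div_one] at k3
    have k4 := abs_le.1 k3
    have k5 : |p.d1 * p.w x * p.w3 x| ≤ 51 * p.m / 6400 := by
      rw [abs_mul, abs_mul, abs_of_pos d0, abs_of_pos (w0 x)]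
      calc p.d1 * p.w x * |p.w3 x| ≤ p.d1 * 3 * (17 * b ^ 2) := by
            apply mul_le_mul _ (der.w3_a x hx) (abs_nonneg _) (by positivity)
            exact mul_le_mul_of_nonneg_left (reg.w_b x hx) d0.le
        _ = 51 * (p.d1 * b ^ 2) := by ring
        _ = 51 * p.m / 6400 := by rw [hdb]; ring
    have k6 := abs_le.1 k5
    rw [q1_A x hx]
    have k7 : 0 ≤ p.w1 x * (1 - p.d1 * p.w2 x) := mul_nonneg k1 (by linarith)
    have k8 : p.w1 x * (1 - p.d1 * p.w2 x) ≤ 1 * (1 + 1 / 1000) :=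
      mul_le_mul k2 (by linarith) (by linarith) zero_le_one
    constructor <;> linarith
  have q1_2 : ∀ x, 2 ≤ x → -(2 * p.m) ≤ p.q1 x ∧ p.q1 x ≤ p.eta + p.e1 b * p.m := by
    intro x hx
    obtain ⟨k1, k2⟩ := w1hi x (by linarith)
    have k3 := abs_le.1 (hdiff x hx)
    constructor <;> linarith
  have wmono : ∀ x ≤ 1, p.w x ≤ p.w 1 := by
    have hanti : MonotoneOn p.w (Iic 1) := by
      apply monotoneOn_of_deriv_nonneg (convex_Iic 1) sw.continuous.continuousOn
      · exact fun x _ => (reg.dw x).differentiableAt.differentiableWithinAt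
      · intro x hx
        rw [interior_Iic] at hx
        rw [(reg.dw x).deriv]
        exact (w1lo x hx.le).1
    intro x hx
    exact hanti hx (show (1 : ℝ) ≤ 1 from le_rfl) hx
  have w_one : p.w 1 = 1 + Bt + p.eta * b1 := by
    have := reg.w_d 1 ⟨le_rfl, by linarith⟩
    rw [this]
    ring
  have hebb : p.eta * b1 ≤ 1 / 16 := by nlinarith
  have heb0 : 0 ≤ p.eta * b1 := mul_nonneg e0.le hb1
  have hzI : p.z ∈ Icc (1 : ℝ) p.y1 := ⟨by linarith, hzy.le⟩
  have qz : p.q p.z = 1 + Bt + p.eta * b1 + 1 + p.eta := by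
    rw [q_d p.z hzI, reg.w_d p.z hzI]
    have : p.eta * (p.z - 1) = 1 + p.eta := by
      unfold Par.z
      field_simp
      ring
    rw [this]
    ring
  have z_val : p.q p.z ≤ 9 / 2 := by
    rw [qz]
    linarith
  have wright : ∀ x, p.y1 ≤ x → p.QB ≤ p.w x := by
    intro x hx
    rcases le_or_gt x (p.y1 + p.h) with h2 | h2
    · have := (reg.w_e x ⟨hx, h2⟩).1
      linarith
    rcases le_or_gt x p.y2 with h3 | h3
    · rw [reg.w_f x ⟨h2.le, h3⟩]
      nlinarith
    · exact (reg.w_g x h3.le).1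
  constructor
  · exact th_pos
  · exact th_le
  · exact th_a
  · exact th_b
  · exact rat
  · exact rat2
  · exact q_lo
  · exact q_hi
  · exact q_d
  · exact q_f
  · exact sq
  · exact sK
  · exact K_pos
  · intro x
    rcases le_or_gt x 1 with h | h
    · exact (q1_A2 x h).1
    rcases le_or_gt x 2 with h2 | h2
    · rw [q1_D x ⟨h.le, by linarith⟩]
      linarith
    · exact (q1_2 x h2.le).1
  · intro x
    rcases le_or_gt x 1 with h | h
    · exact (q1_A2 x h).2
    rcases le_or_gt x 2 with h2 | h2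
    · rw [q1_D x ⟨h.le, by linarith⟩]
      linarith
    · have := (q1_2 x h2.le).2
      linarith
  · exact fun x hx => (q1_2 x hx).2
  · exact fun x hx => q1_D x ⟨by linarith [hx.1], hx.2⟩
  · exact q1_F
  · intro x hx
    obtain ⟨k1, k2⟩ := q1_2 x hx
    rw [abs_le]
    constructor <;> linarith
  · intro x hx
    rcases le_or_gt x 1 with h | h
    · have k1 := (abs_le.1 (rat1 x h)).1
      have k2 := wmono x h
      have k3 : p.q x ≤ p.w x * (1 + 1 / 1000) := by
        rw [hq]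
        apply mul_le_mul_of_nonneg_left _ (w0 x).le
        linarith
      rw [qz]
      rw [w_one] at k2
      nlinarith
    · have hx1 : x ∈ Icc (1 : ℝ) p.y1 := ⟨h.le, by linarith [hx.2]⟩
      rw [q_d x hx1, q_d p.z hzI, reg.w_d x hx1, reg.w_d p.z hzI]
      have := mul_le_mul_of_nonneg_left hx.2 e0.le
      linarith
  · intro x hx
    rcases le_or_gt x p.y1 with h | h
    · have hx1 : x ∈ Icc (1 : ℝ) p.y1 := ⟨by linarith [hx.1], h⟩
      rw [q_d x hx1, q_d p.z hzI, reg.w_d x hx1, reg.w_d p.z hzI]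
      have := mul_le_mul_of_nonneg_left hx.1 e0.le
      linarith
    · have k1 := wright x h.le
      have k2 := q_lo x
      linarith
  · exact z_val
  · intro x hx
    have hw2 := reg.w_0 x hx.2
    have hw1 := w1' x
    have qlo := q_lo x
    have qhi := q_hi x
    have hq9 : p.q x ≤ 9 / 4 := by linarith
    have hq7 : 7 / 8 ≤ p.q x := by linarith
    have hpow : p.q x ^ (2 - p.l1) = p.q x ^ 2 * p.q x ^ (-p.l1) := by
      rw [show (2 - p.l1 : ℝ) = ((2 : ℕ) : ℝ) + -p.l1 by push_cast; ring,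
        Real.rpow_add (q0 x), Real.rpow_natCast]
    have hKe : p.K x = (p.q x / p.w x) ^ 2 * p.q x ^ (-p.l1) := by
      unfold Par.K
      rw [th_a x (by linarith [hx.2]), hpow]
      field_simp
    have r1 : 7 / 8 ≤ p.q x / p.w x := by
      rw [le_div_iff₀ (w0 x)]
      exact qlo
    have r2 : p.q x / p.w x ≤ 9 / 8 := by
      rw [div_le_iff₀ (w0 x)]
      exact qhi
    have s1 : 49 / 64 ≤ (p.q x / p.w x) ^ 2 := by nlinarith
    have s2 : (p.q x / p.w x) ^ 2 ≤ 81 / 64 := by nlinarith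
    have t1 : 4 / 9 ≤ p.q x ^ (-p.l1) := by
      have h1 := Real.rpow_le_rpow_of_nonpos (q0 x) hq9 (show -p.l1 ≤ 0 by linarith)
      have h2 : (9 / 4 : ℝ) ^ (-1 : ℝ) ≤ (9 / 4) ^ (-p.l1) :=
        Real.rpow_le_rpow_of_exponent_le (by norm_num) (by linarith)
      have h3 : (9 / 4 : ℝ) ^ (-1 : ℝ) = 4 / 9 := by
        rw [Real.rpow_neg_one]
        norm_num
      linarith
    have t2 : p.q x ^ (-p.l1) ≤ 8 / 7 := by
      have h1 := Real.rpow_le_rpow_of_nonpos (show (0 : ℝ) < 7 / 8 by norm_num) hq7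
        (show -p.l1 ≤ 0 by linarith)
      have h2 : (7 / 8 : ℝ) ^ (-p.l1) ≤ (7 / 8) ^ (-1 : ℝ) :=
        Real.rpow_le_rpow_of_exponent_ge (by norm_num) (by norm_num) (by linarith)
      have h3 : (7 / 8 : ℝ) ^ (-1 : ℝ) = 8 / 7 := by
        rw [Real.rpow_neg_one]
        norm_num
      linarith
    rw [hKe]
    refine ⟨?_, ?_, hq9⟩
    · calc (1 / 4 : ℝ) ≤ 49 / 64 * (4 / 9) := by norm_num
        _ ≤ _ := mul_le_mul s1 t1 (by norm_num) (by positivity)
    · calc (p.q x / p.w x) ^ 2 * p.q x ^ (-p.l1) ≤ 81 / 64 * (8 / 7) :=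
            mul_le_mul s2 t2 (by linarith) (by norm_num)
        _ ≤ 2 := by norm_num

end Pool.Agent.Q279.PM.JQF
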