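import Pool.Agent.Q279.PM.Stm

/-! # Project PM, job REG: facts on the explicit solution (helper223) -/

namespace Pool.Agent.Q279.PM.JREG

open Set MeasureTheory intervalIntegral Pool.Agent.Q279.PM

noncomputable section

theorem B0 {x : ℝ} (h : x ≤ 0) : B x = 0 := Real.smoothTransition.zero_of_nonpos h
theorem B1 {x : ℝ} (h : 1 ≤ x) : B x = 1 := Real.smoothTransition.one_of_one_le h
theorem Bnn (x : ℝ) : 0 ≤ B x := Real.smoothTransition.nonneg x
theorem Ble (x : ℝ) : B x ≤ 1 := Real.smoothTransition.le_one x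
theorem Bsm : ContDiff ℝ (⊤ : ℕ∞) B := Real.smoothTransition.contDiff
theorem Bco : Continuous B := Bsm.continuous

theorem bumpsm : ContDiff ℝ (⊤ : ℕ∞) bump := by
  unfold bump
  exact (Bsm.comp ((contDiff_const.mul contDiff_id).add contDiff_const)).mul
    (Bsm.comp ((contDiff_const.mul contDiff_id).neg))

theorem bumpco : Continuous bump := bumpsm.continuous
theorem bump_nn (x : ℝ) : 0 ≤ bump x := mul_nonneg (Bnn _) (Bnn _)
theorem bump_le (x : ℝ) : bump x ≤ 1 := mul_le_one₀ (Ble _) (Bnn _) (Ble _)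
theorem bump_l {x : ℝ} (h : x ≤ -1) : bump x = 0 := by
  unfold bump; rw [B0 (by linarith), zero_mul]
theorem bump_r {x : ℝ} (h : 0 ≤ x) : bump x = 0 := by
  unfold bump; rw [B0 (x := -(2 * x)) (by linarith), mul_zero]

theorem up {f : ℝ → ℝ} (hf : Continuous f) {s t C : ℝ} (hst : s ≤ t)
    (h : ∀ x ∈ Icc s t, f x ≤ C) : ∫ x in s..t, f x ≤ C * (t - s) := by
  have h1 : ∫ x in s..t, f x ≤ ∫ x in s..t, C :=
    intervalIntegral.integral_mono_on hst (hf.intervalIntegrable _ _)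
      (continuous_const.intervalIntegrable _ _) h
  rw [intervalIntegral.integral_const, smul_eq_mul] at h1
  linarith

theorem lo {f : ℝ → ℝ} (hf : Continuous f) {s t C : ℝ} (hst : s ≤ t)
    (h : ∀ x ∈ Icc s t, C ≤ f x) : C * (t - s) ≤ ∫ x in s..t, f x := by
  have h1 : ∫ x in s..t, C ≤ ∫ x in s..t, f x :=
    intervalIntegral.integral_mono_on hst (continuous_const.intervalIntegrable _ _)
      (hf.intervalIntegrable _ _) h
  rw [intervalIntegral.integral_const, smul_eq_mul] at h1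
  linarith

theorem b1_nn : 0 ≤ b1 := by
  have := lo Bco (s := 0) (t := 1) zero_le_one (C := 0) (fun x _ => Bnn x)
  unfold b1; linarith

theorem b1_le : b1 ≤ 1 := by
  have := up Bco (s := 0) (t := 1) zero_le_one (C := 1) (fun x _ => Ble x)
  unfold b1; linarith

theorem Bt_nn : 0 ≤ Bt := by
  have := lo bumpco (s := -1) (t := 0) (by norm_num) (C := 0) (fun x _ => bump_nn x)
  unfold Bt; linarith

theorem Bt_le : Bt ≤ 1 := by
  have := up bumpco (s := -1) (t := 0) (by norm_num) (C := 1) (fun x _ => bump_le x)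
  unfold Bt; linarith

section
variable {p : Par} {b : ℝ} (H : p.OK b)
include H

theorem h_pos : 0 < p.h := by
  have := H.m0; have := H.QB0; have := H.QA0
  unfold Par.h; exact div_pos (by linarith) (by linarith)

theorem a_pos : 0 < p.a := by
  have := H.m0; have := H.QB0
  unfold Par.a; exact div_pos (by linarith) (by linarith)

theorem mh : p.m * p.h = p.QA / 2 := by
  have := H.m0
  unfold Par.h; field_simp

theorem ma : p.m * p.a = p.QB := by
  have := H.m0
  unfold Par.a; field_simp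

theorem ey1 : p.eta * (p.y1 - 1) = p.QA - (1 + Bt + p.eta * b1) := by
  have := H.eta0
  unfold Par.y1; field_simp; ring

theorem my2 : p.m * (p.y2 - (p.y1 + p.h)) =
    p.QA + p.eta * p.h - (p.m + p.eta) * p.h * b1 - 2 * p.QB := by
  have := H.m0
  unfold Par.y2; field_simp; ring

theorem hz : 2 < p.z := by
  have := H.eta0
  unfold Par.z
  have : 0 < 1 / p.eta := by positivity
  linarith

theorem hzy : p.z < p.y1 := by
  have h1 := H.eta0; have h2 := H.eta1; have h3 := H.m1; have h4 := H.QB0; have h5 := H.QA0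
  have h6 := ey1 H
  have h7 := Bt_le; have h8 := b1_le; have h9 := b1_nn
  have h10 : p.eta * (1 / p.eta) = 1 := by field_simp
  have h11 : p.eta * p.z < p.eta * p.y1 := by
    unfold Par.z
    have : p.eta * b1 ≤ p.eta * 1 := mul_le_mul_of_nonneg_left h8 h1.le
    nlinarith
  exact lt_of_mul_lt_mul_left h11 h1.le

theorem hy2 : p.y1 + p.h < p.y2 := by
  have h1 := H.eta0; have h2 := H.m0; have h4 := H.QB0; have h5 := H.QA0
  have h6 := my2 H; have h7 := mh H; have h8 := b1_le; have h9 := h_pos H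
  have h10 : (p.m + p.eta) * p.h * b1 ≤ (p.m + p.eta) * p.h * 1 :=
    mul_le_mul_of_nonneg_left h8 (by positivity)
  have h11 : 0 < p.m * (p.y2 - (p.y1 + p.h)) := by nlinarith
  have := (mul_pos_iff_of_pos_left h2).1 h11
  linarith

theorem hL : p.y2 < p.L := by
  have := a_pos H
  unfold Par.L; linarith

theorem h1y : 1 < p.y1 := by
  have := hz H; have := hzy H; linarith

theorem smooth : ContDiff ℝ (⊤ : ℕ∞) p.w1 := by
  unfold Par.w1
  refine ((bumpsm.add (contDiff_const.mul Bsm)).sub (contDiff_const.mul (Bsm.comp ?_))).add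
    (contDiff_const.mul (Bsm.comp ?_))
  · exact (contDiff_id.sub contDiff_const).div_const _
  · exact (contDiff_id.sub contDiff_const).div_const _

theorem w1co : Continuous p.w1 := (smooth H).continuous

theorem w1_b {x : ℝ} (hx : x ≤ 0) : p.w1 x = bump x := by
  have h1 := h_pos H; have h2 := a_pos H; have h3 := h1y H; have h4 := hy2 H
  unfold Par.w1
  rw [B0 hx, B0 (x := (x - p.y1) / p.h) (div_nonpos_of_nonpos_of_nonneg (by linarith) h1.le),
    B0 (x := (x - p.y2) / p.a) (div_nonpos_of_nonpos_of_nonneg (by linarith) h2.le)]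
  ring

theorem w1_a {x : ℝ} (hx : x ≤ -1) : p.w1 x = 0 := by
  rw [w1_b H (by linarith), bump_l hx]

theorem w1_c {x : ℝ} (hx : x ∈ Icc (0 : ℝ) 1) : p.w1 x = p.eta * B x := by
  have h1 := h_pos H; have h2 := a_pos H; have h3 := h1y H; have h4 := hy2 H
  obtain ⟨hx0, hx1⟩ := hx
  unfold Par.w1
  rw [bump_r hx0, B0 (x := (x - p.y1) / p.h) (div_nonpos_of_nonpos_of_nonneg (by linarith) h1.le),
    B0 (x := (x - p.y2) / p.a) (div_nonpos_of_nonpos_of_nonneg (by linarith) h2.le)]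
  ring

theorem w1_d {x : ℝ} (hx : x ∈ Icc (1 : ℝ) p.y1) : p.w1 x = p.eta := by
  have h1 := h_pos H; have h2 := a_pos H; have h3 := h1y H; have h4 := hy2 H
  obtain ⟨hx0, hx1⟩ := hx
  unfold Par.w1
  rw [bump_r (by linarith), B1 hx0,
    B0 (x := (x - p.y1) / p.h) (div_nonpos_of_nonpos_of_nonneg (by linarith) h1.le),
    B0 (x := (x - p.y2) / p.a) (div_nonpos_of_nonpos_of_nonneg (by linarith) h2.le)]
  ring

theorem w1_e {x : ℝ} (hx : x ∈ Icc p.y1 (p.y1 + p.h)) :
    p.w1 x = p.eta - (p.m + p.eta) * B ((x - p.y1) / p.h) := by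
  have h1 := h_pos H; have h2 := a_pos H; have h3 := h1y H; have h4 := hy2 H
  obtain ⟨hx0, hx1⟩ := hx
  unfold Par.w1
  rw [bump_r (by linarith), B1 (x := x) (by linarith),
    B0 (x := (x - p.y2) / p.a) (div_nonpos_of_nonpos_of_nonneg (by linarith) h2.le)]
  ring

theorem w1_f {x : ℝ} (hx : x ∈ Icc (p.y1 + p.h) p.y2) : p.w1 x = -p.m := by
  have h1 := h_pos H; have h2 := a_pos H; have h3 := h1y H; have h4 := hy2 H
  obtain ⟨hx0, hx1⟩ := hx
  unfold Par.w1
  rw [bump_r (by linarith), B1 (x := x) (by linarith),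
    B1 (x := (x - p.y1) / p.h) (by rw [le_div_iff₀ h1]; linarith),
    B0 (x := (x - p.y2) / p.a) (div_nonpos_of_nonpos_of_nonneg (by linarith) h2.le)]
  ring

theorem w1_g' {x : ℝ} (hx : p.y2 ≤ x) :
    p.w1 x = -p.m + p.m * B ((x - p.y2) / p.a) := by
  have h1 := h_pos H; have h2 := a_pos H; have h3 := h1y H; have h4 := hy2 H
  unfold Par.w1
  rw [bump_r (by linarith), B1 (x := x) (by linarith),
    B1 (x := (x - p.y1) / p.h) (by rw [le_div_iff₀ h1]; linarith)]
  ring

theorem w1_h {x : ℝ} (hx : p.L ≤ x) : p.w1 x = 0 := by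
  have h2 := a_pos H; have h4 := hL H
  rw [w1_g' H (by linarith), B1 (x := (x - p.y2) / p.a)
    (by rw [le_div_iff₀ h2]; unfold Par.L at hx; linarith)]
  ring

theorem step (x y : ℝ) : p.w y = p.w x + ∫ t in x..y, p.w1 t := by
  unfold Par.w
  rw [add_assoc, intervalIntegral.integral_add_adjacent_intervals
    ((w1co H).intervalIntegrable _ _) ((w1co H).intervalIntegrable _ _)]

theorem dw (x : ℝ) : HasDerivAt p.w (p.w1 x) x := by
  have h1 : HasDerivAt (fun u => ∫ t in (-3 : ℝ)..u, p.w1 t) (p.w1 x) x :=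
    intervalIntegral.integral_hasDerivAt_right ((w1co H).intervalIntegrable _ _)
      ((w1co H).stronglyMeasurableAtFilter _ _) (w1co H).continuousAt
  exact h1.const_add 1

theorem dw1 (x : ℝ) : HasDerivAt p.w1 (p.w2 x) x :=
  ((smooth H).differentiable (by simp) x).hasDerivAt

theorem w2sm : ContDiff ℝ (⊤ : ℕ∞) p.w2 := by
  unfold Par.w2
  exact ((contDiff_succ_iff_deriv (n := ((⊤ : ℕ∞) : WithTop ℕ∞))).1 (by simpa using smooth H)).2.2

theorem dw2 (x : ℝ) : HasDerivAt p.w2 (p.w3 x) x :=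
  ((w2sm H).differentiable (by simp) x).hasDerivAt

theorem w_a {x : ℝ} (hx : x ≤ -1) : p.w x = 1 := by
  unfold Par.w
  have h1 : ∫ t in (-3 : ℝ)..x, p.w1 t = ∫ t in (-3 : ℝ)..x, (0 : ℝ) := by
    refine intervalIntegral.integral_congr ?_
    intro t ht
    refine w1_a H ?_
    rcases le_total (-3 : ℝ) x with h | h
    · rw [uIcc_of_le h] at ht; linarith [ht.2]
    · rw [uIcc_of_ge h] at ht; linarith [ht.2]
  rw [h1]; simp

theorem w_c {x : ℝ} (hx : -1 ≤ x) (hx0 : x ≤ 0) : 1 ≤ p.w x ∧ p.w x ≤ 2 := by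
  have h1 := step H (-1) x
  rw [w_a H le_rfl] at h1
  have h2 := up (w1co H) hx (C := 1) (fun t ht => by
    rw [w1_b H (ht.2.trans hx0)]; exact bump_le t)
  have h3 := lo (w1co H) hx (C := 0) (fun t ht => by
    rw [w1_b H (ht.2.trans hx0)]; exact bump_nn t)
  constructor <;> linarith

theorem w_00 : p.w 0 = 1 + Bt := by
  have h1 := step H (-1) 0
  rw [w_a H le_rfl] at h1
  have h2 : ∫ t in (-1 : ℝ)..0, p.w1 t = Bt := by
    unfold Bt
    refine intervalIntegral.integral_congr ?_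
    intro t ht
    rw [uIcc_of_le (by norm_num)] at ht
    exact w1_b H ht.2
  rw [h1, h2]

theorem w_11 : p.w 1 = 1 + Bt + p.eta * b1 := by
  have h1 := step H 0 1
  rw [w_00 H] at h1
  have h2 : ∫ t in (0 : ℝ)..1, p.w1 t = p.eta * b1 := by
    unfold b1
    rw [← intervalIntegral.integral_const_mul]
    refine intervalIntegral.integral_congr ?_
    intro t ht
    rw [uIcc_of_le (by norm_num)] at ht
    exact w1_c H ht
  rw [h1, h2]

theorem w_01 {x : ℝ} (hx : x ∈ Icc (0 : ℝ) 1) : 1 ≤ p.w x ∧ p.w x ≤ 3 := by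
  have h0 := H.eta0; have h00 := H.eta1; have h000 := H.m1
  have h1 := step H 0 x
  rw [w_00 H] at h1
  have h2 := up (w1co H) hx.1 (C := 1) (fun t ht => by
    rw [w1_c H ⟨ht.1, ht.2.trans hx.2⟩]
    have := Ble t; have := Bnn t; nlinarith)
  have h3 := lo (w1co H) hx.1 (C := 0) (fun t ht => by
    rw [w1_c H ⟨ht.1, ht.2.trans hx.2⟩]
    exact mul_nonneg h0.le (Bnn t))
  have h4 := Bt_nn; have h5 := Bt_le; have h6 := hx.2
  constructor <;> linarith

theorem w_0 {x : ℝ} (hx : x ≤ 0) : p.w x ≤ 2 := by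
  rcases le_total x (-1) with h | h
  · rw [w_a H h]; norm_num
  · exact (w_c H h hx).2

theorem w_b {x : ℝ} (hx : x ≤ 1) : p.w x ≤ 3 := by
  rcases le_total x 0 with h | h
  · linarith [w_0 H h]
  · exact (w_01 H ⟨h, hx⟩).2

theorem w_d {x : ℝ} (hx : x ∈ Icc (1 : ℝ) p.y1) :
    p.w x = 1 + Bt + p.eta * b1 + p.eta * (x - 1) := by
  have h1 := step H 1 x
  rw [w_11 H] at h1
  have h2 : ∫ t in (1 : ℝ)..x, p.w1 t = ∫ t in (1 : ℝ)..x, p.eta := by
    refine intervalIntegral.integral_congr ?_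
    intro t ht
    rw [uIcc_of_le hx.1] at ht
    exact w1_d H ⟨ht.1, ht.2.trans hx.2⟩
  rw [h2, intervalIntegral.integral_const, smul_eq_mul] at h1
  linarith

theorem w_y1 : p.w p.y1 = p.QA := by
  rw [w_d H ⟨(h1y H).le, le_rfl⟩, ey1 H]; ring

theorem w_e {x : ℝ} (hx : x ∈ Icc p.y1 (p.y1 + p.h)) :
    p.QA / 2 ≤ p.w x ∧ p.w x ≤ 2 * p.QA := by
  have h0 := H.eta0; have h00 := H.eta1; have h000 := H.m0; have h4 := H.QA0; have h5 := H.QB0
  have h6 := mh H
  have h7 := h_pos H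
  have h1 := step H p.y1 x
  rw [w_y1 H] at h1
  have h2 := up (w1co H) hx.1 (C := p.eta) (fun t ht => by
    rw [w1_e H ⟨ht.1, ht.2.trans hx.2⟩]
    have := mul_nonneg (by linarith : (0 : ℝ) ≤ p.m + p.eta) (Bnn ((t - p.y1) / p.h))
    linarith)
  have h3 := lo (w1co H) hx.1 (C := -p.m) (fun t ht => by
    rw [w1_e H ⟨ht.1, ht.2.trans hx.2⟩]
    have := mul_le_mul_of_nonneg_left (Ble ((t - p.y1) / p.h))
      (by linarith : (0 : ℝ) ≤ p.m + p.eta)
    linarith)
  have hx1 := hx.2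
  have hx0 := hx.1
  constructor
  · nlinarith
  · have h8 : p.eta * (x - p.y1) ≤ p.m * p.h := by
      have h9 : p.eta * (x - p.y1) ≤ p.eta * p.h :=
        mul_le_mul_of_nonneg_left (by linarith) h0.le
      have h10 : p.eta * p.h ≤ p.m * p.h := mul_le_mul_of_nonneg_right (by linarith) h7.le
      linarith
    linarith

theorem w_yh : p.w (p.y1 + p.h) = p.QA + p.eta * p.h - (p.m + p.eta) * p.h * b1 := by
  have h7 := h_pos H
  have h1 := step H p.y1 (p.y1 + p.h)
  rw [w_y1 H] at h1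
  have h2 : ∫ t in p.y1..(p.y1 + p.h), p.w1 t =
      ∫ t in p.y1..(p.y1 + p.h), (p.eta - (p.m + p.eta) * B ((t - p.y1) / p.h)) := by
    refine intervalIntegral.integral_congr ?_
    intro t ht
    rw [uIcc_of_le (by linarith)] at ht
    exact w1_e H ht
  have hc : Continuous fun t : ℝ => B ((t - p.y1) / p.h) :=
    Bco.comp ((continuous_id.sub continuous_const).div_const _)
  have h3 : ∫ t in p.y1..(p.y1 + p.h), B ((t - p.y1) / p.h) = p.h * b1 := by
    have h4 : ∫ t in p.y1..(p.y1 + p.h), B ((t - p.y1) / p.h) =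
        ∫ t in (0 : ℝ)..p.h, B (t / p.h) := by
      have := intervalIntegral.integral_comp_sub_right (a := p.y1) (b := p.y1 + p.h)
        (fun t : ℝ => B (t / p.h)) p.y1
      rw [this]; congr 1 <;> ring
    rw [h4, intervalIntegral.integral_comp_div (f := B) h7.ne', zero_div, div_self h7.ne',
      smul_eq_mul]
    rfl
  have hc2 : Continuous fun t : ℝ => (p.m + p.eta) * B ((t - p.y1) / p.h) :=
    continuous_const.mul hc
  have hc3 : Continuous fun _ : ℝ => p.eta := continuous_const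
  have h5 : ∫ t in p.y1..(p.y1 + p.h), (p.eta - (p.m + p.eta) * B ((t - p.y1) / p.h)) =
      (∫ _t in p.y1..(p.y1 + p.h), p.eta) -
        ∫ t in p.y1..(p.y1 + p.h), (p.m + p.eta) * B ((t - p.y1) / p.h) :=
    intervalIntegral.integral_sub (hc3.intervalIntegrable _ _) (hc2.intervalIntegrable _ _)
  rw [h1, h2, h5, intervalIntegral.integral_const,
    intervalIntegral.integral_const_mul, h3, smul_eq_mul]
  ring

theorem w_f {x : ℝ} (hx : x ∈ Icc (p.y1 + p.h) p.y2) : p.w x = 2 * p.QB + p.m * (p.y2 - x) := by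
  have h1 := step H (p.y1 + p.h) x
  rw [w_yh H] at h1
  have h2 : ∫ t in (p.y1 + p.h)..x, p.w1 t = ∫ t in (p.y1 + p.h)..x, -p.m := by
    refine intervalIntegral.integral_congr ?_
    intro t ht
    rw [uIcc_of_le hx.1] at ht
    exact w1_f H ⟨ht.1, ht.2.trans hx.2⟩
  rw [h2, intervalIntegral.integral_const, smul_eq_mul] at h1
  have h3 := my2 H
  linarith

theorem w_g1 {x : ℝ} (hx : x ∈ Icc p.y2 p.L) : p.QB ≤ p.w x ∧ p.w x ≤ 2 * p.QB := by
  have h000 := H.m0
  have h6 := ma H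
  have h7 := a_pos H
  have h1 := step H p.y2 x
  rw [w_f H ⟨(hy2 H).le, le_rfl⟩] at h1
  have h2 := up (w1co H) hx.1 (C := 0) (fun t ht => by
    rw [w1_g' H ht.1]
    have := mul_le_mul_of_nonneg_left (Ble ((t - p.y2) / p.a)) h000.le
    linarith)
  have h3 := lo (w1co H) hx.1 (C := -p.m) (fun t ht => by
    rw [w1_g' H ht.1]
    have := mul_nonneg h000.le (Bnn ((t - p.y2) / p.a))
    linarith)
  have hx1 : x ≤ p.y2 + p.a := hx.2
  constructor
  · nlinarith
  · linarith

theorem w_g {x : ℝ} (hx : p.y2 ≤ x) : p.QB ≤ p.w x ∧ p.w x ≤ 2 * p.QB := by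
  rcases le_total x p.L with h | h
  · exact w_g1 H ⟨hx, h⟩
  · have h1 := step H p.L x
    have h2 : ∫ t in p.L..x, p.w1 t = ∫ t in p.L..x, (0 : ℝ) := by
      refine intervalIntegral.integral_congr ?_
      intro t ht
      rw [uIcc_of_le h] at ht
      exact w1_h H ht.1
    rw [h2, intervalIntegral.integral_zero, add_zero] at h1
    rw [h1]
    exact w_g1 H ⟨(hL H).le, le_rfl⟩

theorem cases4 (x : ℝ) : x ≤ -1 ∨ (-1 ≤ x ∧ x ≤ 0) ∨ x ∈ Icc (0 : ℝ) 1 ∨ x ∈ Icc (1 : ℝ) p.y1 ∨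
    x ∈ Icc p.y1 (p.y1 + p.h) ∨ x ∈ Icc (p.y1 + p.h) p.y2 ∨ p.y2 ≤ x := by
  rcases le_total x (-1) with h | h
  · exact Or.inl h
  rcases le_total x 0 with h2 | h2
  · exact Or.inr (Or.inl ⟨h, h2⟩)
  rcases le_total x 1 with h3 | h3
  · exact Or.inr (Or.inr (Or.inl ⟨h2, h3⟩))
  rcases le_total x p.y1 with h4 | h4
  · exact Or.inr (Or.inr (Or.inr (Or.inl ⟨h3, h4⟩)))
  rcases le_total x (p.y1 + p.h) with h5 | h5
  · exact Or.inr (Or.inr (Or.inr (Or.inr (Or.inl ⟨h4, h5⟩))))
  rcases le_total x p.y2 with h6 | h6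
  · exact Or.inr (Or.inr (Or.inr (Or.inr (Or.inr (Or.inl ⟨h5, h6⟩)))))
  · exact Or.inr (Or.inr (Or.inr (Or.inr (Or.inr (Or.inr h6)))))

theorem one_le (x : ℝ) : 1 ≤ p.w x := by
  have h0 := H.eta0; have h1 := H.m0; have h4 := H.QA0; have h5 := H.QB0
  rcases cases4 H x with h | h | h | h | h | h | h
  · rw [w_a H h]
  · exact (w_c H h.1 h.2).1
  · exact (w_01 H h).1
  · rw [w_d H h]
    have := Bt_nn; have := mul_nonneg h0.le b1_nn
    have := mul_nonneg h0.le (by linarith [h.1] : (0 : ℝ) ≤ x - 1)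
    linarith
  · linarith [(w_e H h).1]
  · rw [w_f H h]
    have := mul_nonneg h1.le (by linarith [h.2] : (0 : ℝ) ≤ p.y2 - x)
    linarith
  · linarith [(w_g H h).1]

theorem w_le (x : ℝ) : p.w x ≤ 2 * p.QA := by
  have h0 := H.eta0; have h1 := H.m0; have h4 := H.QA0; have h5 := H.QB0
  rcases cases4 H x with h | h | h | h | h | h | h
  · rw [w_a H h]; linarith
  · linarith [(w_c H h.1 h.2).2]
  · linarith [(w_01 H h).2]
  · have h6 := w_y1 H
    rw [w_d H ⟨(h1y H).le, le_rfl⟩] at h6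
    rw [w_d H h]
    have := mul_le_mul_of_nonneg_left (by linarith [h.2] : x - 1 ≤ p.y1 - 1) h0.le
    linarith
  · exact (w_e H h).2
  · have h6 := (w_e H (x := p.y1 + p.h) ⟨by linarith [h_pos H], le_rfl⟩).2
    rw [w_f H ⟨le_rfl, (hy2 H).le⟩] at h6
    rw [w_f H h]
    have := mul_le_mul_of_nonneg_left (by linarith [h.1] : p.y2 - x ≤ p.y2 - (p.y1 + p.h)) h1.le
    linarith
  · linarith [(w_g H h).2]

end

theorem main : Pool.Agent.Q279.PM.RegF := by
  intro p b H
  exact
    { hz := hz H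
      hzy := hzy H
      hy := by linarith [h_pos H]
      hy2 := hy2 H
      hL := hL H
      smooth := smooth H
      dw := dw H
      dw1 := dw1 H
      dw2 := dw2 H
      one_le := one_le H
      w1_a := fun x hx => w1_a H hx
      w1_b := fun x hx => w1_b H hx
      w1_c := fun x hx => w1_c H hx
      w1_d := fun x hx => w1_d H hx
      w1_e := fun x hx => w1_e H hx
      w1_f := fun x hx => w1_f H hx
      w1_g := fun x hx => w1_g' H hx.1
      w1_h := fun x hx => w1_h H hx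
      w_a := fun x hx => w_a H hx
      w_0 := fun x hx => w_0 H hx
      w_b := fun x hx => w_b H hx
      w_d := fun x hx => w_d H hx
      w_y1 := w_y1 H
      w_e := fun x hx => w_e H hx
      w_f := fun x hx => w_f H hx
      w_g := fun x hx => w_g H hx
      w_le := w_le H }

end

end Pool.Agent.Q279.PM.JREG
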