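import Pool.Agent.Q279.PM.Stm

/-!
# Job PM-TAU: the three variation integrals
-/

set_option autoImplicit false

namespace Pool.Agent.Q279.PM.JTAU

open Set MeasureTheory intervalIntegral Pool.Agent.Q279.PM

section
variable {p : Par} {b l : ℝ}

theorem w_pos (hR : p.Reg) (x : ℝ) : 0 < p.w x := by
  have := hR.one_le x
  linarith

theorem q_pos (hR : p.Reg) (hQ : p.Qf b) (x : ℝ) : 0 < p.q x := by
  have h1 := hQ.q_lo x
  have h2 := w_pos hR x
  linarith

theorem q_cont (hQ : p.Qf b) : Continuous p.q := hQ.q_s.continuous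

theorem q1_cont (hQ : p.Qf b) : Continuous p.q1 :=
  hQ.q_s.continuous_deriv (by exact_mod_cast le_top)

theorem q_der (hQ : p.Qf b) (x : ℝ) : HasDerivAt p.q (p.q1 x) x :=
  (hQ.q_s.differentiable (by simp)).differentiableAt.hasDerivAt

theorem qp_cont (hR : p.Reg) (hQ : p.Qf b) (r : ℝ) : Continuous (fun x => p.q x ^ r) :=
  (q_cont hQ).rpow_const (fun x => Or.inl (q_pos hR hQ x).ne')

/-- the exact integral -/
theorem exact_int (hR : p.Reg) (hQ : p.Qf b) (u v : ℝ) :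
    l * ∫ x in u..v, p.q1 x * p.q x ^ (-l - 1) = p.q u ^ (-l) - p.q v ^ (-l) := by
  have h1 : ∀ x ∈ uIcc u v, HasDerivAt (fun y => -(p.q y ^ (-l))) (l * (p.q1 x * p.q x ^ (-l - 1))) x := by
    intro x _
    have h2 := ((q_der hQ x).rpow_const (p := -l) (Or.inl (q_pos hR hQ x).ne')).neg
    refine h2.congr_deriv ?_
    ring
  have h3 := intervalIntegral.integral_eq_sub_of_hasDerivAt h1
    (((continuous_const.mul ((q1_cont hQ).mul (qp_cont hR hQ (-l - 1)))).intervalIntegrable u v))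
  rw [← intervalIntegral.integral_const_mul, h3]
  ring

/-- the bound of an integral by the maximum of the integrand -/
theorem int_le (f : ℝ → ℝ) (hf : Continuous f) (u v M : ℝ) (huv : u ≤ v) (h : ∀ x ∈ Icc u v, f x ≤ M) :
    ∫ x in u..v, f x ≤ M * (v - u) := by
  have h1 := intervalIntegral.integral_mono_on huv (hf.intervalIntegrable u v)
    (continuous_const.intervalIntegrable u v : IntervalIntegrable (fun _ => M) volume u v) h
  rw [intervalIntegral.integral_const, smul_eq_mul, mul_comm] at h1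
  exact h1

/-- the part right of `y1` -/
theorem part2 (hO : p.OK b) (hR : p.Reg) (hQ : p.Qf b) (hl : 0 < l) (hl1 : l ≤ 1) :
    l * ∫ x in p.y1..p.L, |p.q1 x| * p.q x ^ (-l - 1) ≤ 8 * p.QB ^ (-l) := by
  have hm := hO.m0
  have hQB : 0 < p.QB := by linarith [hO.QB0]
  have hQA : 0 < p.QA := by linarith [hO.QA0]
  have hc : Continuous (fun x => |p.q1 x| * p.q x ^ (-l - 1)) := (q1_cont hQ).abs.mul (qp_cont hR hQ _)
  have ii : ∀ u v, IntervalIntegrable (fun x => |p.q1 x| * p.q x ^ (-l - 1)) volume u v := fun u v => hc.intervalIntegrable u v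
  have h2y : (2 : ℝ) ≤ p.y1 := by linarith [hR.hz, hR.hzy]
  rw [← intervalIntegral.integral_add_adjacent_intervals (ii p.y1 (p.y1 + p.h)) (ii (p.y1 + p.h) p.L),
    ← intervalIntegral.integral_add_adjacent_intervals (ii (p.y1 + p.h) p.y2) (ii p.y2 p.L), mul_add, mul_add]
  have hX : 0 < p.QB ^ (-l) := Real.rpow_pos_of_pos hQB _
  -- the peak
  have i1 : l * ∫ x in p.y1..(p.y1 + p.h), |p.q1 x| * p.q x ^ (-l - 1) ≤ 16 / 7 * p.QB ^ (-l) := by
    have h1 := int_le (fun x => |p.q1 x| * p.q x ^ (-l - 1)) hc p.y1 (p.y1 + p.h) (2 * p.m * (p.QB ^ (-l) * (7 / 16 * p.QA)⁻¹)) hR.hy.le (by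
      intro x hx
      have h3 := hQ.q1_a x (h2y.trans hx.1)
      have h4 := (hR.w_e x hx).1
      have h5 := hQ.q_lo x
      have h6 : 7 / 16 * p.QA ≤ p.q x := by linarith
      have h7 : p.QB ≤ 7 / 16 * p.QA := by linarith [hO.QA0]
      have h8 : p.q x ^ (-l - 1) ≤ (7 / 16 * p.QA) ^ (-l - 1) := Real.rpow_le_rpow_of_nonpos (by positivity) h6 (by linarith)
      have h9 : (7 / 16 * p.QA) ^ (-l - 1) = (7 / 16 * p.QA) ^ (-l) * (7 / 16 * p.QA)⁻¹ := by
        rw [sub_eq_add_neg, Real.rpow_add (by positivity), Real.rpow_neg_one]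
      have h10 : (7 / 16 * p.QA) ^ (-l) ≤ p.QB ^ (-l) := Real.rpow_le_rpow_of_nonpos hQB h7 (by linarith)
      have h11 : (7 / 16 * p.QA) ^ (-l) * (7 / 16 * p.QA)⁻¹ ≤ p.QB ^ (-l) * (7 / 16 * p.QA)⁻¹ :=
        mul_le_mul_of_nonneg_right h10 (by positivity)
      exact mul_le_mul h3 (h8.trans (h9.le.trans h11)) (Real.rpow_nonneg (q_pos hR hQ x).le _) (by positivity))
    have h2 : 2 * p.m * (p.QB ^ (-l) * (7 / 16 * p.QA)⁻¹) * (p.y1 + p.h - p.y1) = 16 / 7 * p.QB ^ (-l) := by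
      unfold Par.h
      field_simp
      ring
    rw [h2] at h1
    have h0 : 0 ≤ ∫ x in p.y1..(p.y1 + p.h), |p.q1 x| * p.q x ^ (-l - 1) :=
      intervalIntegral.integral_nonneg hR.hy.le (fun x _ => mul_nonneg (abs_nonneg _) (Real.rpow_nonneg (q_pos hR hQ x).le _))
    nlinarith
  -- the descent
  have i2 : l * ∫ x in (p.y1 + p.h)..p.y2, |p.q1 x| * p.q x ^ (-l - 1) ≤ p.QB ^ (-l) := by
    have h1 : ∫ x in (p.y1 + p.h)..p.y2, |p.q1 x| * p.q x ^ (-l - 1) = -∫ x in (p.y1 + p.h)..p.y2, p.q1 x * p.q x ^ (-l - 1) := by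
      rw [← intervalIntegral.integral_neg]
      apply intervalIntegral.integral_congr
      intro x hx
      rw [uIcc_of_le hR.hy2.le] at hx
      have h2 := hQ.q1_f x hx
      show |p.q1 x| * p.q x ^ (-l - 1) = -(p.q1 x * p.q x ^ (-l - 1))
      rw [h2, abs_neg, abs_of_pos hm]
      ring
    rw [h1, mul_neg, exact_int hR hQ]
    have h3 : p.q p.y2 = p.w p.y2 := hQ.q_f p.y2 ⟨hR.hy2.le, le_rfl⟩
    have h4 := (hR.w_g p.y2 le_rfl).1
    have h5 : p.q p.y2 ^ (-l) ≤ p.QB ^ (-l) := Real.rpow_le_rpow_of_nonpos hQB (by rw [h3]; exact h4) (by linarith)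
    have h6 : 0 ≤ p.q (p.y1 + p.h) ^ (-l) := Real.rpow_nonneg (q_pos hR hQ _).le _
    linarith
  -- the ramp
  have i3 : l * ∫ x in p.y2..p.L, |p.q1 x| * p.q x ^ (-l - 1) ≤ 3 * p.QB ^ (-l) := by
    have h1 := int_le (fun x => |p.q1 x| * p.q x ^ (-l - 1)) hc p.y2 p.L (2 * p.m * (8 / 7 * p.QB ^ (-l) * (7 / 8 * p.QB)⁻¹)) hR.hL.le (by
      intro x hx
      have h2x : 2 ≤ x := by linarith [hR.hy, hR.hy2, hx.1]
      have h3 := hQ.q1_a x h2x
      have h4 := (hR.w_g x hx.1).1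
      have h5 := hQ.q_lo x
      have h6 : 7 / 8 * p.QB ≤ p.q x := by linarith
      have h8 : p.q x ^ (-l - 1) ≤ (7 / 8 * p.QB) ^ (-l - 1) := Real.rpow_le_rpow_of_nonpos (by positivity) h6 (by linarith)
      have h9 : (7 / 8 * p.QB) ^ (-l - 1) = (7 / 8 * p.QB) ^ (-l) * (7 / 8 * p.QB)⁻¹ := by
        rw [sub_eq_add_neg, Real.rpow_add (by positivity), Real.rpow_neg_one]
      have h10 : (7 / 8 * p.QB) ^ (-l) ≤ 8 / 7 * p.QB ^ (-l) := by
        rw [Real.mul_rpow (by norm_num) hQB.le]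
        apply mul_le_mul_of_nonneg_right _ hX.le
        have h12 : (7 / 8 : ℝ) ^ (-l) = (8 / 7 : ℝ) ^ l := by
          rw [Real.rpow_neg (by norm_num), ← Real.inv_rpow (by norm_num)]
          norm_num
        rw [h12]
        have h13 := Real.rpow_le_rpow_of_exponent_le (x := (8 / 7 : ℝ)) (by norm_num) hl1
        rwa [Real.rpow_one] at h13
      have h11 : (7 / 8 * p.QB) ^ (-l) * (7 / 8 * p.QB)⁻¹ ≤ 8 / 7 * p.QB ^ (-l) * (7 / 8 * p.QB)⁻¹ :=
        mul_le_mul_of_nonneg_right h10 (by positivity)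
      exact mul_le_mul h3 (h8.trans (h9.le.trans h11)) (Real.rpow_nonneg (q_pos hR hQ x).le _) (by positivity))
    have h2 : 2 * p.m * (8 / 7 * p.QB ^ (-l) * (7 / 8 * p.QB)⁻¹) * (p.L - p.y2) = 128 / 49 * p.QB ^ (-l) := by
      unfold Par.L Par.a
      field_simp
      ring
    rw [h2] at h1
    have h0 : 0 ≤ ∫ x in p.y2..p.L, |p.q1 x| * p.q x ^ (-l - 1) :=
      intervalIntegral.integral_nonneg hR.hL.le (fun x _ => mul_nonneg (abs_nonneg _) (Real.rpow_nonneg (q_pos hR hQ x).le _))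
    nlinarith
  linarith

end

theorem main : Pool.Agent.Q279.PM.Tau := by
  intro p b l hO hR hD hQ hl hl1
  have hm := hO.m0
  have hη := hO.eta0
  have hQB : 0 < p.QB := by linarith [hO.QB0]
  have hX : 0 < p.QB ^ (-l) := Real.rpow_pos_of_pos hQB _
  have hp2 := part2 hO hR hQ hl hl1
  have hqp : ∀ x, 0 ≤ p.q x ^ (-l - 1) := fun x => Real.rpow_nonneg (q_pos hR hQ x).le _
  have hyL : p.y1 ≤ p.L := by linarith [hR.hy, hR.hy2, hR.hL]
  have cm : Continuous (fun x => max (-p.q1 x) 0 * p.q x ^ (-l - 1)) :=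
    ((q1_cont hQ).neg.max continuous_const).mul (qp_cont hR hQ _)
  have cp : Continuous (fun x => max (p.q1 x) 0 * p.q x ^ (-l - 1)) :=
    ((q1_cont hQ).max continuous_const).mul (qp_cont hR hQ _)
  have ca : Continuous (fun x => |p.q1 x| * p.q x ^ (-l - 1)) := (q1_cont hQ).abs.mul (qp_cont hR hQ _)
  have d1 : ∀ x ∈ Icc p.z p.y1, p.q1 x = p.eta := fun x hx => hQ.q1_d x ⟨hR.hz.le.trans hx.1, hx.2⟩
  refine ⟨?_, ?_, ?_⟩
  · rw [← intervalIntegral.integral_add_adjacent_intervals (cm.intervalIntegrable p.z p.y1) (cm.intervalIntegrable p.y1 p.L)]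
    have h1 : ∫ x in p.z..p.y1, max (-p.q1 x) 0 * p.q x ^ (-l - 1) = 0 := by
      have h0 : ∫ x in p.z..p.y1, max (-p.q1 x) 0 * p.q x ^ (-l - 1) = ∫ x in p.z..p.y1, (0 : ℝ) := by
        apply intervalIntegral.integral_congr
        intro x hx
        rw [uIcc_of_le hR.hzy.le] at hx
        show max (-p.q1 x) 0 * p.q x ^ (-l - 1) = 0
        rw [d1 x hx, max_eq_right (by linarith), zero_mul]
      rw [h0, intervalIntegral.integral_zero]
    have h2 : ∫ x in p.y1..p.L, max (-p.q1 x) 0 * p.q x ^ (-l - 1) ≤ ∫ x in p.y1..p.L, |p.q1 x| * p.q x ^ (-l - 1) := by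
      apply intervalIntegral.integral_mono_on hyL (cm.intervalIntegrable _ _) (ca.intervalIntegrable _ _)
      intro x _
      exact mul_le_mul_of_nonneg_right (max_le (neg_le_abs _) (abs_nonneg _)) (hqp x)
    rw [h1, zero_add]
    have h3 := mul_le_mul_of_nonneg_left h2 hl.le
    linarith
  · rw [← intervalIntegral.integral_add_adjacent_intervals (cp.intervalIntegrable p.z p.y1) (cp.intervalIntegrable p.y1 p.L), mul_add]
    have h1 : l * ∫ x in p.z..p.y1, max (p.q1 x) 0 * p.q x ^ (-l - 1) ≤ 1 := by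
      have h2 : ∫ x in p.z..p.y1, max (p.q1 x) 0 * p.q x ^ (-l - 1) = ∫ x in p.z..p.y1, p.q1 x * p.q x ^ (-l - 1) := by
        apply intervalIntegral.integral_congr
        intro x hx
        rw [uIcc_of_le hR.hzy.le] at hx
        show max (p.q1 x) 0 * p.q x ^ (-l - 1) = p.q1 x * p.q x ^ (-l - 1)
        rw [d1 x hx, max_eq_left hη.le]
      rw [h2, exact_int hR hQ]
      have h3 : p.q p.z = p.w p.z := hQ.q_d p.z ⟨by linarith [hR.hz], hR.hzy.le⟩
      have h4 : p.q p.z ^ (-l) ≤ 1 := by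
        rw [h3]
        exact Real.rpow_le_one_of_one_le_of_nonpos (hR.one_le _) (by linarith)
      have h5 : 0 ≤ p.q p.y1 ^ (-l) := Real.rpow_nonneg (q_pos hR hQ _).le _
      linarith
    have h2 : ∫ x in p.y1..p.L, max (p.q1 x) 0 * p.q x ^ (-l - 1) ≤ ∫ x in p.y1..p.L, |p.q1 x| * p.q x ^ (-l - 1) := by
      apply intervalIntegral.integral_mono_on hyL (cp.intervalIntegrable _ _) (ca.intervalIntegrable _ _)
      intro x _
      exact mul_le_mul_of_nonneg_right (max_le (le_abs_self _) (abs_nonneg _)) (hqp x)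
    have h3 := mul_le_mul_of_nonneg_left h2 hl.le
    linarith
  · rw [← intervalIntegral.integral_add_adjacent_intervals (ca.intervalIntegrable (-3) 2) (ca.intervalIntegrable 2 p.z)]
    have h1 := int_le (fun x => |p.q1 x| * p.q x ^ (-l - 1)) ca (-3) 2 4 (by norm_num) (by
      intro x _
      have h2 : |p.q1 x| ≤ 3 := by
        rw [abs_le]
        exact ⟨by linarith [hQ.q1_lo x, hO.m1], hQ.q1_hi x⟩
      have h3 : 7 / 8 ≤ p.q x := by linarith [hQ.q_lo x, hR.one_le x]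
      have h4 : p.q x ^ (-l - 1) ≤ (7 / 8 : ℝ) ^ (-l - 1) := Real.rpow_le_rpow_of_nonpos (by norm_num) h3 (by linarith)
      have h5 : (7 / 8 : ℝ) ^ (-l - 1) ≤ (7 / 8 : ℝ) ^ (-2 : ℝ) :=
        Real.rpow_le_rpow_of_exponent_ge (by norm_num) (by norm_num) (by linarith)
      have h6 : (7 / 8 : ℝ) ^ (-2 : ℝ) = 64 / 49 := by
        rw [Real.rpow_neg (by norm_num)]
        norm_num
      rw [h6] at h5
      have h7 : |p.q1 x| * p.q x ^ (-l - 1) ≤ 3 * (64 / 49) := mul_le_mul h2 (h4.trans h5) (hqp x) (by norm_num)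
      show |p.q1 x| * p.q x ^ (-l - 1) ≤ 4
      linarith)
    have h2 := int_le (fun x => |p.q1 x| * p.q x ^ (-l - 1)) ca 2 p.z p.eta hR.hz.le (by
      intro x hx
      have hx' : x ∈ Icc (2 : ℝ) p.y1 := ⟨hx.1, hx.2.trans hR.hzy.le⟩
      have h3 := hQ.q1_d x hx'
      have h4 : p.q x = p.w x := hQ.q_d x ⟨by linarith [hx.1], hx'.2⟩
      have h5 : p.q x ^ (-l - 1) ≤ 1 := by
        rw [h4]
        exact Real.rpow_le_one_of_one_le_of_nonpos (hR.one_le _) (by linarith)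
      show |p.q1 x| * p.q x ^ (-l - 1) ≤ p.eta
      rw [h3, abs_of_pos hη]
      nlinarith [hqp x])
    have h3 : p.eta * (p.z - 2) = 1 := by
      unfold Par.z
      field_simp
      ring
    rw [h3] at h2
    have h4 : (∫ x in (-3 : ℝ)..2, |p.q1 x| * p.q x ^ (-l - 1)) + (∫ x in (2 : ℝ)..p.z, |p.q1 x| * p.q x ^ (-l - 1)) ≤ 40 := by
      norm_num at h1
      linarith
    have h5 := mul_le_mul_of_nonneg_left h4 hl.le
    linarith

end Pool.Agent.Q279.PM.JTAU
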