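import Pool.Agent.Q279.PM.Stm
import Pool.Agent.Q279.PM.J.Bas298

set_option autoImplicit false

open Set MeasureTheory intervalIntegral Filter Topology
open Pool.Agent.Q279.PM

namespace Pool.Agent.Q279.PM.JTEST

open Pool.Agent.Q279.PM.JBas298

theorem pow_le {q lam : ℝ} (hq : 0 < q) (hq2 : q ≤ 9 / 4) (h0 : 0 < lam) (h1 : lam ≤ 1) :
    q ^ lam ≤ 9 / 4 := by
  rcases le_or_gt q 1 with h | h
  · exact (Real.rpow_le_one hq.le h h0.le).trans (by norm_num)
  · have h2 : q ^ lam ≤ q ^ (1 : ℝ) := Real.rpow_le_rpow_of_exponent_le h.le h1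
    rw [Real.rpow_one] at h2
    linarith

theorem fin_arith (d b B0 a A E2 : ℝ) (hd : 0 < d) (hb : 1 ≤ b) (hB0 : 0 ≤ B0) (hB1 : B0 ≤ 1)
    (hmain : d * B0 ≤ 18 * b * d * a + 9 / 4 * A + 9 / 4 * E2) (hA2 : A ^ 2 ≤ 4 * E2)
    (ha2 : a ^ 2 ≤ 8 * E2) (hE0 : 0 ≤ E2) : (min d 1 * (B0 / (60 * b))) ^ 2 ≤ E2 := by
  have hmin0 : 0 ≤ min d 1 := le_min hd.le zero_le_one
  have hmin1 : min d 1 ≤ 1 := min_le_right _ _
  have hb0 : 0 < 60 * b := by linarith
  have h0 : 0 ≤ min d 1 * (B0 / (60 * b)) := by positivity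
  rcases le_or_gt 1 E2 with hbig | hsmall
  · have h1 : min d 1 * (B0 / (60 * b)) ≤ 1 := by
      have h2 : B0 / (60 * b) ≤ 1 := by
        rw [div_le_one hb0]; linarith
      calc min d 1 * (B0 / (60 * b)) ≤ 1 * 1 :=
            mul_le_mul hmin1 h2 (by positivity) zero_le_one
        _ = 1 := by norm_num
    exact (pow_le_one₀ h0 h1).trans hbig
  · set E : ℝ := Real.sqrt E2 with hE
    have hEE : E ^ 2 = E2 := Real.sq_sqrt hE0
    have hEn : 0 ≤ E := Real.sqrt_nonneg _
    have hE1 : E ≤ 1 := by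
      rw [hE]
      exact Real.sqrt_le_one.mpr hsmall.le
    have hEle : E2 ≤ E := by nlinarith
    have hAle : A ≤ 2 * E := by
      refine (le_abs_self A).trans (abs_le_of_sq_le_sq ?_ (by linarith))
      rw [mul_pow, hEE]; linarith
    have hale : a ≤ 2.83 * E := by
      refine (le_abs_self a).trans (abs_le_of_sq_le_sq ?_ (by linarith))
      rw [mul_pow, hEE]; linarith
    have h3 : 0 ≤ b * d * E := by positivity
    have h1 : d * B0 ≤ 51 * (b * d * E) + 6.75 * E := by
      have h2 : 18 * b * d * a ≤ 18 * b * d * (2.83 * E) :=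
        mul_le_mul_of_nonneg_left hale (by positivity)
      have h2' : 18 * b * d * (2.83 * E) = 50.94 * (b * d * E) := by ring
      linarith
    have h4 : min d 1 * (B0 / (60 * b)) ≤ E := by
      rw [← mul_div_assoc, div_le_iff₀ hb0]
      rcases le_total d 1 with hd1 | hd1
      · rw [min_eq_left hd1]
        have h5 : b * d * E ≤ b * E := by
          have : d * (b * E) ≤ 1 * (b * E) :=
            mul_le_mul_of_nonneg_right hd1 (by positivity)
          linarith
        have h6 : E ≤ b * E := le_mul_of_one_le_left hEn hb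
        have h7 : E * (60 * b) = 60 * (b * E) := by ring
        rw [h7]
        linarith
      · rw [min_eq_right hd1, one_mul]
        have h7 : E ≤ b * d * E := by
          have : 1 ≤ b * d := one_le_mul_of_one_le_of_one_le hb hd1
          exact le_mul_of_one_le_left hEn this
        have h8 : d * B0 ≤ d * (E * (60 * b)) := by
          have : d * (E * (60 * b)) = 60 * (b * d * E) := by ring
          rw [this]
          linarith
        exact le_of_mul_le_mul_left h8 hd
    rw [← hEE]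
    exact pow_le_pow_left₀ h0 h4 2

theorem main : Pool.Agent.Q279.PM.Test := by
  intro s t K q q1 lam d w w1 φ φ1 φ2 b B0 hD hd hS hs ht hlam0 hlam1 hb hB0 hB1 hwin hφ hφ1 hφ2
    hφa hφb hφ1a hφ1b hbd hB
  have hsub : Icc (-2 : ℝ) 0 ⊆ Icc s t := Icc_subset_Icc hs ht
  have h20 : (-2 : ℝ) ≤ 0 := by norm_num
  have hst := hD.lt.le
  have hw : ContinuousOn w (Icc (-2 : ℝ) 0) := (w_contOn hS).mono hsub
  have hw1 : ContinuousOn w1 (Icc (-2 : ℝ) 0) := (w1_contOn hS).mono hsub
  have hK : ContinuousOn K (Icc (-2 : ℝ) 0) := hD.K_cont.continuousOn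
  have hq : ContinuousOn q (Icc (-2 : ℝ) 0) := (q_cont hD).continuousOn
  have hqc : ∀ a : ℝ, ContinuousOn (fun y => q y ^ a) (Icc (-2 : ℝ) 0) := fun a =>
    (qpow_cont hD a).continuousOn
  have hφc : ContinuousOn φ (Icc (-2 : ℝ) 0) := fun x _ => (hφ x).continuousAt.continuousWithinAt
  have hφ1c : ContinuousOn φ1 (Icc (-2 : ℝ) 0) := fun x _ =>
    (hφ1 x).continuousAt.continuousWithinAt
  have hφ2c : ContinuousOn φ2 (Icc (-2 : ℝ) 0) := hφ2.continuousOn
  have hW : ContinuousOn (fun x => -(K x * q x ^ (lam - 2) * w x * (q x - w x)) / d)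
      (Icc (-2 : ℝ) 0) :=
    ((((hK.mul (hqc _)).mul hw).mul (hq.sub hw)).neg).div_const d
  have hec : ContinuousOn (fun x => 1 - w x / q x) (Icc (-2 : ℝ) 0) :=
    continuousOn_const.sub (hw.div hq fun x _ => (hD.q_pos x).ne')
  have hea : ContinuousOn (fun x => |1 - w x / q x|) (Icc (-2 : ℝ) 0) := hec.abs
  -- integration by parts
  have hG : ContinuousOn (fun x => w x * φ2 x
      - (-(K x * q x ^ (lam - 2) * w x * (q x - w x)) / d) * φ x) (Icc (-2 : ℝ) 0) :=
    (hw.mul hφ2c).sub (hW.mul hφc)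
  have hparts : ∫ x in (-2 : ℝ)..0, (w x * φ2 x
      - (-(K x * q x ^ (lam - 2) * w x * (q x - w x)) / d) * φ x) = 0 := by
    have h1 := intervalIntegral.integral_eq_sub_of_hasDerivAt_of_le h20
      (f := fun x => w x * φ1 x - w1 x * φ x) ((hw.mul hφ1c).sub (hw1.mul hφc))
      (f' := fun x => w x * φ2 x
        - (-(K x * q x ^ (lam - 2) * w x * (q x - w x)) / d) * φ x) ?_
      (hG.intervalIntegrable_of_Icc h20)
    · rw [h1]
      simp only [hφa, hφb, hφ1a, hφ1b, mul_zero, sub_zero]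
    · intro x hx
      have hxI := hsub (Ioo_subset_Icc_self hx)
      have hnh : Icc s t ∈ 𝓝 x :=
        mem_of_superset (Icc_mem_nhds hx.1 hx.2) hsub
      have d1 : HasDerivAt w (w1 x) x := (hS.dw x hxI).hasDerivAt hnh
      have d2 : HasDerivAt w1 (-(K x * q x ^ (lam - 2) * w x * (q x - w x)) / d) x :=
        (hS.dw1 x hxI).hasDerivAt hnh
      refine ((d1.mul (hφ1 x)).sub (d2.mul (hφ x))).congr_deriv ?_
      ring
  -- the main identity and the pointwise bound
  have hqφ : ContinuousOn (fun x => q x * φ2 x) (Icc (-2 : ℝ) 0) := hq.mul hφ2c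
  have hid : d * ∫ x in (-2 : ℝ)..0, q x * φ2 x = ∫ x in (-2 : ℝ)..0, (d * (q x * φ2 x)
      - d * (w x * φ2 x - (-(K x * q x ^ (lam - 2) * w x * (q x - w x)) / d) * φ x)) := by
    have c1 : ContinuousOn (fun x => d * (q x * φ2 x)) (Icc (-2 : ℝ) 0) :=
      continuousOn_const.mul hqφ
    have c2 : ContinuousOn (fun x => d * (w x * φ2 x
        - (-(K x * q x ^ (lam - 2) * w x * (q x - w x)) / d) * φ x)) (Icc (-2 : ℝ) 0) :=
      continuousOn_const.mul hG
    rw [intervalIntegral.integral_sub (c1.intervalIntegrable_of_Icc h20)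
      (c2.intervalIntegrable_of_Icc h20), intervalIntegral.integral_const_mul,
      intervalIntegral.integral_const_mul, hparts]
    ring
  have hpt : ∀ x ∈ Icc (-2 : ℝ) 0, |d * (q x * φ2 x)
      - d * (w x * φ2 x - (-(K x * q x ^ (lam - 2) * w x * (q x - w x)) / d) * φ x)|
      ≤ 18 * b * d * |1 - w x / q x| + 9 / 4 * (K x * |1 - w x / q x|)
        + 9 / 4 * (K x * (1 - w x / q x) ^ 2) := by
    intro x hx
    obtain ⟨hK1, hK2, hq2⟩ := hwin x hx
    obtain ⟨hp1, hp2⟩ := hbd x hx
    have hqx := hD.q_pos x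
    set e : ℝ := 1 - w x / q x with he
    have hwe : w x = q x * (1 - e) := by
      rw [he]; field_simp; ring
    have hpow := pow_le hqx hq2 hlam0 hlam1
    have hpow0 : 0 < q x ^ lam := Real.rpow_pos_of_pos hqx _
    have hKpos := hD.K_pos x
    have e1 : d * (q x * φ2 x)
        - d * (w x * φ2 x - (-(K x * q x ^ (lam - 2) * w x * (q x - w x)) / d) * φ x)
        = d * (q x * e * φ2 x) + (-(K x * q x ^ lam * e * φ x) + K x * q x ^ lam * e ^ 2 * φ x) := by
      have e2 : d * ((-(K x * q x ^ (lam - 2) * w x * (q x - w x)) / d) * φ x)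
          = -(K x * q x ^ (lam - 2) * w x * (q x - w x)) * φ x := by
        field_simp
      rw [mul_sub d (w x * φ2 x), e2, qpow_two hD lam x, hwe]
      ring
    rw [e1]
    have t1 : |d * (q x * e * φ2 x)| ≤ 18 * b * d * |e| := by
      rw [abs_mul, abs_mul, abs_mul, abs_of_pos hd, abs_of_pos hqx]
      have h1 : q x * |φ2 x| ≤ 9 / 4 * (8 * b) :=
        mul_le_mul hq2 hp2 (abs_nonneg _) (by norm_num)
      have h2 : 0 ≤ d * |e| := mul_nonneg hd.le (abs_nonneg _)
      calc d * (q x * |e| * |φ2 x|) = (d * |e|) * (q x * |φ2 x|) := by ring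
        _ ≤ (d * |e|) * (9 / 4 * (8 * b)) := mul_le_mul_of_nonneg_left h1 h2
        _ = 18 * b * d * |e| := by ring
    have t0 : q x ^ lam * |φ x| ≤ 9 / 4 := by
      calc q x ^ lam * |φ x| ≤ 9 / 4 * 1 := mul_le_mul hpow hp1 (abs_nonneg _) (by norm_num)
        _ = 9 / 4 := by norm_num
    have t2 : |K x * q x ^ lam * e * φ x| ≤ 9 / 4 * (K x * |e|) := by
      rw [abs_mul, abs_mul, abs_mul, abs_of_pos hKpos, abs_of_pos hpow0]
      calc K x * q x ^ lam * |e| * |φ x| = (K x * |e|) * (q x ^ lam * |φ x|) := by ring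
        _ ≤ (K x * |e|) * (9 / 4) :=
          mul_le_mul_of_nonneg_left t0 (mul_nonneg hKpos.le (abs_nonneg _))
        _ = 9 / 4 * (K x * |e|) := by ring
    have t3 : |K x * q x ^ lam * e ^ 2 * φ x| ≤ 9 / 4 * (K x * e ^ 2) := by
      rw [abs_mul, abs_mul, abs_mul, abs_of_pos hKpos, abs_of_pos hpow0, abs_of_nonneg (sq_nonneg e)]
      calc K x * q x ^ lam * e ^ 2 * |φ x| = (K x * e ^ 2) * (q x ^ lam * |φ x|) := by ring
        _ ≤ (K x * e ^ 2) * (9 / 4) :=
          mul_le_mul_of_nonneg_left t0 (mul_nonneg hKpos.le (sq_nonneg _))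
        _ = 9 / 4 * (K x * e ^ 2) := by ring
    calc |d * (q x * e * φ2 x) + (-(K x * q x ^ lam * e * φ x) + K x * q x ^ lam * e ^ 2 * φ x)|
        ≤ |d * (q x * e * φ2 x)| + (|-(K x * q x ^ lam * e * φ x)|
          + |K x * q x ^ lam * e ^ 2 * φ x|) :=
          (abs_add_le _ _).trans (add_le_add le_rfl (abs_add_le _ _))
      _ ≤ _ := by rw [abs_neg]; linarith
  -- integrals
  set a : ℝ := ∫ x in (-2 : ℝ)..0, |1 - w x / q x| with ha
  set A : ℝ := ∫ x in (-2 : ℝ)..0, K x * |1 - w x / q x| with hA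
  set E2 : ℝ := ∫ x in (-2 : ℝ)..0, K x * (1 - w x / q x) ^ 2 with hE2
  have cA : ContinuousOn (fun x => K x * |1 - w x / q x|) (Icc (-2 : ℝ) 0) := hK.mul hea
  have cE : ContinuousOn (fun x => K x * (1 - w x / q x) ^ 2) (Icc (-2 : ℝ) 0) :=
    hK.mul (hec.pow 2)
  have i1 := hea.intervalIntegrable_of_Icc (μ := volume) h20
  have i2 := cA.intervalIntegrable_of_Icc (μ := volume) h20
  have i3 := cE.intervalIntegrable_of_Icc (μ := volume) h20
  have hmain : d * B0 ≤ 18 * b * d * a + 9 / 4 * A + 9 / 4 * E2 := by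
    have h1 : d * B0 ≤ d * |∫ x in (-2 : ℝ)..0, q x * φ2 x| := mul_le_mul_of_nonneg_left hB hd.le
    have h2 : d * |∫ x in (-2 : ℝ)..0, q x * φ2 x| = |d * ∫ x in (-2 : ℝ)..0, q x * φ2 x| := by
      rw [abs_mul, abs_of_pos hd]
    rw [h2, hid] at h1
    refine h1.trans ((intervalIntegral.abs_integral_le_integral_abs h20).trans ?_)
    have cF : ContinuousOn (fun x => |d * (q x * φ2 x)
      - d * (w x * φ2 x - (-(K x * q x ^ (lam - 2) * w x * (q x - w x)) / d) * φ x)|)
      (Icc (-2 : ℝ) 0) := ((continuousOn_const.mul hqφ).sub (continuousOn_const.mul hG)).abs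
    have j1 : IntervalIntegrable (fun x => 18 * b * d * |1 - w x / q x|) volume (-2) 0 :=
      i1.const_mul _
    have j2 : IntervalIntegrable (fun x => 9 / 4 * (K x * |1 - w x / q x|)) volume (-2) 0 :=
      i2.const_mul _
    have j3 : IntervalIntegrable (fun x => 9 / 4 * (K x * (1 - w x / q x) ^ 2)) volume (-2) 0 :=
      i3.const_mul _
    have j12 : IntervalIntegrable (fun x => 18 * b * d * |1 - w x / q x|
      + 9 / 4 * (K x * |1 - w x / q x|)) volume (-2) 0 := j1.add j2
    have h3 := intervalIntegral.integral_mono_on h20 (cF.intervalIntegrable_of_Icc h20)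
      (j12.add j3) hpt
    refine h3.trans (le_of_eq ?_)
    rw [intervalIntegral.integral_add j12 j3, intervalIntegral.integral_add j1 j2,
      intervalIntegral.integral_const_mul, intervalIntegral.integral_const_mul,
      intervalIntegral.integral_const_mul]
  have hA2 : A ^ 2 ≤ 4 * E2 := by
    have h1 : 0 ≤ ∫ x in (-2 : ℝ)..0, K x * (|1 - w x / q x| - A / 4) ^ 2 :=
      intervalIntegral.integral_nonneg h20 fun x _ =>
        mul_nonneg (hD.K_pos x).le (sq_nonneg _)
    have j2 : IntervalIntegrable (fun x => A / 2 * (K x * |1 - w x / q x|)) volume (-2) 0 :=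
      i2.const_mul _
    have j4 : IntervalIntegrable (fun x => (A / 4) ^ 2 * K x) volume (-2) 0 :=
      (hK.intervalIntegrable_of_Icc h20).const_mul _
    have j32 : IntervalIntegrable (fun x => K x * (1 - w x / q x) ^ 2
      - A / 2 * (K x * |1 - w x / q x|)) volume (-2) 0 := i3.sub j2
    have h2 : ∫ x in (-2 : ℝ)..0, K x * (|1 - w x / q x| - A / 4) ^ 2
        = E2 - A / 2 * A + (A / 4) ^ 2 * ∫ x in (-2 : ℝ)..0, K x := by
      rw [hE2]
      conv_rhs => rw [hA]
      rw [← hA, ← intervalIntegral.integral_const_mul ((A / 4) ^ 2),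
        ← intervalIntegral.integral_const_mul (A / 2), ← intervalIntegral.integral_sub i3 j2,
        ← intervalIntegral.integral_add j32 j4]
      refine intervalIntegral.integral_congr fun x _ => ?_
      show K x * (|1 - w x / q x| - A / 4) ^ 2 = _
      have := sq_abs (1 - w x / q x)
      rw [← this]
      ring
    have h3 : ∫ x in (-2 : ℝ)..0, K x ≤ 4 := by
      have h4 := intervalIntegral.integral_mono_on h20 (hK.intervalIntegrable_of_Icc h20)
        (intervalIntegrable_const (μ := volume) (c := (2 : ℝ))) (fun x hx => (hwin x hx).2.1)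
      rw [intervalIntegral.integral_const] at h4
      norm_num at h4
      exact h4
    have h5 : (A / 4) ^ 2 * ∫ x in (-2 : ℝ)..0, K x ≤ (A / 4) ^ 2 * 4 :=
      mul_le_mul_of_nonneg_left h3 (sq_nonneg _)
    nlinarith
  have ha2 : a ^ 2 ≤ 8 * E2 := by
    have ce2 : ContinuousOn (fun x => (1 - w x / q x) ^ 2) (Icc (-2 : ℝ) 0) := hec.pow 2
    have i4 := ce2.intervalIntegrable_of_Icc (μ := volume) h20
    have h0 : ∫ x in (-2 : ℝ)..0, (1 - w x / q x) ^ 2 ≤ 4 * E2 := by
      rw [hE2, ← intervalIntegral.integral_const_mul]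
      refine intervalIntegral.integral_mono_on h20 i4 (i3.const_mul _) fun x hx => ?_
      have := (hwin x hx).1
      have h2 := sq_nonneg (1 - w x / q x)
      nlinarith
    have h1 : 0 ≤ ∫ x in (-2 : ℝ)..0, (|1 - w x / q x| - a / 2) ^ 2 :=
      intervalIntegral.integral_nonneg h20 fun x _ => sq_nonneg _
    have j2 : IntervalIntegrable (fun x => a * |1 - w x / q x|) volume (-2) 0 := i1.const_mul _
    have j42 : IntervalIntegrable (fun x => (1 - w x / q x) ^ 2 - a * |1 - w x / q x|)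
      volume (-2) 0 := i4.sub j2
    have h2 : ∫ x in (-2 : ℝ)..0, (|1 - w x / q x| - a / 2) ^ 2
        = (∫ x in (-2 : ℝ)..0, (1 - w x / q x) ^ 2) - a * a + (a / 2) ^ 2 * 2 := by
      have h3 : ∫ _x in (-2 : ℝ)..0, (a / 2) ^ 2 = (a / 2) ^ 2 * 2 := by
        rw [intervalIntegral.integral_const]
        norm_num
        ring
      rw [← h3]
      conv_rhs => rw [ha]
      rw [← ha, ← intervalIntegral.integral_const_mul a, ← intervalIntegral.integral_sub i4 j2,
        ← intervalIntegral.integral_add j42 intervalIntegrable_const]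
      refine intervalIntegral.integral_congr fun x _ => ?_
      show (|1 - w x / q x| - a / 2) ^ 2 = _
      have := sq_abs (1 - w x / q x)
      rw [← this]
      ring
    nlinarith
  have hE0 : 0 ≤ E2 := intervalIntegral.integral_nonneg h20 fun x _ =>
    mul_nonneg (hD.K_pos x).le (sq_nonneg _)
  have hE2le : E2 ≤ ∫ x in s..t, K x * (1 - w x / q x) ^ 2 := by
    have cE' : ContinuousOn (fun x => K x * (1 - w x / q x) ^ 2) (Icc s t) :=
      hD.K_cont.continuousOn.mul ((continuousOn_const.sub ((w_contOn hS).div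
        (q_cont hD).continuousOn fun x _ => (hD.q_pos x).ne')).pow 2)
    refine intervalIntegral.integral_mono_interval hs h20 ht ?_
      (cE'.intervalIntegrable_of_Icc hst)
    refine Eventually.of_forall fun x => ?_
    exact mul_nonneg (hD.K_pos x).le (sq_nonneg _)
  refine le_trans ?_ hE2le
  exact fin_arith d b B0 a A E2 hd hb hB0 hB1 hmain hA2 ha2 hE0

end Pool.Agent.Q279.PM.JTEST
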