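import Pool.Agent.Q279.PM.Stm
import Pool.Agent.Q279.PM.J.Bas298

set_option autoImplicit false

open Set MeasureTheory intervalIntegral Filter Topology
open Pool.Agent.Q279.PM

namespace Pool.Agent.Q279.PM.JUPPER

open Pool.Agent.Q279.PM.JBas298

theorem pt1 {u v A H : ℝ} (h1 : -A ≤ u) (h2 : u ≤ H) :
    u * v ≤ A * max (-v) 0 + H * max v 0 := by
  rcases le_total 0 v with h | h
  · rw [max_eq_right (by linarith), max_eq_left h]
    nlinarith
  · rw [max_eq_left (by linarith), max_eq_right h]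
    nlinarith

theorem pt2 {u v d κ : ℝ} (hd : 0 < d) (h1 : d * |u| ≤ κ) :
    d * (u * v) ≤ κ * (max (-v) 0 + max v 0) := by
  have h2 : max (-v) 0 + max v 0 = |v| := by
    rcases le_total 0 v with h | h
    · rw [max_eq_right (by linarith), max_eq_left h, abs_of_nonneg h]; ring
    · rw [max_eq_left (by linarith), max_eq_right h, abs_of_nonpos h]; ring
  rw [h2]
  calc d * (u * v) ≤ d * |u * v| := mul_le_mul_of_nonneg_left (le_abs_self _) hd.le
    _ = (d * |u|) * |v| := by rw [abs_mul]; ring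
    _ ≤ κ * |v| := mul_le_mul_of_nonneg_right h1 (abs_nonneg _)

theorem pt3 {u v d κ : ℝ} (hd : 0 < d) (h1 : d * |u| ≤ κ) : d * (u * v) ≤ κ * |v| := by
  calc d * (u * v) ≤ d * |u * v| := mul_le_mul_of_nonneg_left (le_abs_self _) hd.le
    _ = (d * |u|) * |v| := by rw [abs_mul]; ring
    _ ≤ κ * |v| := mul_le_mul_of_nonneg_right h1 (abs_nonneg _)

theorem pt4 {u v : ℝ} (h1 : |u| ≤ 3) : u * v ≤ 3 * |v| := by
  calc u * v ≤ |u * v| := le_abs_self _
    _ = |u| * |v| := abs_mul _ _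
    _ ≤ 3 * |v| := mul_le_mul_of_nonneg_right h1 (abs_nonneg _)

theorem fin_arith {d G X c : ℝ} (hc : 0 < c) (h1 : G ≤ d * X) (h2 : G ≤ c ^ 2) :
    G - (min d 1 * c) ^ 2 ≤ X ^ 2 / (4 * c ^ 2) := by
  rw [le_div_iff₀ (by positivity)]
  rcases le_total d 1 with h | h
  · rw [min_eq_left h]
    have h3 : 0 ≤ (X - 2 * c ^ 2 * d) ^ 2 := sq_nonneg _
    have h4 : (G - (d * c) ^ 2) * (4 * c ^ 2) ≤ (d * X - (d * c) ^ 2) * (4 * c ^ 2) :=
      mul_le_mul_of_nonneg_right (by linarith) (by positivity)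
    nlinarith
  · rw [min_eq_right h, one_mul]
    have h4 : (G - c ^ 2) * (4 * c ^ 2) ≤ 0 :=
      mul_nonpos_of_nonpos_of_nonneg (by linarith) (by positivity)
    nlinarith [sq_nonneg X]

theorem main : Pool.Agent.Q279.PM.JUpper := by
  intro hSl hAs hFl hId hTe
  intro s t K q q1 lam φ φ1 φ2 z0 z A H b B0 κ0 CK τm τp τ2 hD hs ht hlam0 hlam1 hz0 hz0z hzt hH
    hA hA3 hb hB00 hB01 hq1 hq1H hqz hql hqr hκ0 hCK hτm hτp hτ2 hwin hφ hφ1 hφ2 hφa hφb hφ1a hφ1b
    hbd hB hcond d w w1 hd hS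
  have hst := hD.lt.le
  have hsz : s ≤ z := hz0.trans hz0z.le
  have hzI : z ∈ Icc s t := ⟨hsz, hzt.le⟩
  have hsl := hSl s t K q q1 lam d w w1 A 3 hD hd hS hA (by norm_num) hq1
  have has := hAs s t K q q1 lam d w w1 z0 z H hD hd hS hz0 hz0z hzt hH hq1H hqz
  have hfl := hFl s t K q q1 lam d w w1 z hD hd hS hzI hql hqr
  have hid := hId s t K q q1 lam d w w1 hD hd hS
  have hte := hTe s t K q q1 lam d w w1 φ φ1 φ2 b B0 hD hd hS hs ht hlam0 hlam1 hb hB00.le hB01
    hwin hφ hφ1 hφ2 hφa hφb hφ1a hφ1b hbd hB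
  have hw1 := w1_contOn hS
  have hPc : Continuous (fun x => q x ^ (-lam - 1)) := qpow_cont hD _
  have hPp : ∀ x, 0 ≤ q x ^ (-lam - 1) := fun x => (Real.rpow_pos_of_pos (hD.q_pos x) _).le
  have hq1c := hD.q1_cont
  have hsub1 : Icc s z ⊆ Icc s t := Icc_subset_Icc_right hzt.le
  have hsub2 : Icc z t ⊆ Icc s t := Icc_subset_Icc_left hsz
  have cF : ContinuousOn (fun x => w1 x * q1 x * q x ^ (-lam - 1)) (Icc s t) :=
    (hw1.mul hq1c.continuousOn).mul hPc.continuousOn
  have iF1 : IntervalIntegrable (fun x => w1 x * q1 x * q x ^ (-lam - 1)) volume s z :=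
    (cF.mono hsub1).intervalIntegrable_of_Icc hsz
  have iF2 : IntervalIntegrable (fun x => w1 x * q1 x * q x ^ (-lam - 1)) volume z t :=
    (cF.mono hsub2).intervalIntegrable_of_Icc hzt.le
  have cm : Continuous (fun x => max (-q1 x) 0 * q x ^ (-lam - 1)) :=
    (hq1c.neg.max continuous_const).mul hPc
  have cp : Continuous (fun x => max (q1 x) 0 * q x ^ (-lam - 1)) :=
    (hq1c.max continuous_const).mul hPc
  have c2 : Continuous (fun x => |q1 x| * q x ^ (-lam - 1)) := hq1c.abs.mul hPc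
  set Im : ℝ := ∫ x in z..t, max (-q1 x) 0 * q x ^ (-lam - 1) with hIm
  set Ip : ℝ := ∫ x in z..t, max (q1 x) 0 * q x ^ (-lam - 1) with hIp
  set I2 : ℝ := ∫ x in s..z, |q1 x| * q x ^ (-lam - 1) with hI2
  set J1 : ℝ := ∫ x in s..z, w1 x * q1 x * q x ^ (-lam - 1) with hJ1
  set J2 : ℝ := ∫ x in z..t, w1 x * q1 x * q x ^ (-lam - 1) with hJ2
  have hJ : ∫ x in s..t, w1 x * q1 x * q x ^ (-lam - 1) = J1 + J2 :=
    (intervalIntegral.integral_add_adjacent_intervals iF1 iF2).symm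
  have im := cm.intervalIntegrable (μ := volume) z t
  have ip := cp.intervalIntegrable (μ := volume) z t
  have i2 := c2.intervalIntegrable (μ := volume) s z
  have b1 : J2 ≤ A * Im + H * Ip := by
    rw [hIm, hIp, ← intervalIntegral.integral_const_mul, ← intervalIntegral.integral_const_mul,
      ← intervalIntegral.integral_add (im.const_mul A) (ip.const_mul H)]
    refine intervalIntegral.integral_mono_on hzt.le iF2 ((im.const_mul A).add (ip.const_mul H))
      fun x hx => ?_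
    have h := pt1 (v := q1 x) (hsl x (hsub2 hx)).1 (has x hx)
    have h2 := mul_le_mul_of_nonneg_right h (hPp x)
    linarith
  have b2 : J1 ≤ 3 * I2 := by
    rw [hI2, ← intervalIntegral.integral_const_mul]
    refine intervalIntegral.integral_mono_on hsz iF1 (i2.const_mul 3) fun x hx => ?_
    have h0 : |w1 x| ≤ 3 := abs_le.mpr ⟨by linarith [(hsl x (hsub1 hx)).1], (hsl x (hsub1 hx)).2⟩
    have h := pt4 (v := q1 x) h0
    have h2 := mul_le_mul_of_nonneg_right h (hPp x)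
    linarith
  have b3 : d * J2 ≤ 1 / 4 * κ0 * (Im + Ip) := by
    have e1 : d * J2 = ∫ x in z..t, d * (w1 x * q1 x * q x ^ (-lam - 1)) := by
      rw [intervalIntegral.integral_const_mul]
    have e2 : 1 / 4 * κ0 * (Im + Ip) = ∫ x in z..t, 1 / 4 * κ0 *
        (max (-q1 x) 0 * q x ^ (-lam - 1) + max (q1 x) 0 * q x ^ (-lam - 1)) := by
      rw [intervalIntegral.integral_const_mul, intervalIntegral.integral_add im ip]
    rw [e1, e2]
    refine intervalIntegral.integral_mono_on hzt.le (iF2.const_mul d) ((im.add ip).const_mul _)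
      fun x hx => ?_
    have h0 : d * |w1 x| ≤ 1 / 4 * κ0 := (hfl.1 x hx).trans (by linarith)
    have h := pt2 (v := q1 x) hd h0
    have h2 := mul_le_mul_of_nonneg_right h (hPp x)
    linarith
  have b4 : d * J1 ≤ 1 / 4 * CK * I2 := by
    have e1 : d * J1 = ∫ x in s..z, d * (w1 x * q1 x * q x ^ (-lam - 1)) := by
      rw [intervalIntegral.integral_const_mul]
    have e2 : 1 / 4 * CK * I2 = ∫ x in s..z, 1 / 4 * CK *
        (|q1 x| * q x ^ (-lam - 1)) := by
      rw [intervalIntegral.integral_const_mul]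
    rw [e1, e2]
    refine intervalIntegral.integral_mono_on hsz (iF1.const_mul d) (i2.const_mul _)
      fun x hx => ?_
    have h0 : d * |w1 x| ≤ 1 / 4 * CK := (hfl.2 x (hsub1 hx)).trans (by linarith)
    have h := pt3 (v := q1 x) hd h0
    have h2 := mul_le_mul_of_nonneg_right h (hPp x)
    linarith
  have hKn : ∀ y, 0 ≤ K y * q y ^ lam := fun y =>
    (mul_pos (hD.K_pos y) (Real.rpow_pos_of_pos (hD.q_pos y) _)).le
  have hκn : 0 ≤ κ0 := (intervalIntegral.integral_nonneg hzt.le fun y _ => hKn y).trans hκ0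
  have hCn : 0 ≤ CK := (intervalIntegral.integral_nonneg hst fun y _ => hKn y).trans hCK
  set G : ℝ := lam * d * ∫ x in s..t, w1 x * q1 x * q x ^ (-lam - 1) with hG
  have hG1 : G ≤ d * (A * τm + H * τp + 3 * τ2) := by
    rw [hG, hJ]
    have e1 : lam * (J1 + J2) ≤ A * τm + H * τp + 3 * τ2 := by
      have f1 : lam * J2 ≤ lam * (A * Im + H * Ip) := mul_le_mul_of_nonneg_left b1 hlam0.le
      have f2 : lam * J1 ≤ lam * (3 * I2) := mul_le_mul_of_nonneg_left b2 hlam0.le
      have f3 : A * (lam * Im) ≤ A * τm := mul_le_mul_of_nonneg_left hτm hA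
      have f4 : H * (lam * Ip) ≤ H * τp := mul_le_mul_of_nonneg_left hτp hH
      linarith
    calc lam * d * (J1 + J2) = d * (lam * (J1 + J2)) := by ring
      _ ≤ _ := mul_le_mul_of_nonneg_left e1 hd.le
  have hG2 : G ≤ (B0 / (60 * b)) ^ 2 := by
    refine le_trans ?_ hcond
    rw [hG, hJ]
    have f1 : lam * (d * J2) ≤ lam * (1 / 4 * κ0 * (Im + Ip)) :=
      mul_le_mul_of_nonneg_left b3 hlam0.le
    have f2 : lam * (d * J1) ≤ lam * (1 / 4 * CK * I2) := mul_le_mul_of_nonneg_left b4 hlam0.le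
    have f3 : 1 / 4 * κ0 * (lam * Im + lam * Ip) ≤ 1 / 4 * κ0 * (τm + τp) :=
      mul_le_mul_of_nonneg_left (by linarith) (by positivity)
    have f4 : 1 / 4 * CK * (lam * I2) ≤ 1 / 4 * CK * τ2 :=
      mul_le_mul_of_nonneg_left hτ2 (by positivity)
    linarith
  have hc : 0 < B0 / (60 * b) := div_pos hB00 (by linarith)
  have hfin := fin_arith hc hG1 hG2
  rw [hid]
  linarith

end Pool.Agent.Q279.PM.JUPPER
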